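import Pool.Agent.LR.B5.Chain

/-!
# LR-B5-NN: the form of the box and of the pinned model against the nearest neighbour energy
-/

set_option autoImplicit false

namespace Pool.Agent.LR.B5

theorem QF_apply (α β : ℝ) (S : Finset V) (φ χ : V → ℝ) :
    QF α β S φ χ = ∑ x ∈ S, ∑ y ∈ S, JJ α β x y / 2 * (φ x - φ y) * (χ x - χ y) := by
  simp only [QF, Qfr, rk, ev, LinearMap.sum_apply,
    LinearMap.mk₂_apply, LinearMap.sub_apply, LinearMap.proj_apply]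

theorem JJ_nonneg {α β : ℝ} (hβ : 0 ≤ β) (x y : V) : 0 ≤ JJ α β x y := by
  unfold JJ Jc
  split_ifs
  · exact le_rfl
  · have : 0 ≤ len (x - y) := Real.sqrt_nonneg _
    positivity

theorem JJ_nn {α β : ℝ} {x y : V} (h : (x.1 - y.1) ^ 2 + (x.2 - y.2) ^ 2 = 1) :
    JJ α β x y = 4 * β := by
  unfold JJ Jc
  have h1 : x - y ≠ 0 := by
    intro h0
    have h2 : x.1 - y.1 = 0 := by rw [← Prod.fst_sub, h0]; rfl
    have h3 : x.2 - y.2 = 0 := by rw [← Prod.snd_sub, h0]; rfl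
    rw [h2, h3] at h
    norm_num at h
  rw [if_neg h1]
  have h4 : len (x - y) = 1 := by
    unfold len
    rw [Prod.fst_sub, Prod.snd_sub]
    have : (((x.1 - y.1 : ℤ) : ℝ)) ^ 2 + (((x.2 - y.2 : ℤ) : ℝ)) ^ 2 = 1 := by exact_mod_cast h
    rw [this, Real.sqrt_one]
  rw [h4, Real.one_rpow, mul_one]

theorem QF_self (α β : ℝ) (S : Finset V) (φ : V → ℝ) :
    QF α β S φ φ = ∑ x ∈ S, ∑ y ∈ S, JJ α β x y / 2 * (φ x - φ y) ^ 2 := by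
  rw [QF_apply]
  refine Finset.sum_congr rfl fun x _ => Finset.sum_congr rfl fun y _ => ?_
  ring

theorem QF_nonneg {α β : ℝ} (hβ : 0 ≤ β) (S : Finset V) (φ : V → ℝ) : 0 ≤ QF α β S φ φ := by
  rw [QF_self]
  refine Finset.sum_nonneg fun x _ => Finset.sum_nonneg fun y _ => ?_
  have := JJ_nonneg (α := α) hβ x y
  positivity

theorem nnE_le_QF {α β : ℝ} (hβ : 0 ≤ β) (S : Finset V) (φ : V → ℝ) :
    4 * β * nnE S φ ≤ QF α β S φ φ := by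
  classical
  rw [QF_self]
  -- the four indicators
  have h1 : ∀ x ∈ S, ∀ y ∈ S,
      2 * β * ((if y = (x.1 + 1, x.2) then (φ x - φ y) ^ 2 else 0) +
        (if x = (y.1 + 1, y.2) then (φ x - φ y) ^ 2 else 0) +
        (if y = (x.1, x.2 + 1) then (φ x - φ y) ^ 2 else 0) +
        (if x = (y.1, y.2 + 1) then (φ x - φ y) ^ 2 else 0)) ≤
      JJ α β x y / 2 * (φ x - φ y) ^ 2 := by
    intro x _ y _
    have hsq := sq_nonneg (φ x - φ y)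
    by_cases c1 : y = (x.1 + 1, x.2)
    · have n2 : ¬ x = (y.1 + 1, y.2) := by intro h; rw [Prod.ext_iff] at h c1; dsimp only at h c1; omega
      have n3 : ¬ y = (x.1, x.2 + 1) := by intro h; rw [Prod.ext_iff] at h c1; dsimp only at h c1; omega
      have n4 : ¬ x = (y.1, y.2 + 1) := by intro h; rw [Prod.ext_iff] at h c1; dsimp only at h c1; omega
      rw [if_pos c1, if_neg n2, if_neg n3, if_neg n4, JJ_nn (by rw [c1]; ring)]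
      nlinarith
    by_cases c2 : x = (y.1 + 1, y.2)
    · have n3 : ¬ y = (x.1, x.2 + 1) := by intro h; rw [Prod.ext_iff] at h c2; dsimp only at h c2; omega
      have n4 : ¬ x = (y.1, y.2 + 1) := by intro h; rw [Prod.ext_iff] at h c2; dsimp only at h c2; omega
      rw [if_neg c1, if_pos c2, if_neg n3, if_neg n4, JJ_nn (by rw [c2]; ring)]
      nlinarith
    by_cases c3 : y = (x.1, x.2 + 1)
    · have n4 : ¬ x = (y.1, y.2 + 1) := by intro h; rw [Prod.ext_iff] at h c3; dsimp only at h c3; omega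
      rw [if_neg c1, if_neg c2, if_pos c3, if_neg n4, JJ_nn (by rw [c3]; ring)]
      nlinarith
    by_cases c4 : x = (y.1, y.2 + 1)
    · rw [if_neg c1, if_neg c2, if_neg c3, if_pos c4, JJ_nn (by rw [c4]; ring)]
      nlinarith
    rw [if_neg c1, if_neg c2, if_neg c3, if_neg c4]
    have := JJ_nonneg (α := α) hβ x y
    nlinarith
  refine le_trans (le_of_eq ?_) (Finset.sum_le_sum fun x hx => Finset.sum_le_sum fun y hy => h1 x hx y hy)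
  have e1 : ∑ x ∈ S, ∑ y ∈ S, (if y = (x.1 + 1, x.2) then (φ x - φ y) ^ 2 else 0) =
      ∑ x ∈ S, (if (x.1 + 1, x.2) ∈ S then (φ (x.1 + 1, x.2) - φ x) ^ 2 else 0) := by
    refine Finset.sum_congr rfl fun x _ => ?_
    rw [Finset.sum_ite_eq']
    split_ifs
    · ring
    · rfl
  have e2 : ∑ x ∈ S, ∑ y ∈ S, (if x = (y.1 + 1, y.2) then (φ x - φ y) ^ 2 else 0) =
      ∑ x ∈ S, (if (x.1 + 1, x.2) ∈ S then (φ (x.1 + 1, x.2) - φ x) ^ 2 else 0) := by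
    rw [Finset.sum_comm]
    refine Finset.sum_congr rfl fun x _ => ?_
    rw [Finset.sum_ite_eq']
  have e3 : ∑ x ∈ S, ∑ y ∈ S, (if y = (x.1, x.2 + 1) then (φ x - φ y) ^ 2 else 0) =
      ∑ x ∈ S, (if (x.1, x.2 + 1) ∈ S then (φ (x.1, x.2 + 1) - φ x) ^ 2 else 0) := by
    refine Finset.sum_congr rfl fun x _ => ?_
    rw [Finset.sum_ite_eq']
    split_ifs
    · ring
    · rfl
  have e4 : ∑ x ∈ S, ∑ y ∈ S, (if x = (y.1, y.2 + 1) then (φ x - φ y) ^ 2 else 0) =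
      ∑ x ∈ S, (if (x.1, x.2 + 1) ∈ S then (φ (x.1, x.2 + 1) - φ x) ^ 2 else 0) := by
    rw [Finset.sum_comm]
    refine Finset.sum_congr rfl fun x _ => ?_
    rw [Finset.sum_ite_eq']
  simp only [← Finset.mul_sum, Finset.sum_add_distrib]
  rw [e1, e2, e3, e4]
  unfold nnE
  rw [Finset.sum_add_distrib]
  ring

theorem MP_apply (α β : ℝ) (z₀ : P) (ρ M δ : ℝ) (n : ℕ) (φ χ : V → ℝ) :
    MP α β z₀ ρ M δ n φ χ = QF α β (SS z₀ ρ n) φ χ +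
      ∑ i ∈ pin z₀ ρ δ, M * δ ^ 2 * avg (blk z₀ ρ δ n i) φ * avg (blk z₀ ρ δ n i) χ := by
  simp only [MP, rk, LinearMap.add_apply, LinearMap.sum_apply,
    LinearMap.mk₂_apply]

theorem MP_self (α β : ℝ) (z₀ : P) (ρ M δ : ℝ) (n : ℕ) (φ : V → ℝ) :
    MP α β z₀ ρ M δ n φ φ = QF α β (SS z₀ ρ n) φ φ +
      M * δ ^ 2 * ∑ i ∈ pin z₀ ρ δ, (avg (blk z₀ ρ δ n i) φ) ^ 2 := by
  rw [MP_apply, Finset.mul_sum]
  congr 1
  refine Finset.sum_congr rfl fun i _ => ?_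
  ring

theorem QF_le_MP {α β : ℝ} (z₀ : P) (ρ : ℝ) {M : ℝ} (hM : 0 ≤ M) (δ : ℝ) (n : ℕ)
    (φ : V → ℝ) : QF α β (SS z₀ ρ n) φ φ ≤ MP α β z₀ ρ M δ n φ φ := by
  rw [MP_self]
  have : 0 ≤ M * δ ^ 2 * ∑ i ∈ pin z₀ ρ δ, (avg (blk z₀ ρ δ n i) φ) ^ 2 :=
    mul_nonneg (by positivity) (Finset.sum_nonneg fun _ _ => sq_nonneg _)
  linarith

theorem pins_le_MP {α β : ℝ} (hβ : 0 ≤ β) (z₀ : P) (ρ M δ : ℝ) (n : ℕ)
    (φ : V → ℝ) : M * δ ^ 2 * ∑ i ∈ pin z₀ ρ δ, (avg (blk z₀ ρ δ n i) φ) ^ 2 ≤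
      MP α β z₀ ρ M δ n φ φ := by
  rw [MP_self]
  have := QF_nonneg (α := α) hβ (SS z₀ ρ n) φ
  linarith

theorem nnE_le_MP {α β : ℝ} (hβ : 0 ≤ β) (z₀ : P) (ρ : ℝ) {M : ℝ} (hM : 0 ≤ M) (δ : ℝ) (n : ℕ)
    (φ : V → ℝ) : 4 * β * nnE (SS z₀ ρ n) φ ≤ MP α β z₀ ρ M δ n φ φ :=
  (nnE_le_QF hβ _ _).trans (QF_le_MP z₀ ρ hM δ n φ)

theorem MP_nonneg {α β : ℝ} (hβ : 0 ≤ β) (z₀ : P) (ρ : ℝ) {M : ℝ} (hM : 0 ≤ M) (δ : ℝ) (n : ℕ)
    (φ : V → ℝ) : 0 ≤ MP α β z₀ ρ M δ n φ φ :=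
  (QF_nonneg hβ _ _).trans (QF_le_MP z₀ ρ hM δ n φ)

theorem MP_symm (α β : ℝ) (z₀ : P) (ρ M δ : ℝ) (n : ℕ) (φ χ : V → ℝ) :
    MP α β z₀ ρ M δ n φ χ = MP α β z₀ ρ M δ n χ φ := by
  rw [MP_apply, MP_apply, QF_apply, QF_apply]
  refine congrArg₂ (· + ·) ?_ ?_
  · refine Finset.sum_congr rfl fun x _ => Finset.sum_congr rfl fun y _ => ?_
    ring
  · refine Finset.sum_congr rfl fun i _ => ?_
    ring

theorem MP_isForm {α β : ℝ} (hβ : 0 ≤ β) (z₀ : P) (ρ : ℝ) {M : ℝ} (hM : 0 ≤ M) (δ : ℝ) (n : ℕ) :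
    IsForm (MP α β z₀ ρ M δ n) :=
  ⟨fun f g => MP_symm α β z₀ ρ M δ n f g, fun f => MP_nonneg hβ z₀ ρ hM δ n f⟩

end Pool.Agent.LR.B5
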