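import Pool.Agent.LR.Defs

/-!
# LR-B5-Box: lattice rectangles, nearest neighbour energy, Poincare inequalities

Sites are pairs of integers, fields are total functions `ℤ × ℤ → ℝ`.
`rect a b c d = [a, b) x [c, d)`, `nnE S φ` = sum of the squares of the nearest neighbour differences
with both end points in `S`, `avg S φ` = average of `φ` over the finite set `S`.
-/

set_option autoImplicit false

namespace Pool.Agent.LR.B5

/-- The lattice rectangle `[a, b) x [c, d)`. -/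
noncomputable def rect (a b c d : ℤ) : Finset (ℤ × ℤ) := Finset.Ico a b ×ˢ Finset.Ico c d

/-- The lattice square with lower left corner `a` and `l` sites on each side. -/
noncomputable def box (a : ℤ × ℤ) (l : ℕ) : Finset (ℤ × ℤ) := rect a.1 (a.1 + l) a.2 (a.2 + l)

/-- Nearest neighbour energy inside `S`. -/
noncomputable def nnE (S : Finset (ℤ × ℤ)) (φ : ℤ × ℤ → ℝ) : ℝ := by
  classical
  exact ∑ x ∈ S, ((if (x.1 + 1, x.2) ∈ S then (φ (x.1 + 1, x.2) - φ x) ^ 2 else 0) +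
    (if (x.1, x.2 + 1) ∈ S then (φ (x.1, x.2 + 1) - φ x) ^ 2 else 0))

theorem avg_eq {W : Type*} [DecidableEq W] (S : Finset W) (φ : W → ℝ) :
    avg S φ = (∑ x ∈ S, φ x) / S.card := by
  simp only [avg, ev, LinearMap.smul_apply, LinearMap.coe_sum, Finset.sum_apply,
    LinearMap.proj_apply, smul_eq_mul]
  rw [inv_mul_eq_div]

theorem mem_rect {a b c d : ℤ} {x : ℤ × ℤ} :
    x ∈ rect a b c d ↔ (a ≤ x.1 ∧ x.1 < b) ∧ c ≤ x.2 ∧ x.2 < d := by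
  simp [rect, Finset.mem_product, Finset.mem_Ico]

theorem mem_box {a : ℤ × ℤ} {l : ℕ} {x : ℤ × ℤ} :
    x ∈ box a l ↔ (a.1 ≤ x.1 ∧ x.1 < a.1 + l) ∧ a.2 ≤ x.2 ∧ x.2 < a.2 + l := mem_rect

theorem rect_card (a b c d : ℤ) : (rect a b c d).card = (b - a).toNat * (d - c).toNat := by
  simp [rect]

theorem box_card (a : ℤ × ℤ) (l : ℕ) : (box a l).card = l * l := by
  simp [box, rect_card]

theorem nnE_nonneg (S : Finset (ℤ × ℤ)) (φ : ℤ × ℤ → ℝ) : 0 ≤ nnE S φ := by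
  classical
  unfold nnE
  refine Finset.sum_nonneg fun x _ => add_nonneg ?_ ?_ <;> split_ifs <;> positivity

theorem nnE_mono {S T : Finset (ℤ × ℤ)} (h : S ⊆ T) (φ : ℤ × ℤ → ℝ) : nnE S φ ≤ nnE T φ := by
  classical
  unfold nnE
  refine (Finset.sum_le_sum (g := fun x => ((if (x.1 + 1, x.2) ∈ T then
    (φ (x.1 + 1, x.2) - φ x) ^ 2 else 0) +
    (if (x.1, x.2 + 1) ∈ T then (φ (x.1, x.2 + 1) - φ x) ^ 2 else 0))) ?_).trans
    (Finset.sum_le_sum_of_subset_of_nonneg h ?_)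
  · intro x hx
    refine add_le_add ?_ ?_
    · by_cases h1 : (x.1 + 1, x.2) ∈ S
      · rw [if_pos h1, if_pos (h h1)]
      · rw [if_neg h1]; split_ifs <;> positivity
    · by_cases h1 : (x.1, x.2 + 1) ∈ S
      · rw [if_pos h1, if_pos (h h1)]
      · rw [if_neg h1]; split_ifs <;> positivity
  · intro x _ _
    refine add_nonneg ?_ ?_ <;> split_ifs <;> positivity

/-- Energy of a row. -/
noncomputable def rowE (a b : ℤ) (f : ℤ → ℝ) : ℝ := ∑ i ∈ Finset.Ico a (b - 1), (f (i + 1) - f i) ^ 2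

theorem rowE_nonneg (a b : ℤ) (f : ℤ → ℝ) : 0 ≤ rowE a b f :=
  Finset.sum_nonneg fun _ _ => sq_nonneg _

theorem sum_Ico_if (a b : ℤ) (g : ℤ → ℝ) :
    ∑ i ∈ Finset.Ico a b, (if i + 1 < b then g i else 0) = ∑ i ∈ Finset.Ico a (b - 1), g i := by
  rw [← Finset.sum_filter]
  refine Finset.sum_congr ?_ fun _ _ => rfl
  ext i
  simp only [Finset.mem_filter, Finset.mem_Ico]
  omega

theorem nnE_rect (a b c d : ℤ) (φ : ℤ × ℤ → ℝ) :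
    nnE (rect a b c d) φ = (∑ j ∈ Finset.Ico c d, rowE a b fun i => φ (i, j)) +
      ∑ i ∈ Finset.Ico a b, rowE c d fun j => φ (i, j) := by
  classical
  unfold nnE
  rw [Finset.sum_add_distrib]
  refine congrArg₂ (· + ·) ?_ ?_
  · unfold rect
    rw [Finset.sum_product_right]
    refine Finset.sum_congr rfl fun j hj => ?_
    unfold rowE
    rw [← sum_Ico_if]
    refine Finset.sum_congr rfl fun i hi => ?_
    rw [Finset.mem_Ico] at hi hj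
    by_cases h : i + 1 < b
    · rw [if_pos h, if_pos]
      simp only [Finset.mem_product, Finset.mem_Ico]; omega
    · rw [if_neg h, if_neg]
      simp only [Finset.mem_product, Finset.mem_Ico]; omega
  · unfold rect
    rw [Finset.sum_product]
    refine Finset.sum_congr rfl fun i hi => ?_
    unfold rowE
    rw [← sum_Ico_if]
    refine Finset.sum_congr rfl fun j hj => ?_
    rw [Finset.mem_Ico] at hi hj
    by_cases h : j + 1 < d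
    · rw [if_pos h, if_pos]
      simp only [Finset.mem_product, Finset.mem_Ico]; omega
    · rw [if_neg h, if_neg]
      simp only [Finset.mem_product, Finset.mem_Ico]; omega

theorem sum_Ico_diff (f : ℤ → ℝ) (i : ℤ) (n : ℕ) :
    f (i + n) - f i = ∑ k ∈ Finset.Ico i (i + n), (f (k + 1) - f k) := by
  induction n with
  | zero => simp
  | succ n ih =>
    have h : Finset.Ico i (i + ((n + 1 : ℕ) : ℤ)) = insert (i + n) (Finset.Ico i (i + n)) := by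
      ext k
      simp only [Finset.mem_insert, Finset.mem_Ico]
      push_cast
      omega
    rw [h, Finset.sum_insert (by simp), ← ih]
    push_cast
    rw [show i + ((n : ℤ) + 1) = i + n + 1 by ring]
    ring

theorem row_path {a b i j : ℤ} (hi : a ≤ i) (hij : i ≤ j) (hj : j < b) (f : ℤ → ℝ) :
    (f j - f i) ^ 2 ≤ ((b - a : ℤ) : ℝ) * rowE a b f := by
  obtain ⟨n, hn⟩ := Int.eq_ofNat_of_zero_le (sub_nonneg.2 hij)
  obtain rfl : j = i + (n : ℤ) := by omega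
  rw [sum_Ico_diff]
  have hcs : (∑ k ∈ Finset.Ico i (i + (n : ℤ)), (f (k + 1) - f k)) ^ 2 ≤
      ((Finset.Ico i (i + (n : ℤ))).card : ℝ) * ∑ k ∈ Finset.Ico i (i + (n : ℤ)),
        (f (k + 1) - f k) ^ 2 := sq_sum_le_card_mul_sum_sq
  refine hcs.trans ?_
  have hsub : Finset.Ico i (i + (n : ℤ)) ⊆ Finset.Ico a (b - 1) := by
    intro k hk
    rw [Finset.mem_Ico] at hk ⊢
    omega
  have hsum : ∑ k ∈ Finset.Ico i (i + (n : ℤ)), (f (k + 1) - f k) ^ 2 ≤ rowE a b f :=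
    Finset.sum_le_sum_of_subset_of_nonneg hsub fun _ _ _ => sq_nonneg _
  have hcard : ((Finset.Ico i (i + (n : ℤ))).card : ℝ) ≤ ((b - a : ℤ) : ℝ) := by
    rw [Int.card_Ico]
    have : ((i + (n : ℤ) - i).toNat : ℤ) ≤ b - a := by
      rw [Int.toNat_of_nonneg (by omega)]; omega
    exact_mod_cast this
  exact mul_le_mul hcard hsum (Finset.sum_nonneg fun _ _ => sq_nonneg _)
    (le_trans (Nat.cast_nonneg _) hcard)

theorem row_path' {a b i j : ℤ} (hi : a ≤ i ∧ i < b) (hj : a ≤ j ∧ j < b) (f : ℤ → ℝ) :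
    (f i - f j) ^ 2 ≤ ((b - a : ℤ) : ℝ) * rowE a b f := by
  rcases le_total i j with h | h
  · have := row_path hi.1 h hj.2 f
    rwa [← neg_sub, neg_sq]
  · exact row_path hj.1 h hi.2 f

/-- Energy of a column in the rectangle `rect a b c d`. -/
noncomputable def colE (c d : ℤ) (φ : ℤ × ℤ → ℝ) (i : ℤ) : ℝ := rowE c d fun j => φ (i, j)

/-- Energy of a row in the rectangle `rect a b c d`. -/
noncomputable def linE (a b : ℤ) (φ : ℤ × ℤ → ℝ) (j : ℤ) : ℝ := rowE a b fun i => φ (i, j)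

theorem colE_nonneg (c d : ℤ) (φ : ℤ × ℤ → ℝ) (i : ℤ) : 0 ≤ colE c d φ i := rowE_nonneg _ _ _

theorem linE_nonneg (a b : ℤ) (φ : ℤ × ℤ → ℝ) (j : ℤ) : 0 ≤ linE a b φ j := rowE_nonneg _ _ _

theorem nnE_rect' (a b c d : ℤ) (φ : ℤ × ℤ → ℝ) :
    nnE (rect a b c d) φ = (∑ j ∈ Finset.Ico c d, linE a b φ j) +
      ∑ i ∈ Finset.Ico a b, colE c d φ i := nnE_rect a b c d φ

theorem pair_le {a b c d : ℤ} {x y : ℤ × ℤ} (hx : x ∈ rect a b c d) (hy : y ∈ rect a b c d)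
    (φ : ℤ × ℤ → ℝ) :
    (φ x - φ y) ^ 2 ≤ 2 * ((d - c : ℤ) : ℝ) * colE c d φ x.1 +
      2 * ((b - a : ℤ) : ℝ) * linE a b φ y.2 := by
  rw [mem_rect] at hx hy
  have h1 := row_path' hx.2 hy.2 (fun j => φ (x.1, j))
  have h2 := row_path' hx.1 hy.1 (fun i => φ (i, y.2))
  have h3 : (φ x - φ y) ^ 2 ≤ 2 * (φ (x.1, x.2) - φ (x.1, y.2)) ^ 2 +
      2 * (φ (x.1, y.2) - φ (y.1, y.2)) ^ 2 := by
    nlinarith [sq_nonneg ((φ (x.1, x.2) - φ (x.1, y.2)) - (φ (x.1, y.2) - φ (y.1, y.2)))]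
  unfold colE linE
  nlinarith

theorem sum_colE {a b c d a₁ b₁ c₁ d₁ : ℤ} (h : rect a₁ b₁ c₁ d₁ ⊆ rect a b c d)
    (φ : ℤ × ℤ → ℝ) :
    ∑ x ∈ rect a₁ b₁ c₁ d₁, colE c d φ x.1 ≤ ((d₁ - c₁ : ℤ).toNat : ℝ) * nnE (rect a b c d) φ := by
  by_cases hne : (rect a₁ b₁ c₁ d₁).Nonempty
  swap
  · rw [Finset.not_nonempty_iff_eq_empty.1 hne, Finset.sum_empty]
    exact mul_nonneg (Nat.cast_nonneg _) (nnE_nonneg _ _)
  obtain ⟨y, hy⟩ := hne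
  rw [mem_rect] at hy
  have h1 : ∑ x ∈ rect a₁ b₁ c₁ d₁, colE c d φ x.1 =
      ((d₁ - c₁ : ℤ).toNat : ℝ) * ∑ i ∈ Finset.Ico a₁ b₁, colE c d φ i := by
    unfold rect
    rw [Finset.sum_product, Finset.mul_sum]
    refine Finset.sum_congr rfl fun i _ => ?_
    simp only [Finset.sum_const, nsmul_eq_mul, Int.card_Ico]
  rw [h1]
  refine mul_le_mul_of_nonneg_left ?_ (Nat.cast_nonneg _)
  rw [nnE_rect']
  have h2 : Finset.Ico a₁ b₁ ⊆ Finset.Ico a b := by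
    intro i hi
    have := @h (i, y.2) (by rw [mem_rect]; rw [Finset.mem_Ico] at hi; exact ⟨hi, hy.2⟩)
    rw [mem_rect] at this
    rw [Finset.mem_Ico]
    exact this.1
  have h3 := Finset.sum_le_sum_of_subset_of_nonneg h2 (f := fun i => colE c d φ i)
    fun _ _ _ => colE_nonneg _ _ _ _
  have h4 : 0 ≤ ∑ j ∈ Finset.Ico c d, linE a b φ j := Finset.sum_nonneg fun _ _ => linE_nonneg _ _ _ _
  linarith

theorem sum_linE {a b c d a₁ b₁ c₁ d₁ : ℤ} (h : rect a₁ b₁ c₁ d₁ ⊆ rect a b c d)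
    (φ : ℤ × ℤ → ℝ) :
    ∑ x ∈ rect a₁ b₁ c₁ d₁, linE a b φ x.2 ≤ ((b₁ - a₁ : ℤ).toNat : ℝ) * nnE (rect a b c d) φ := by
  by_cases hne : (rect a₁ b₁ c₁ d₁).Nonempty
  swap
  · rw [Finset.not_nonempty_iff_eq_empty.1 hne, Finset.sum_empty]
    exact mul_nonneg (Nat.cast_nonneg _) (nnE_nonneg _ _)
  obtain ⟨y, hy⟩ := hne
  rw [mem_rect] at hy
  have h1 : ∑ x ∈ rect a₁ b₁ c₁ d₁, linE a b φ x.2 =
      ((b₁ - a₁ : ℤ).toNat : ℝ) * ∑ j ∈ Finset.Ico c₁ d₁, linE a b φ j := by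
    unfold rect
    rw [Finset.sum_product_right, Finset.mul_sum]
    refine Finset.sum_congr rfl fun i _ => ?_
    simp only [Finset.sum_const, nsmul_eq_mul, Int.card_Ico]
  rw [h1]
  refine mul_le_mul_of_nonneg_left ?_ (Nat.cast_nonneg _)
  rw [nnE_rect']
  have h2 : Finset.Ico c₁ d₁ ⊆ Finset.Ico c d := by
    intro j hj
    have := @h (y.1, j) (by rw [mem_rect]; rw [Finset.mem_Ico] at hj; exact ⟨hy.1, hj⟩)
    rw [mem_rect] at this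
    rw [Finset.mem_Ico]
    exact this.2
  have h3 := Finset.sum_le_sum_of_subset_of_nonneg h2 (f := fun j => linE a b φ j)
    fun _ _ _ => linE_nonneg _ _ _ _
  have h4 : 0 ≤ ∑ i ∈ Finset.Ico a b, colE c d φ i := Finset.sum_nonneg fun _ _ => colE_nonneg _ _ _ _
  linarith

/-- Sum over pairs of sites of two sub-rectangles. -/
theorem pair_sum {a b c d a₁ b₁ c₁ d₁ a₂ b₂ c₂ d₂ : ℤ} (h₁ : rect a₁ b₁ c₁ d₁ ⊆ rect a b c d)
    (h₂ : rect a₂ b₂ c₂ d₂ ⊆ rect a b c d) (hab : a ≤ b) (hcd : c ≤ d) (φ : ℤ × ℤ → ℝ) :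
    ∑ x ∈ rect a₁ b₁ c₁ d₁, ∑ y ∈ rect a₂ b₂ c₂ d₂, (φ x - φ y) ^ 2 ≤
      (2 * ((d - c : ℤ) : ℝ) * (rect a₂ b₂ c₂ d₂).card * ((d₁ - c₁ : ℤ).toNat : ℝ) +
        2 * ((b - a : ℤ) : ℝ) * (rect a₁ b₁ c₁ d₁).card * ((b₂ - a₂ : ℤ).toNat : ℝ)) *
        nnE (rect a b c d) φ := by
  have h3 : ∑ x ∈ rect a₁ b₁ c₁ d₁, ∑ y ∈ rect a₂ b₂ c₂ d₂, (φ x - φ y) ^ 2 ≤
      ∑ x ∈ rect a₁ b₁ c₁ d₁, ∑ y ∈ rect a₂ b₂ c₂ d₂,
        (2 * ((d - c : ℤ) : ℝ) * colE c d φ x.1 + 2 * ((b - a : ℤ) : ℝ) * linE a b φ y.2) :=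
    Finset.sum_le_sum fun x hx => Finset.sum_le_sum fun y hy => pair_le (h₁ hx) (h₂ hy) φ
  refine h3.trans ?_
  have h4 : ∑ x ∈ rect a₁ b₁ c₁ d₁, ∑ y ∈ rect a₂ b₂ c₂ d₂,
        (2 * ((d - c : ℤ) : ℝ) * colE c d φ x.1 + 2 * ((b - a : ℤ) : ℝ) * linE a b φ y.2) =
      2 * ((d - c : ℤ) : ℝ) * (rect a₂ b₂ c₂ d₂).card * (∑ x ∈ rect a₁ b₁ c₁ d₁, colE c d φ x.1) +
      2 * ((b - a : ℤ) : ℝ) * (rect a₁ b₁ c₁ d₁).card *
        (∑ y ∈ rect a₂ b₂ c₂ d₂, linE a b φ y.2) := by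
    simp only [Finset.sum_add_distrib, Finset.sum_const, nsmul_eq_mul, ← Finset.mul_sum]
    ring
  rw [h4]
  have h5 := sum_colE h₁ φ
  have h6 := sum_linE h₂ φ
  have h7 : (0 : ℝ) ≤ ((d - c : ℤ) : ℝ) := by exact_mod_cast sub_nonneg.2 hcd
  have h8 : (0 : ℝ) ≤ ((b - a : ℤ) : ℝ) := by exact_mod_cast sub_nonneg.2 hab
  have h9 : 2 * ((d - c : ℤ) : ℝ) * (rect a₂ b₂ c₂ d₂).card *
      (∑ x ∈ rect a₁ b₁ c₁ d₁, colE c d φ x.1) ≤ 2 * ((d - c : ℤ) : ℝ) *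
      (rect a₂ b₂ c₂ d₂).card * (((d₁ - c₁ : ℤ).toNat : ℝ) * nnE (rect a b c d) φ) :=
    mul_le_mul_of_nonneg_left h5 (by positivity)
  have h10 : 2 * ((b - a : ℤ) : ℝ) * (rect a₁ b₁ c₁ d₁).card *
      (∑ y ∈ rect a₂ b₂ c₂ d₂, linE a b φ y.2) ≤ 2 * ((b - a : ℤ) : ℝ) *
      (rect a₁ b₁ c₁ d₁).card * (((b₂ - a₂ : ℤ).toNat : ℝ) * nnE (rect a b c d) φ) :=
    mul_le_mul_of_nonneg_left h6 (by positivity)
  nlinarith

/-- Averages against averages: Jensen. -/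
theorem avg_sub_sq_le {S T : Finset (ℤ × ℤ)} (hS : S.Nonempty) (hT : T.Nonempty)
    (φ : ℤ × ℤ → ℝ) :
    (avg S φ - avg T φ) ^ 2 ≤ (∑ x ∈ S, ∑ y ∈ T, (φ x - φ y) ^ 2) / (S.card * T.card) := by
  have hs : (0 : ℝ) < S.card := by exact_mod_cast hS.card_pos
  have ht : (0 : ℝ) < T.card := by exact_mod_cast hT.card_pos
  have h1 : avg S φ - avg T φ = (∑ p ∈ S ×ˢ T, (φ p.1 - φ p.2)) / (S.card * T.card) := by
    rw [Finset.sum_product]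
    simp only [Finset.sum_sub_distrib, Finset.sum_const, nsmul_eq_mul, ← Finset.mul_sum]
    rw [avg_eq, avg_eq]
    field_simp
  rw [h1, div_pow, div_le_div_iff₀ (by positivity) (by positivity)]
  have h2 : (∑ p ∈ S ×ˢ T, (φ p.1 - φ p.2)) ^ 2 ≤
      ((S ×ˢ T).card : ℝ) * ∑ p ∈ S ×ˢ T, (φ p.1 - φ p.2) ^ 2 := sq_sum_le_card_mul_sum_sq
  rw [Finset.card_product, Nat.cast_mul] at h2
  rw [Finset.sum_product (f := fun p : (ℤ × ℤ) × (ℤ × ℤ) => (φ p.1 - φ p.2) ^ 2)] at h2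
  calc (∑ p ∈ S ×ˢ T, (φ p.1 - φ p.2)) ^ 2 * ((S.card : ℝ) * T.card)
      ≤ ((S.card : ℝ) * T.card * ∑ x ∈ S, ∑ y ∈ T, (φ x - φ y) ^ 2) * ((S.card : ℝ) * T.card) :=
        mul_le_mul_of_nonneg_right h2 (by positivity)
    _ = (∑ x ∈ S, ∑ y ∈ T, (φ x - φ y) ^ 2) * ((S.card : ℝ) * T.card) ^ 2 := by ring

/-- Difference of the averages over two sub-rectangles. -/
theorem avg_sub_avg {a b c d a₁ b₁ c₁ d₁ a₂ b₂ c₂ d₂ : ℤ} (h₁ : rect a₁ b₁ c₁ d₁ ⊆ rect a b c d)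
    (h₂ : rect a₂ b₂ c₂ d₂ ⊆ rect a b c d) (hab₁ : a₁ < b₁) (hcd₁ : c₁ < d₁) (hab₂ : a₂ < b₂)
    (hcd₂ : c₂ < d₂) (φ : ℤ × ℤ → ℝ) :
    (avg (rect a₁ b₁ c₁ d₁) φ - avg (rect a₂ b₂ c₂ d₂) φ) ^ 2 ≤
      (2 * ((d - c : ℤ) : ℝ) / ((b₁ - a₁ : ℤ) : ℝ) + 2 * ((b - a : ℤ) : ℝ) / ((d₂ - c₂ : ℤ) : ℝ)) *
        nnE (rect a b c d) φ := by
  have hS : (rect a₁ b₁ c₁ d₁).Nonempty := ⟨(a₁, c₁), by rw [mem_rect]; simp; omega⟩
  have hT : (rect a₂ b₂ c₂ d₂).Nonempty := ⟨(a₂, c₂), by rw [mem_rect]; simp; omega⟩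
  have hR := h₁ hS.choose_spec
  rw [mem_rect] at hR
  refine (avg_sub_sq_le hS hT φ).trans ?_
  have hs : (0 : ℝ) < (rect a₁ b₁ c₁ d₁).card := by exact_mod_cast hS.card_pos
  have ht : (0 : ℝ) < (rect a₂ b₂ c₂ d₂).card := by exact_mod_cast hT.card_pos
  rw [div_le_iff₀ (by positivity)]
  refine (pair_sum h₁ h₂ (by omega) (by omega) φ).trans (le_of_eq ?_)
  rw [rect_card, rect_card]
  have e1 : (((b₁ - a₁).toNat : ℕ) : ℝ) = ((b₁ - a₁ : ℤ) : ℝ) := by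
    exact_mod_cast Int.toNat_of_nonneg (by omega)
  have e2 : (((d₁ - c₁).toNat : ℕ) : ℝ) = ((d₁ - c₁ : ℤ) : ℝ) := by
    exact_mod_cast Int.toNat_of_nonneg (by omega)
  have e3 : (((b₂ - a₂).toNat : ℕ) : ℝ) = ((b₂ - a₂ : ℤ) : ℝ) := by
    exact_mod_cast Int.toNat_of_nonneg (by omega)
  have e4 : (((d₂ - c₂).toNat : ℕ) : ℝ) = ((d₂ - c₂ : ℤ) : ℝ) := by
    exact_mod_cast Int.toNat_of_nonneg (by omega)
  push_cast [Nat.cast_mul]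
  rw [e1, e2, e3, e4]
  have p1 : (0 : ℝ) < ((b₁ - a₁ : ℤ) : ℝ) := by exact_mod_cast sub_pos.2 hab₁
  have p4 : (0 : ℝ) < ((d₂ - c₂ : ℤ) : ℝ) := by exact_mod_cast sub_pos.2 hcd₂
  push_cast at p1 p4 ⊢
  field_simp

/-- Poincare inequality for a sub-rectangle against the average over another one. -/
theorem sum_sub_avg {a b c d a₁ b₁ c₁ d₁ a₂ b₂ c₂ d₂ : ℤ} (h₁ : rect a₁ b₁ c₁ d₁ ⊆ rect a b c d)
    (h₂ : rect a₂ b₂ c₂ d₂ ⊆ rect a b c d) (hab₂ : a₂ < b₂)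
    (hcd₂ : c₂ < d₂) (φ : ℤ × ℤ → ℝ) :
    ∑ x ∈ rect a₁ b₁ c₁ d₁, (φ x - avg (rect a₂ b₂ c₂ d₂) φ) ^ 2 ≤
      (2 * ((d - c : ℤ) : ℝ) * ((d₁ - c₁ : ℤ).toNat : ℝ) +
        2 * ((b - a : ℤ) : ℝ) * (rect a₁ b₁ c₁ d₁).card / ((d₂ - c₂ : ℤ) : ℝ)) *
        nnE (rect a b c d) φ := by
  have hT : (rect a₂ b₂ c₂ d₂).Nonempty := ⟨(a₂, c₂), by rw [mem_rect]; simp; omega⟩
  have hR := h₂ hT.choose_spec
  rw [mem_rect] at hR
  have ht : (0 : ℝ) < (rect a₂ b₂ c₂ d₂).card := by exact_mod_cast hT.card_pos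
  have h3 : ∀ x, (φ x - avg (rect a₂ b₂ c₂ d₂) φ) ^ 2 ≤
      (∑ y ∈ rect a₂ b₂ c₂ d₂, (φ x - φ y) ^ 2) / (rect a₂ b₂ c₂ d₂).card := by
    intro x
    have := avg_sub_sq_le (S := {x}) (Finset.singleton_nonempty x) hT φ
    simpa [avg_eq] using this
  refine (Finset.sum_le_sum fun x _ => h3 x).trans ?_
  rw [← Finset.sum_div, div_le_iff₀ ht]
  refine (pair_sum h₁ h₂ (by omega) (by omega) φ).trans (le_of_eq ?_)
  have e3 : (((b₂ - a₂).toNat : ℕ) : ℝ) = ((b₂ - a₂ : ℤ) : ℝ) := by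
    exact_mod_cast Int.toNat_of_nonneg (by omega)
  have e4 : (((d₂ - c₂).toNat : ℕ) : ℝ) = ((d₂ - c₂ : ℤ) : ℝ) := by
    exact_mod_cast Int.toNat_of_nonneg (by omega)
  have e5 : ((rect a₂ b₂ c₂ d₂).card : ℝ) = ((b₂ - a₂ : ℤ) : ℝ) * ((d₂ - c₂ : ℤ) : ℝ) := by
    rw [rect_card, Nat.cast_mul, e3, e4]
  rw [e3, e5]
  have p4 : (0 : ℝ) < ((d₂ - c₂ : ℤ) : ℝ) := by exact_mod_cast sub_pos.2 hcd₂
  field_simp

end Pool.Agent.LR.B5
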