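import Pool.Agent.LR.B5.Box

/-!
# LR-B5-BoxBox: averages of nested boxes (dyadic chaining)
-/

set_option autoImplicit false

namespace Pool.Agent.LR.B5

theorem box_mono_nnE {b a : ℤ × ℤ} {k l : ℕ} (h : box b k ⊆ box a l) (φ : ℤ × ℤ → ℝ) :
    nnE (box b k) φ ≤ nnE (box a l) φ := nnE_mono h φ

theorem box_sub_iff {b a : ℤ × ℤ} {k l : ℕ} (hk : 1 ≤ k) :
    box b k ⊆ box a l ↔ (a.1 ≤ b.1 ∧ b.1 + k ≤ a.1 + l) ∧ (a.2 ≤ b.2 ∧ b.2 + k ≤ a.2 + l) := by
  constructor
  · intro h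
    have h1 := @h b (by rw [mem_box]; omega)
    have h2 := @h (b.1 + k - 1, b.2 + k - 1) (by rw [mem_box]; dsimp only; omega)
    rw [mem_box] at h1 h2
    dsimp only at h2
    omega
  · intro h x hx
    rw [mem_box] at hx ⊢
    omega

/-- One step. -/
theorem box_step {b a : ℤ × ℤ} {k l : ℕ} (hk : 1 ≤ k) (h : box b k ⊆ box a l) (hl : l ≤ 2 * k)
    (φ : ℤ × ℤ → ℝ) :
    |avg (box b k) φ - avg (box a l) φ| ≤ 3 * Real.sqrt (nnE (box a l) φ) := by
  have hb := (box_sub_iff hk).1 h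
  have hlk : k ≤ l := by omega
  have h0 := avg_sub_avg (a := a.1) (b := a.1 + l) (c := a.2) (d := a.2 + l)
    (a₁ := b.1) (b₁ := b.1 + k) (c₁ := b.2) (d₁ := b.2 + k)
    (a₂ := a.1) (b₂ := a.1 + l) (c₂ := a.2) (d₂ := a.2 + l) h (Finset.Subset.refl _)
    (by omega) (by omega) (by omega) (by omega) φ
  have e1 : ((a.2 + l - a.2 : ℤ) : ℝ) = l := by push_cast; ring
  have e2 : ((b.1 + k - b.1 : ℤ) : ℝ) = k := by push_cast; ring
  have e3 : ((a.1 + l - a.1 : ℤ) : ℝ) = l := by push_cast; ring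
  rw [e1, e2, e3] at h0
  have hk' : (1 : ℝ) ≤ k := by exact_mod_cast hk
  have hlk' : (k : ℝ) ≤ l := by exact_mod_cast hlk
  have hl' : (l : ℝ) ≤ 2 * k := by exact_mod_cast hl
  have h1 : 2 * (l : ℝ) / k + 2 * l / l ≤ 6 := by
    have : 2 * (l : ℝ) / k ≤ 4 := by
      rw [div_le_iff₀ (by linarith)]; linarith
    have : 2 * (l : ℝ) / l ≤ 2 := by
      rw [div_le_iff₀ (by linarith)]
    linarith
  have h2 : (avg (box b k) φ - avg (box a l) φ) ^ 2 ≤ 9 * nnE (box a l) φ := by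
    refine h0.trans ?_
    have := nnE_nonneg (box a l) φ
    exact mul_le_mul_of_nonneg_right (by linarith) this
  have h3 := Real.sqrt_le_sqrt h2
  rw [Real.sqrt_sq_eq_abs, Real.sqrt_mul (by norm_num)] at h3
  rwa [show Real.sqrt 9 = 3 by rw [show (9 : ℝ) = 3 ^ 2 by norm_num]; exact Real.sqrt_sq (by norm_num)] at h3

theorem box_box (m : ℕ) : ∀ (b a : ℤ × ℤ) (k l : ℕ), 1 ≤ k → box b k ⊆ box a l → l ≤ 2 ^ m * k →
    ∀ φ : ℤ × ℤ → ℝ,
    |avg (box b k) φ - avg (box a l) φ| ≤ 3 * m * Real.sqrt (nnE (box a l) φ) := by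
  induction m with
  | zero =>
    intro b a k l hk h hl φ
    have hb := (box_sub_iff hk).1 h
    have : l = k := by omega
    subst this
    have : b = a := by ext <;> omega
    subst this
    simp
  | succ m ih =>
    intro b a k l hk h hl φ
    have hb := (box_sub_iff hk).1 h
    by_cases h2 : l ≤ 2 * k
    · refine (box_step hk h h2 φ).trans ?_
      have := Real.sqrt_nonneg (nnE (box a l) φ)
      push_cast
      have hm : (0 : ℝ) ≤ m := Nat.cast_nonneg m
      nlinarith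
    · push Not at h2
      -- intermediate box of side `(l + 1) / 2`
      set l' : ℕ := (l + 1) / 2 with hl'
      have hkl : k ≤ l' := by omega
      have hll : l ≤ 2 * l' := by omega
      have hl2 : l' ≤ 2 ^ m * k := by
        rw [pow_succ] at hl
        have : l ≤ 2 * (2 ^ m * k) := by linarith
        omega
      obtain ⟨c1, hc1, hc1', hc1'', hc1'''⟩ : ∃ c : ℤ, a.1 ≤ c ∧ c + l' ≤ a.1 + l ∧ c ≤ b.1 ∧
          b.1 + k ≤ c + l' := by
        by_cases hh : b.1 + k ≤ a.1 + l'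
        · exact ⟨a.1, by omega, by omega, by omega, by omega⟩
        · exact ⟨b.1 + k - l', by omega, by omega, by omega, by omega⟩
      obtain ⟨c2, hc2, hc2', hc2'', hc2'''⟩ : ∃ c : ℤ, a.2 ≤ c ∧ c + l' ≤ a.2 + l ∧ c ≤ b.2 ∧
          b.2 + k ≤ c + l' := by
        by_cases hh : b.2 + k ≤ a.2 + l'
        · exact ⟨a.2, by omega, by omega, by omega, by omega⟩
        · exact ⟨b.2 + k - l', by omega, by omega, by omega, by omega⟩
      have s1 : box b k ⊆ box (c1, c2) l' := (box_sub_iff hk).2 ⟨⟨hc1'', hc1'''⟩, ⟨hc2'', hc2'''⟩⟩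
      have s2 : box (c1, c2) l' ⊆ box a l := (box_sub_iff (by omega)).2
        ⟨⟨hc1, hc1'⟩, ⟨hc2, hc2'⟩⟩
      have i1 := ih b (c1, c2) k l' hk s1 hl2 φ
      have i2 := box_step (by omega) s2 hll φ
      have i3 : Real.sqrt (nnE (box (c1, c2) l') φ) ≤ Real.sqrt (nnE (box a l) φ) :=
        Real.sqrt_le_sqrt (nnE_mono s2 φ)
      have i4 : |avg (box b k) φ - avg (box a l) φ| ≤ |avg (box b k) φ - avg (box (c1, c2) l') φ| +
          |avg (box (c1, c2) l') φ - avg (box a l) φ| := by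
        have := abs_add_le (avg (box b k) φ - avg (box (c1, c2) l') φ)
          (avg (box (c1, c2) l') φ - avg (box a l) φ)
        rwa [sub_add_sub_cancel] at this
      have i5 : 3 * (m : ℝ) * Real.sqrt (nnE (box (c1, c2) l') φ) ≤
          3 * (m : ℝ) * Real.sqrt (nnE (box a l) φ) :=
        mul_le_mul_of_nonneg_left i3 (by positivity)
      push_cast
      linarith

theorem avg_single (x : ℤ × ℤ) (φ : ℤ × ℤ → ℝ) : avg (box x 1) φ = φ x := by
  have : box x 1 = {x} := by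
    ext y
    rw [mem_box, Finset.mem_singleton]
    constructor
    · intro h
      ext <;> omega
    · rintro rfl
      omega
  rw [this, avg_eq]
  simp

theorem pt_box {x a : ℤ × ℤ} {l : ℕ} (hx : x ∈ box a l) (φ : ℤ × ℤ → ℝ) :
    |φ x - avg (box a l) φ| ≤ 3 * Nat.clog 2 l * Real.sqrt (nnE (box a l) φ) := by
  have h := box_box (Nat.clog 2 l) x a 1 l le_rfl ?_ ?_ φ
  · rwa [avg_single] at h
  · rw [box_sub_iff le_rfl]
    rw [mem_box] at hx
    push_cast
    omega
  · rw [mul_one]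
    exact Nat.le_pow_clog (by norm_num) l

end Pool.Agent.LR.B5
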