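import Pool.Agent.LR.B5.NN

/-!
# LR-B5-Cells: geometry of the lattice boxes, cells and pinned blocks
-/

set_option autoImplicit false

namespace Pool.Agent.LR.B5

/-! ## Euclidean length -/

theorem lenP_nonneg (z : P) : 0 ≤ lenP z := Real.sqrt_nonneg _

theorem lenP_sq (z : P) : lenP z ^ 2 = z.1 ^ 2 + z.2 ^ 2 := Real.sq_sqrt (by positivity)

theorem lenP_eq_norm (z : P) : lenP z = ‖(⟨z.1, z.2⟩ : ℂ)‖ := by
  rw [lenP, Complex.norm_def, Complex.normSq_mk]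
  congr 1
  ring

theorem lenP_add_le (z w : P) : lenP (z + w) ≤ lenP z + lenP w := by
  rw [lenP_eq_norm, lenP_eq_norm, lenP_eq_norm]
  exact norm_add_le (⟨z.1, z.2⟩ : ℂ) ⟨w.1, w.2⟩

theorem lenP_neg (z : P) : lenP (-z) = lenP z := by
  unfold lenP
  simp

theorem lenP_sub_le (z w : P) : lenP (z - w) ≤ lenP z + lenP w := by
  rw [sub_eq_add_neg, ← lenP_neg w]
  exact lenP_add_le _ _

theorem lenP_le_add_sub (z w : P) : lenP z ≤ lenP w + lenP (z - w) := by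
  have := lenP_add_le w (z - w)
  rwa [add_sub_cancel] at this

theorem lenP_le_of_abs {z : P} {s : ℝ} (h1 : |z.1| ≤ s) (h2 : |z.2| ≤ s) :
    lenP z ≤ 3 / 2 * s := by
  have hs : 0 ≤ s := (abs_nonneg _).trans h1
  unfold lenP
  refine Real.sqrt_le_iff.2 ⟨by positivity, ?_⟩
  have := sq_le_sq' (abs_le.1 h1).1 (abs_le.1 h1).2
  have := sq_le_sq' (abs_le.1 h2).1 (abs_le.1 h2).2
  nlinarith

theorem abs_fst_le_lenP (z : P) : |z.1| ≤ lenP z := by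
  unfold lenP
  rw [← Real.sqrt_sq_eq_abs]
  exact Real.sqrt_le_sqrt (by nlinarith [sq_nonneg z.2])

theorem abs_snd_le_lenP (z : P) : |z.2| ≤ lenP z := by
  unfold lenP
  rw [← Real.sqrt_sq_eq_abs]
  exact Real.sqrt_le_sqrt (by nlinarith [sq_nonneg z.1])

/-! ## Lattice boxes -/

theorem bx_eq_rect (a b c d : ℝ) (n : ℕ) :
    bx a b c d n = rect ⌈n * a⌉ (⌊n * b⌋ + 1) ⌈n * c⌉ (⌊n * d⌋ + 1) := by
  ext x
  rw [mem_rect, bx, Finset.mem_product, Finset.mem_Icc, Finset.mem_Icc]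
  omega

theorem mem_bx {a b c d : ℝ} {n : ℕ} (hn : 0 < n) {x : V} :
    x ∈ bx a b c d n ↔ (a ≤ (sc n x).1 ∧ (sc n x).1 ≤ b) ∧ c ≤ (sc n x).2 ∧ (sc n x).2 ≤ d := by
  have hn' : (0 : ℝ) < n := by exact_mod_cast hn
  rw [bx, Finset.mem_product, Finset.mem_Icc, Finset.mem_Icc, Int.ceil_le, Int.le_floor,
    Int.ceil_le, Int.le_floor]
  unfold sc
  dsimp only
  rw [le_div_iff₀ hn', div_le_iff₀ hn', le_div_iff₀ hn', div_le_iff₀ hn']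
  constructor
  · rintro ⟨⟨h1, h2⟩, h3, h4⟩
    exact ⟨⟨by linarith, by linarith⟩, by linarith, by linarith⟩
  · rintro ⟨⟨h1, h2⟩, h3, h4⟩
    exact ⟨⟨by linarith, by linarith⟩, by linarith, by linarith⟩

theorem side_lb (a b : ℝ) (n : ℕ) : (n : ℝ) * (b - a) - 1 < ((⌊n * b⌋ + 1 - ⌈n * a⌉ : ℤ) : ℝ) := by
  have h1 := Int.lt_floor_add_one ((n : ℝ) * b)
  have h2 := Int.ceil_lt_add_one ((n : ℝ) * a)
  push_cast
  linarith

theorem side_ub (a b : ℝ) (n : ℕ) : ((⌊n * b⌋ + 1 - ⌈n * a⌉ : ℤ) : ℝ) ≤ (n : ℝ) * (b - a) + 1 := by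
  have h1 := Int.floor_le ((n : ℝ) * b)
  have h2 := Int.le_ceil ((n : ℝ) * a)
  push_cast
  linarith

/-! ## Cells -/

/-- First integer of the cell interval. -/
noncomputable def lo (z δ : ℝ) (n : ℕ) (i : ℤ) : ℤ := ⌈(n : ℝ) * (z + i * δ)⌉

theorem cel1 {z δ : ℝ} (hδ : 0 < δ) {n : ℕ} (hn : 0 < n) (x i : ℤ) :
    ⌊((x : ℝ) / n - z) / δ⌋ = i ↔ lo z δ n i ≤ x ∧ x < lo z δ n (i + 1) := by
  have hn' : (0 : ℝ) < n := by exact_mod_cast hn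
  rw [Int.floor_eq_iff, lo, lo, Int.ceil_le, Int.lt_ceil, le_div_iff₀ hδ, div_lt_iff₀ hδ]
  push_cast
  have e1 : (i : ℝ) * δ ≤ (x : ℝ) / n - z ↔ (n : ℝ) * (z + i * δ) ≤ x := by
    rw [le_sub_iff_add_le, le_div_iff₀ hn']
    constructor <;> intro h <;> linarith
  have e2 : (x : ℝ) / n - z < ((i : ℝ) + 1) * δ ↔ (x : ℝ) < (n : ℝ) * (z + (i + 1) * δ) := by
    rw [sub_lt_iff_lt_add, div_lt_iff₀ hn']
    constructor <;> intro h <;> linarith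
  rw [e1, e2]

theorem cel_eq_iff {z₀ : P} {δ : ℝ} (hδ : 0 < δ) {n : ℕ} (hn : 0 < n) (x i : V) :
    cel z₀ δ n x = i ↔ (lo z₀.1 δ n i.1 ≤ x.1 ∧ x.1 < lo z₀.1 δ n (i.1 + 1)) ∧
      lo z₀.2 δ n i.2 ≤ x.2 ∧ x.2 < lo z₀.2 δ n (i.2 + 1) := by
  unfold cel sc
  rw [Prod.ext_iff]
  dsimp only
  rw [cel1 hδ hn, cel1 hδ hn]

theorem lo_side_lb (z δ : ℝ) (n : ℕ) (i : ℤ) :
    (n : ℝ) * δ - 1 < ((lo z δ n (i + 1) - lo z δ n i : ℤ) : ℝ) := by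
  unfold lo
  have h1 := Int.le_ceil ((n : ℝ) * (z + ((i + 1 : ℤ) : ℝ) * δ))
  have h2 := Int.ceil_lt_add_one ((n : ℝ) * (z + (i : ℝ) * δ))
  push_cast at h1 ⊢
  linarith

theorem lo_side_ub (z δ : ℝ) (n : ℕ) (i : ℤ) :
    ((lo z δ n (i + 1) - lo z δ n i : ℤ) : ℝ) < (n : ℝ) * δ + 1 := by
  unfold lo
  have h1 := Int.ceil_lt_add_one ((n : ℝ) * (z + ((i + 1 : ℤ) : ℝ) * δ))
  have h2 := Int.le_ceil ((n : ℝ) * (z + (i : ℝ) * δ))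
  push_cast at h1 ⊢
  linarith

theorem sc_mem_cell {z₀ : P} {δ : ℝ} (hδ : 0 < δ) (n : ℕ) (x : V) :
    sc n x ∈ cellP z₀ δ (cel z₀ δ n x) := by
  unfold cellP rct cel
  rw [Set.mem_prod, Set.mem_Icc, Set.mem_Icc]
  dsimp only
  have h1 := Int.floor_le (((sc n x).1 - z₀.1) / δ)
  have h2 := Int.lt_floor_add_one (((sc n x).1 - z₀.1) / δ)
  have h3 := Int.floor_le (((sc n x).2 - z₀.2) / δ)
  have h4 := Int.lt_floor_add_one (((sc n x).2 - z₀.2) / δ)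
  rw [le_div_iff₀ hδ] at h1 h3
  rw [div_lt_iff₀ hδ] at h2 h4
  refine ⟨⟨?_, ?_⟩, ?_, ?_⟩ <;> linarith

/-- Two points of a cell are at distance at most `3δ/2`. -/
theorem cell_diam {z₀ : P} {δ : ℝ} {i : V} {z w : P} (hz : z ∈ cellP z₀ δ i)
    (hw : w ∈ cellP z₀ δ i) : lenP (z - w) ≤ 3 / 2 * δ := by
  unfold cellP rct at hz hw
  rw [Set.mem_prod, Set.mem_Icc, Set.mem_Icc] at hz hw
  refine lenP_le_of_abs ?_ ?_
  · rw [Prod.fst_sub, abs_le]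
    constructor <;> linarith [hz.1.1, hz.1.2, hw.1.1, hw.1.2]
  · rw [Prod.snd_sub, abs_le]
    constructor <;> linarith [hz.2.1, hz.2.2, hw.2.1, hw.2.2]

theorem mem_pin_iff {z₀ : P} {ρ δ : ℝ} (hρ : 0 < ρ) (hδ : 0 < δ) {i : V} :
    i ∈ pin z₀ ρ δ ↔ cellP z₀ δ i ⊆ shell z₀ ρ 1 ∨ cellP z₀ δ i ⊆ shell z₀ ρ 3 ∨
      cellP z₀ δ i ⊆ shell z₀ ρ 5 := by
  classical
  unfold pin
  rw [Finset.mem_filter, and_iff_right_iff_imp]
  intro h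
  set p : P := (z₀.1 + i.1 * δ, z₀.2 + i.2 * δ) with hp
  have hmem : p ∈ cellP z₀ δ i := by
    unfold cellP rct
    rw [Set.mem_prod, Set.mem_Icc, Set.mem_Icc]
    refine ⟨⟨?_, ?_⟩, ?_, ?_⟩ <;> simp only [hp] <;> nlinarith
  have h6 : lenP (p - z₀) ≤ 6 * ρ := by
    rcases h with h | h | h
    · have := (h hmem).2
      push_cast at this
      linarith
    · have := (h hmem).2
      push_cast at this
      linarith
    · have := (h hmem).2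
      push_cast at this
      linarith
  have h1 := (abs_fst_le_lenP (p - z₀)).trans h6
  have h2 := (abs_snd_le_lenP (p - z₀)).trans h6
  simp only [hp, Prod.fst_sub, Prod.snd_sub, add_sub_cancel_left] at h1 h2
  have key : ∀ j : ℤ, |(j : ℝ) * δ| ≤ 6 * ρ → j ∈ Finset.Icc (-⌈13 * ρ / δ⌉) ⌈13 * ρ / δ⌉ := by
    intro j hj
    have h3 : |(j : ℝ)| ≤ 13 * ρ / δ := by
      rw [abs_mul, abs_of_pos hδ] at hj
      rw [le_div_iff₀ hδ]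
      linarith
    have h4 : |(j : ℝ)| ≤ (⌈13 * ρ / δ⌉ : ℤ) := h3.trans (Int.le_ceil _)
    have h5 : |j| ≤ ⌈13 * ρ / δ⌉ := by exact_mod_cast h4
    rw [Finset.mem_Icc]
    exact abs_le.1 h5
  rw [Finset.mem_product]
  exact ⟨key _ h1, key _ h2⟩

theorem mem_shell {z₀ : P} {ρ : ℝ} {a : ℕ} {z : P} :
    z ∈ shell z₀ ρ a ↔ a * ρ ≤ lenP (z - z₀) ∧ lenP (z - z₀) ≤ (a + 1) * ρ := Iff.rfl

theorem shell_of_pin {z₀ : P} {ρ δ : ℝ} (hρ : 0 < ρ) (hδ : 0 < δ) {i : V} (hi : i ∈ pin z₀ ρ δ)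
    {z : P} (hz : z ∈ cellP z₀ δ i) : ρ ≤ lenP (z - z₀) ∧ lenP (z - z₀) ≤ 6 * ρ := by
  rcases (mem_pin_iff hρ hδ).1 hi with h | h | h
  · have := mem_shell.1 (h hz)
    push_cast at this
    constructor <;> linarith [this.1, this.2]
  · have := mem_shell.1 (h hz)
    push_cast at this
    constructor <;> linarith [this.1, this.2]
  · have := mem_shell.1 (h hz)
    push_cast at this
    constructor <;> linarith [this.1, this.2]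

theorem mem_SS_of_len {z₀ : P} {ρ : ℝ} {n : ℕ} (hn : 0 < n) {x : V}
    (h : lenP (sc n x - z₀) ≤ 13 * ρ) : x ∈ SS z₀ ρ n := by
  unfold SS
  rw [mem_bx hn]
  have h1 := abs_le.1 ((abs_fst_le_lenP (sc n x - z₀)).trans h)
  have h2 := abs_le.1 ((abs_snd_le_lenP (sc n x - z₀)).trans h)
  rw [Prod.fst_sub] at h1
  rw [Prod.snd_sub] at h2
  refine ⟨⟨?_, ?_⟩, ?_, ?_⟩ <;> linarith

theorem blk_eq {z₀ : P} {ρ δ : ℝ} (hρ : 0 < ρ) (hδ : 0 < δ) {n : ℕ} (hn : 0 < n) {i : V}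
    (hi : i ∈ pin z₀ ρ δ) :
    blk z₀ ρ δ n i = rect (lo z₀.1 δ n i.1) (lo z₀.1 δ n (i.1 + 1)) (lo z₀.2 δ n i.2)
      (lo z₀.2 δ n (i.2 + 1)) := by
  ext x
  unfold blk
  rw [Finset.mem_filter, mem_rect, ← cel_eq_iff hδ hn, and_iff_right_iff_imp]
  intro h
  refine mem_SS_of_len hn ?_
  have h1 := sc_mem_cell (z₀ := z₀) hδ n x
  rw [h] at h1
  linarith [(shell_of_pin hρ hδ hi h1).2]

theorem blk_sub (z₀ : P) (ρ δ : ℝ) (n : ℕ) (i : V) : blk z₀ ρ δ n i ⊆ SS z₀ ρ n :=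
  Finset.filter_subset _ _

theorem blk_disj (z₀ : P) (ρ δ : ℝ) (n : ℕ) {i j : V} (h : i ≠ j) :
    Disjoint (blk z₀ ρ δ n i) (blk z₀ ρ δ n j) := by
  rw [Finset.disjoint_left]
  intro x hx hx'
  unfold blk at hx hx'
  rw [Finset.mem_filter] at hx hx'
  exact h (hx.2.symm.trans hx'.2)

/-- Sites well inside a pinned shell are in pinned blocks. -/
theorem deep {z₀ : P} {ρ δ : ℝ} (hρ : 0 < ρ) (hδ : 0 < δ) {n : ℕ} (hn : 0 < n) {x : V} {a : ℕ}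
    (ha : a = 1 ∨ a = 3 ∨ a = 5) (h1 : a * ρ + 2 * δ ≤ lenP (sc n x - z₀))
    (h2 : lenP (sc n x - z₀) ≤ (a + 1) * ρ - 2 * δ) :
    cel z₀ δ n x ∈ pin z₀ ρ δ ∧ x ∈ blk z₀ ρ δ n (cel z₀ δ n x) := by
  have hx := sc_mem_cell (z₀ := z₀) hδ n x
  have hsub : cellP z₀ δ (cel z₀ δ n x) ⊆ shell z₀ ρ a := by
    intro z hz
    have h3 := cell_diam hx hz
    have h4 := lenP_le_add_sub (sc n x - z₀) (z - z₀)
    have h5 := lenP_le_add_sub (z - z₀) (sc n x - z₀)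
    rw [sub_sub_sub_cancel_right] at h4 h5
    have h6 : lenP (z - sc n x) = lenP (sc n x - z) := by rw [← lenP_neg, neg_sub]
    show a * ρ ≤ lenP (z - z₀) ∧ lenP (z - z₀) ≤ (a + 1) * ρ
    constructor <;> linarith
  refine ⟨?_, ?_⟩
  · rw [mem_pin_iff hρ hδ]
    rcases ha with rfl | rfl | rfl
    · exact Or.inl hsub
    · exact Or.inr (Or.inl hsub)
    · exact Or.inr (Or.inr hsub)
  · unfold blk
    rw [Finset.mem_filter]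
    refine ⟨mem_SS_of_len hn ?_, rfl⟩
    have : (a : ℝ) ≤ 5 := by
      rcases ha with rfl | rfl | rfl <;> norm_num
    nlinarith

/-! ## 6.2 (a) -/

/-- One block. -/
theorem blk_sq {z₀ : P} {ρ δ : ℝ} (hρ : 0 < ρ) (hδ : 0 < δ) {n : ℕ} (hn : 0 < n)
    (hnδ : 2 ≤ (n : ℝ) * δ) {i : V} (hi : i ∈ pin z₀ ρ δ) (φ : V → ℝ) :
    ∑ x ∈ blk z₀ ρ δ n i, φ x ^ 2 ≤ 18 * ((n : ℝ) * δ) ^ 2 * nnE (blk z₀ ρ δ n i) φ +
      9 / 2 * ((n : ℝ) * δ) ^ 2 * (avg (blk z₀ ρ δ n i) φ) ^ 2 := by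
  rw [blk_eq hρ hδ hn hi]
  set a := lo z₀.1 δ n i.1 with ha
  set b := lo z₀.1 δ n (i.1 + 1) with hb
  set c := lo z₀.2 δ n i.2 with hc
  set d := lo z₀.2 δ n (i.2 + 1) with hd
  have l1 := lo_side_lb z₀.1 δ n i.1
  have u1 := lo_side_ub z₀.1 δ n i.1
  have l2 := lo_side_lb z₀.2 δ n i.2
  have u2 := lo_side_ub z₀.2 δ n i.2
  rw [← ha, ← hb] at l1 u1
  rw [← hc, ← hd] at l2 u2
  have hab : a < b := by
    have : (0 : ℝ) < ((b - a : ℤ) : ℝ) := by linarith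
    have : 0 < b - a := by exact_mod_cast this
    omega
  have hcd : c < d := by
    have : (0 : ℝ) < ((d - c : ℤ) : ℝ) := by linarith
    have : 0 < d - c := by exact_mod_cast this
    omega
  set R := rect a b c d with hR
  have hsum := sum_sub_avg (Finset.Subset.refl R) (Finset.Subset.refl R) hab hcd φ
  rw [rect_card] at hsum
  have e1 : (((b - a).toNat : ℕ) : ℝ) = ((b - a : ℤ) : ℝ) := by
    exact_mod_cast Int.toNat_of_nonneg (by omega)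
  have e2 : (((d - c).toNat : ℕ) : ℝ) = ((d - c : ℤ) : ℝ) := by
    exact_mod_cast Int.toNat_of_nonneg (by omega)
  rw [Nat.cast_mul, e1, e2] at hsum
  set s := ((b - a : ℤ) : ℝ)
  set t := ((d - c : ℤ) : ℝ)
  set N := (n : ℝ) * δ
  have hs0 : 0 < s := by linarith
  have ht0 : 0 < t := by linarith
  have hs : s ≤ 3 / 2 * N := by linarith
  have ht : t ≤ 3 / 2 * N := by linarith
  have e3 : 2 * s * (s * t) / t = 2 * s * s := by field_simp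
  rw [e3] at hsum
  have hE := nnE_nonneg R φ
  have h1 : ∑ x ∈ R, (φ x - avg R φ) ^ 2 ≤ 9 * N ^ 2 * nnE R φ := by
    refine hsum.trans (mul_le_mul_of_nonneg_right ?_ hE)
    nlinarith
  have h2 : ∀ x ∈ R, φ x ^ 2 ≤ 2 * (φ x - avg R φ) ^ 2 + 2 * (avg R φ) ^ 2 := by
    intro x _
    nlinarith [sq_nonneg (φ x - avg R φ - avg R φ)]
  have h3 : ∑ x ∈ R, φ x ^ 2 ≤ 2 * ∑ x ∈ R, (φ x - avg R φ) ^ 2 + (R.card : ℝ) * (2 * (avg R φ) ^ 2) := by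
    refine (Finset.sum_le_sum h2).trans (le_of_eq ?_)
    rw [Finset.sum_add_distrib, ← Finset.mul_sum, Finset.sum_const, nsmul_eq_mul]
  have h4 : (R.card : ℝ) ≤ 9 / 4 * N ^ 2 := by
    rw [hR, rect_card, Nat.cast_mul, e1, e2]
    nlinarith
  have h5 : (R.card : ℝ) * (2 * (avg R φ) ^ 2) ≤ 9 / 4 * N ^ 2 * (2 * (avg R φ) ^ 2) :=
    mul_le_mul_of_nonneg_right h4 (by positivity)
  nlinarith

/-- 6.2 (a), first form. -/
theorem pin_sum {α β : ℝ} (hβ : 0 < β) {z₀ : P} {ρ M δ : ℝ} (hρ : 0 < ρ) (hM : 0 < M)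
    (hδ : 0 < δ) {n : ℕ} (hn : 0 < n) (hnδ : 2 ≤ (n : ℝ) * δ) (φ : V → ℝ) :
    ∑ i ∈ pin z₀ ρ δ, ∑ x ∈ blk z₀ ρ δ n i, φ x ^ 2 ≤
      5 * (n : ℝ) ^ 2 * (δ ^ 2 / β + 1 / M) * MP α β z₀ ρ M δ n φ φ := by
  have h1 : ∑ i ∈ pin z₀ ρ δ, ∑ x ∈ blk z₀ ρ δ n i, φ x ^ 2 ≤
      18 * ((n : ℝ) * δ) ^ 2 * ∑ i ∈ pin z₀ ρ δ, nnE (blk z₀ ρ δ n i) φ +
      9 / 2 * ((n : ℝ) * δ) ^ 2 * ∑ i ∈ pin z₀ ρ δ, (avg (blk z₀ ρ δ n i) φ) ^ 2 := by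
    rw [Finset.mul_sum, Finset.mul_sum, ← Finset.sum_add_distrib]
    exact Finset.sum_le_sum fun i hi => blk_sq hρ hδ hn hnδ hi φ
  have h2 : ∑ i ∈ pin z₀ ρ δ, nnE (blk z₀ ρ δ n i) φ ≤ (1 : ℕ) * nnE (SS z₀ ρ n) φ := by
    refine sum_nnE_le _ _ _ (fun i _ => blk_sub z₀ ρ δ n i) 1 ?_ φ
    intro x _
    rw [Finset.card_le_one]
    intro i hi j hj
    rw [Finset.mem_filter] at hi hj
    by_contra hne
    exact Finset.disjoint_left.1 (blk_disj z₀ ρ δ n hne) hi.2 hj.2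
  rw [Nat.cast_one, one_mul] at h2
  have h3 := nnE_le_MP (α := α) hβ.le z₀ ρ hM.le δ n φ
  have h4 := pins_le_MP (α := α) hβ.le z₀ ρ M δ n φ
  set Q := MP α β z₀ ρ M δ n φ φ
  set E := nnE (SS z₀ ρ n) φ
  set E' := ∑ i ∈ pin z₀ ρ δ, nnE (blk z₀ ρ δ n i) φ
  set A := ∑ i ∈ pin z₀ ρ δ, (avg (blk z₀ ρ δ n i) φ) ^ 2
  have hQ : 0 ≤ Q := MP_nonneg hβ.le z₀ ρ hM.le δ n φ
  have h5 : E ≤ Q / (4 * β) := by rw [le_div_iff₀ (by positivity)]; linarith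
  have h6 : δ ^ 2 * A ≤ Q / M := by rw [le_div_iff₀ hM]; linarith
  calc _ ≤ 18 * ((n : ℝ) * δ) ^ 2 * E' + 9 / 2 * ((n : ℝ) * δ) ^ 2 * A := h1
    _ ≤ 18 * ((n : ℝ) * δ) ^ 2 * (Q / (4 * β)) + 9 / 2 * (n : ℝ) ^ 2 * (Q / M) := by
        have h7 : 18 * ((n : ℝ) * δ) ^ 2 * E' ≤ 18 * ((n : ℝ) * δ) ^ 2 * (Q / (4 * β)) :=
          mul_le_mul_of_nonneg_left (h2.trans h5) (by positivity)
        have h8 : 9 / 2 * (n : ℝ) ^ 2 * (δ ^ 2 * A) ≤ 9 / 2 * (n : ℝ) ^ 2 * (Q / M) :=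
          mul_le_mul_of_nonneg_left h6 (by positivity)
        nlinarith
    _ = 9 / 2 * (n : ℝ) ^ 2 * (δ ^ 2 / β + 1 / M) * Q := by field_simp; ring
    _ ≤ 5 * (n : ℝ) ^ 2 * (δ ^ 2 / β + 1 / M) * Q := by
        refine mul_le_mul_of_nonneg_right ?_ hQ
        refine mul_le_mul_of_nonneg_right ?_ (by positivity)
        exact mul_le_mul_of_nonneg_right (by norm_num) (by positivity)

/-- 6.2 (a) for a set of sites deep inside the pinned shells. -/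
theorem deep_sum {α β : ℝ} (hβ : 0 < β) {z₀ : P} {ρ M δ : ℝ} (hρ : 0 < ρ) (hM : 0 < M)
    (hδ : 0 < δ) {n : ℕ} (hn : 0 < n) (hnδ : 2 ≤ (n : ℝ) * δ) (φ : V → ℝ) (T : Finset V)
    (hT : ∀ x ∈ T, ∃ a : ℕ, (a = 1 ∨ a = 3 ∨ a = 5) ∧ a * ρ + 2 * δ ≤ lenP (sc n x - z₀) ∧
      lenP (sc n x - z₀) ≤ (a + 1) * ρ - 2 * δ) :
    ∑ x ∈ T, φ x ^ 2 ≤ 5 * (n : ℝ) ^ 2 * (δ ^ 2 / β + 1 / M) * MP α β z₀ ρ M δ n φ φ := by
  refine le_trans ?_ (pin_sum hβ hρ hM hδ hn hnδ φ)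
  rw [← Finset.sum_biUnion]
  · refine Finset.sum_le_sum_of_subset_of_nonneg ?_ (fun _ _ _ => sq_nonneg _)
    intro x hx
    obtain ⟨a, ha, h1, h2⟩ := hT x hx
    have := deep hρ hδ hn ha h1 h2
    exact Finset.mem_biUnion.2 ⟨_, this.1, this.2⟩
  · intro i _ j _ hij
    exact blk_disj z₀ ρ δ n hij

end Pool.Agent.LR.B5
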