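import Pool.Agent.LR.B5.BoxBox
import Pool.Agent.LR.FKDefs

/-!
# LR-B5-Chain: fields vanishing along a crossing chain (7.3)
-/

set_option autoImplicit false

namespace Pool.Agent.LR.B5

/-- Energies of a family with bounded overlap. -/
theorem sum_nnE_le {ι : Type*} (I : Finset ι) (T : ι → Finset (ℤ × ℤ)) (B : Finset (ℤ × ℤ))
    (hT : ∀ s ∈ I, T s ⊆ B) (N : ℕ) (hN : ∀ x ∈ B, (I.filter fun s => x ∈ T s).card ≤ N)
    (φ : ℤ × ℤ → ℝ) : ∑ s ∈ I, nnE (T s) φ ≤ N * nnE B φ := by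
  classical
  set e : ℤ × ℤ → ℝ := fun x => (if (x.1 + 1, x.2) ∈ B then (φ (x.1 + 1, x.2) - φ x) ^ 2 else 0) +
    (if (x.1, x.2 + 1) ∈ B then (φ (x.1, x.2 + 1) - φ x) ^ 2 else 0) with he
  have he0 : ∀ x, 0 ≤ e x := fun x => by
    rw [he]; dsimp only
    refine add_nonneg ?_ ?_ <;> split_ifs <;> positivity
  have h1 : ∀ s ∈ I, nnE (T s) φ ≤ ∑ x ∈ T s, e x := by
    intro s hs
    unfold nnE
    refine Finset.sum_le_sum fun x hx => ?_
    rw [he]; dsimp only
    refine add_le_add ?_ ?_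
    · by_cases h2 : (x.1 + 1, x.2) ∈ T s
      · rw [if_pos h2, if_pos (hT s hs h2)]
      · rw [if_neg h2]; split_ifs <;> positivity
    · by_cases h2 : (x.1, x.2 + 1) ∈ T s
      · rw [if_pos h2, if_pos (hT s hs h2)]
      · rw [if_neg h2]; split_ifs <;> positivity
  refine (Finset.sum_le_sum h1).trans ?_
  have h2 : ∀ s ∈ I, ∑ x ∈ T s, e x = ∑ x ∈ B, if x ∈ T s then e x else 0 := by
    intro s hs
    rw [← Finset.sum_filter]
    refine Finset.sum_congr ?_ fun _ _ => rfl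
    ext x
    simp only [Finset.mem_filter]
    exact ⟨fun h => ⟨hT s hs h, h⟩, fun h => h.2⟩
  rw [Finset.sum_congr rfl h2, Finset.sum_comm]
  have h3 : nnE B φ = ∑ x ∈ B, e x := rfl
  rw [h3, Finset.mul_sum]
  refine Finset.sum_le_sum fun x hx => ?_
  rw [← Finset.sum_filter, Finset.sum_const, nsmul_eq_mul]
  exact mul_le_mul_of_nonneg_right (by exact_mod_cast hN x hx) (he0 x)

theorem nnE_sub_const (S : Finset (ℤ × ℤ)) (φ : ℤ × ℤ → ℝ) (t : ℝ) :
    nnE S (fun x => t - φ x) = nnE S φ := by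
  classical
  unfold nnE
  refine Finset.sum_congr rfl fun x _ => ?_
  refine congrArg₂ (· + ·) ?_ ?_
  · split_ifs
    · ring
    · rfl
  · split_ifs
    · ring
    · rfl

theorem nnE_pos_part (S : Finset (ℤ × ℤ)) (φ : ℤ × ℤ → ℝ) :
    nnE S (fun x => max (φ x) 0) ≤ nnE S φ := by
  classical
  unfold nnE
  have key : ∀ u v : ℝ, (max u 0 - max v 0) ^ 2 ≤ (u - v) ^ 2 := by
    intro u v
    have h := abs_max_sub_max_le_abs u v 0
    exact sq_le_sq.2 h
  refine Finset.sum_le_sum fun x _ => add_le_add ?_ ?_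
  · split_ifs
    · exact key _ _
    · exact le_rfl
  · split_ifs
    · exact key _ _
    · exact le_rfl

/-- Transposition. -/
def sw (φ : ℤ × ℤ → ℝ) : ℤ × ℤ → ℝ := fun x => φ (x.2, x.1)

theorem nnE_sw (a b c d : ℤ) (φ : ℤ × ℤ → ℝ) :
    nnE (rect c d a b) (sw φ) = nnE (rect a b c d) φ := by
  rw [nnE_rect, nnE_rect, add_comm]
  rfl

theorem avg_sw (a b c d : ℤ) (φ : ℤ × ℤ → ℝ) :
    avg (rect c d a b) (sw φ) = avg (rect a b c d) φ := by
  rw [avg_eq, avg_eq, rect_card, rect_card, mul_comm]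
  refine congrArg₂ (· / ·) ?_ rfl
  unfold rect
  rw [Finset.sum_product_right, Finset.sum_product]
  rfl

/-- The mean over a union of `m` consecutive strips. -/
theorem avg_strips {a p : ℤ} {l r m : ℕ} (hr : 1 ≤ r) (hm : 1 ≤ m) (hl : 1 ≤ l)
    (φ : ℤ × ℤ → ℝ) : avg (rect p (p + m * r) a (a + l)) φ =
    (∑ s ∈ Finset.range m, avg (rect (p + s * r) (p + (s + 1) * r) a (a + l)) φ) / m := by
  have h1 : ∀ s : ℕ, avg (rect (p + s * r) (p + (s + 1) * r) a (a + l)) φ =
      (∑ x ∈ rect (p + s * r) (p + (s + 1) * r) a (a + l), φ x) / (r * l) := by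
    intro s
    rw [avg_eq, rect_card]
    have e1 : (p + (s + 1) * r - (p + s * r) : ℤ).toNat = r := by
      have : (p + ((s : ℤ) + 1) * r - (p + s * r) : ℤ) = (r : ℤ) := by ring
      rw [this]; simp
    have e2 : (a + l - a : ℤ).toNat = l := by simp
    rw [e1, e2]
    push_cast
    rfl
  have h2 : ∑ x ∈ rect p (p + m * r) a (a + l), φ x =
      ∑ s ∈ Finset.range m, ∑ x ∈ rect (p + s * r) (p + (s + 1) * r) a (a + l), φ x := by
    clear h1 hm
    induction m with
    | zero => simp [rect]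
    | succ m ih =>
      rw [Finset.sum_range_succ, ← ih]
      have hd : Disjoint (rect p (p + m * r) a (a + l))
          (rect (p + m * r) (p + (m + 1) * r) a (a + l)) := by
        rw [Finset.disjoint_left]
        intro x hx hx'
        rw [mem_rect] at hx hx'
        omega
      rw [← Finset.sum_union hd]
      refine Finset.sum_congr ?_ fun _ _ => rfl
      ext x
      have hmr : (0 : ℤ) ≤ (m : ℤ) * r := by positivity
      have e3 : ((m : ℤ) + 1) * r = m * r + r := by ring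
      simp only [Finset.mem_union, mem_rect]
      push_cast
      rw [e3]
      constructor
      · intro h
        rcases lt_or_ge x.1 (p + m * r) with h' | h'
        · left; omega
        · right; omega
      · rintro (h | h)
        · omega
        · omega
  simp only [h1]
  rw [← Finset.sum_div, ← h2, avg_eq, rect_card]
  have e1 : (p + m * r - p : ℤ).toNat = m * r := by
    have : (p + m * r - p : ℤ) = ((m * r : ℕ) : ℤ) := by push_cast; ring
    rw [this, Int.toNat_natCast]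
  have e2 : (a + l - a : ℤ).toNat = l := by simp
  rw [e1, e2]
  have hm' : (0 : ℝ) < m := by exact_mod_cast hm
  have hr' : (0 : ℝ) < r := by exact_mod_cast hr
  have hl' : (0 : ℝ) < l := by exact_mod_cast hl
  push_cast
  field_simp

/-- One strip containing a zero of `φ`. -/
theorem strip_one {a p : ℤ} {l r : ℕ} (hr : 1 ≤ r) (hrl : r ≤ l) (φ : ℤ × ℤ → ℝ) {z : ℤ × ℤ}
    (hz : z ∈ rect p (p + r) a (a + l)) (h0 : φ z = 0) :
    (avg (rect p (p + r) a (a + l)) φ) ^ 2 ≤
      (18 * (Nat.clog 2 r : ℝ) ^ 2 + 8 * (l / r)) * nnE (rect p (p + r) a (a + l)) φ := by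
  rw [mem_rect] at hz
  obtain ⟨q, hq1, hq2, hq3, hq4⟩ : ∃ q : ℤ, a ≤ q ∧ q + r ≤ a + l ∧ q ≤ z.2 ∧ z.2 < q + r := by
    by_cases hh : z.2 < a + r
    · exact ⟨a, by omega, by omega, by omega, by omega⟩
    · exact ⟨z.2 + 1 - r, by omega, by omega, by omega, by omega⟩
  have hzQ : z ∈ box (p, q) r := by rw [mem_box]; dsimp only; omega
  have hsub : rect p (p + r) q (q + r) ⊆ rect p (p + r) a (a + l) := by
    intro x hx
    rw [mem_rect] at hx ⊢
    omega
  have h1 := pt_box hzQ φ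
  rw [h0, zero_sub, abs_neg] at h1
  have h1' : |avg (rect p (p + r) q (q + r)) φ| ≤ 3 * Nat.clog 2 r *
      Real.sqrt (nnE (rect p (p + r) a (a + l)) φ) := by
    refine h1.trans (mul_le_mul_of_nonneg_left (Real.sqrt_le_sqrt ?_) (by positivity))
    exact nnE_mono hsub φ
  have h2 := avg_sub_avg (a := p) (b := p + r) (c := a) (d := a + l) hsub
    (Finset.Subset.refl (rect p (p + r) a (a + l))) (by omega) (by omega) (by omega) (by omega) φ
  have e1 : ((a + l - a : ℤ) : ℝ) = l := by push_cast; ring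
  have e2 : ((p + r - p : ℤ) : ℝ) = r := by push_cast; ring
  rw [e1, e2] at h2
  set E := nnE (rect p (p + r) a (a + l)) φ with hE
  have hE0 : 0 ≤ E := nnE_nonneg _ _
  set A := avg (rect p (p + r) q (q + r)) φ
  set B := avg (rect p (p + r) a (a + l)) φ
  have h3 : A ^ 2 ≤ 9 * (Nat.clog 2 r : ℝ) ^ 2 * E := by
    have := sq_le_sq' (by linarith [abs_nonneg A, neg_le_of_abs_le h1']) (le_of_abs_le h1')
    rw [mul_pow, mul_pow, Real.sq_sqrt hE0] at this
    linarith
  have hr' : (1 : ℝ) ≤ r := by exact_mod_cast hr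
  have hrl' : (r : ℝ) ≤ l := by exact_mod_cast hrl
  have h4 : 2 * (l : ℝ) / r + 2 * r / l ≤ 4 * (l / r) := by
    have h5 : 2 * (r : ℝ) / l ≤ 2 := by rw [div_le_iff₀ (by linarith)]; linarith
    have h6 : 1 ≤ (l : ℝ) / r := by rw [le_div_iff₀ (by linarith)]; linarith
    have h7 : 2 * (l : ℝ) / r = 2 * (l / r) := by ring
    linarith
  have h5 : (A - B) ^ 2 ≤ 4 * (l / r) * E := h2.trans (mul_le_mul_of_nonneg_right h4 hE0)
  nlinarith [sq_nonneg (A + (A - B)), sq_nonneg (B - 2 * A), sq_nonneg B]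

/-- `m` consecutive strips each containing a zero of `φ`. -/
theorem strips {a p x0 : ℤ} {l r m : ℕ} (hr : 1 ≤ r) (hrl : r ≤ l) (hm : 1 ≤ m)
    (hp : x0 ≤ p) (hp' : p + m * r ≤ x0 + l) (φ : ℤ × ℤ → ℝ)
    (h0 : ∀ s < m, ∃ z ∈ rect (p + s * r) (p + (s + 1) * r) a (a + l), φ z = 0) :
    (avg (rect p (p + m * r) a (a + l)) φ) ^ 2 ≤
      (18 * (Nat.clog 2 r : ℝ) ^ 2 + 8 * (l / r)) / m * nnE (rect x0 (x0 + l) a (a + l)) φ := by
  have hm' : (0 : ℝ) < m := by exact_mod_cast hm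
  rw [avg_strips hr hm (by omega), div_pow, div_le_iff₀ (by positivity)]
  have h1 : (∑ s ∈ Finset.range m, avg (rect (p + s * r) (p + (s + 1) * r) a (a + l)) φ) ^ 2 ≤
      m * ∑ s ∈ Finset.range m, (avg (rect (p + s * r) (p + (s + 1) * r) a (a + l)) φ) ^ 2 := by
    have := sq_sum_le_card_mul_sum_sq (s := Finset.range m)
      (f := fun s : ℕ => avg (rect (p + s * r) (p + (s + 1) * r) a (a + l)) φ)
    rwa [Finset.card_range] at this
  set D := (18 * (Nat.clog 2 r : ℝ) ^ 2 + 8 * ((l : ℝ) / r)) with hD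
  have hD0 : 0 ≤ D := by positivity
  have h2 : ∀ s ∈ Finset.range m, (avg (rect (p + s * r) (p + (s + 1) * r) a (a + l)) φ) ^ 2 ≤
      D * nnE (rect (p + s * r) (p + (s + 1) * r) a (a + l)) φ := by
    intro s hs
    obtain ⟨z, hz, hz0⟩ := h0 s (Finset.mem_range.1 hs)
    have e : p + ((s : ℤ) + 1) * r = p + s * r + r := by ring
    rw [e] at hz ⊢
    exact strip_one hr hrl φ hz hz0
  have h3 : ∑ s ∈ Finset.range m, nnE (rect (p + s * r) (p + (s + 1) * r) a (a + l)) φ ≤
      (1 : ℕ) * nnE (rect x0 (x0 + l) a (a + l)) φ := by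
    refine sum_nnE_le _ _ _ ?_ 1 ?_ φ
    · intro s hs x hx
      have hs' := Finset.mem_range.1 hs
      rw [mem_rect] at hx ⊢
      have h5 : ((s : ℤ) + 1) * r ≤ m * r := by
        refine mul_le_mul_of_nonneg_right ?_ (by positivity)
        exact_mod_cast hs'
      have h6 : (0 : ℤ) ≤ (s : ℤ) * r := by positivity
      omega
    · intro x _
      rw [Finset.card_le_one]
      intro s hs t ht
      rw [Finset.mem_filter, mem_rect] at hs ht
      have hr1 : (1 : ℤ) ≤ r := by exact_mod_cast hr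
      by_contra hne
      rcases lt_or_gt_of_ne hne with h | h
      · have : ((s : ℤ) + 1) * r ≤ t * r := by
          refine mul_le_mul_of_nonneg_right ?_ (by positivity)
          exact_mod_cast h
        omega
      · have : ((t : ℤ) + 1) * r ≤ s * r := by
          refine mul_le_mul_of_nonneg_right ?_ (by positivity)
          exact_mod_cast h
        omega
  have h4 : ∑ s ∈ Finset.range m, (avg (rect (p + s * r) (p + (s + 1) * r) a (a + l)) φ) ^ 2 ≤
      D * nnE (rect x0 (x0 + l) a (a + l)) φ := by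
    refine (Finset.sum_le_sum h2).trans ?_
    rw [← Finset.mul_sum]
    refine mul_le_mul_of_nonneg_left ?_ hD0
    simpa using h3
  calc _ ≤ (m : ℝ) * ∑ s ∈ Finset.range m,
        (avg (rect (p + s * r) (p + (s + 1) * r) a (a + l)) φ) ^ 2 := h1
    _ ≤ m * (D * nnE (rect x0 (x0 + l) a (a + l)) φ) := mul_le_mul_of_nonneg_left h4 hm'.le
    _ = D / m * nnE (rect x0 (x0 + l) a (a + l)) φ * m ^ 2 := by field_simp

/-- A chain with steps at most `r` meets every vertical strip of width `r` between its ends. -/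
theorem chain_strip {s : ℝ} {K : Finset V} {x y : V} {r : ℕ} (hs : s ≤ r) (h : chainIn s K x y)
    (hx : x ∈ K) (p : ℤ) (hxp : x.1 < p + r) (hyp : p ≤ y.1) : ∃ z ∈ K, p ≤ z.1 ∧ z.1 < p + r := by
  unfold chainIn at h
  induction h with
  | refl => exact ⟨x, hx, hyp, hxp⟩
  | @tail b c hb hbc ih =>
    by_cases hpb : p ≤ b.1
    · exact ih hpb
    · obtain ⟨hbK, hcK, hl⟩ := hbc
      refine ⟨c, hcK, hyp, ?_⟩
      have h1 : |((b - c : V).1 : ℝ)| ≤ len (b - c) := by
        unfold len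
        rw [← Real.sqrt_sq_eq_abs]
        exact Real.sqrt_le_sqrt (by nlinarith [sq_nonneg (((b - c : V).2 : ℝ))])
      have h2 : ((c.1 - b.1 : ℤ) : ℝ) ≤ r := by
        have h3 := (abs_le.1 h1).1
        rw [Prod.fst_sub] at h3
        push_cast at h3 ⊢
        linarith
      have h4 : c.1 - b.1 ≤ r := by exact_mod_cast h2
      omega

/-- First coordinate crossing, left to right. -/
theorem cross_lr {s : ℝ} {K : Finset V} {x y a : V} {r l : ℕ} (hr : 1 ≤ r) (hs : s ≤ r)
    (hl : 6 * r ≤ l) (hlog : r * Nat.clog 2 r ^ 2 ≤ l) (h : chainIn s K x y)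
    (hK : K ⊆ box a l) (hx : x ∈ K) (hy : y ∈ K) (hxy : (l : ℤ) ≤ 3 * (y.1 - x.1)) (φ : V → ℝ)
    (h0 : ∀ z ∈ K, φ z = 0) : (avg (box a l) φ) ^ 2 ≤ 340 * nnE (box a l) φ := by
  have hx' := mem_box.1 (hK hx)
  have hy' := mem_box.1 (hK hy)
  -- number of strips
  obtain ⟨d, hd⟩ := Int.eq_ofNat_of_zero_le (show 0 ≤ y.1 - x.1 by omega)
  set m := d / r with hmdef
  have hmr : m * r ≤ d := Nat.div_mul_le_self d r
  have hmr' : d < (m + 1) * r := by
    rw [hmdef, Nat.add_mul, one_mul]; exact Nat.lt_div_mul_add (by omega)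
  have hm6 : l ≤ 6 * (m * r) := by
    have : (m + 1) * r = m * r + r := by ring
    omega
  have hm1 : 1 ≤ m := by
    rcases Nat.eq_zero_or_pos m with h | h
    · rw [h] at hm6; omega
    · exact h
  have hstr := strips (a := a.2) (p := x.1) (x0 := a.1) (l := l) (r := r) (m := m) hr (by omega) hm1
    (by omega) (by have : ((m * r : ℕ) : ℤ) ≤ d := by exact_mod_cast hmr
                   push_cast at this; omega) φ (by
      intro t ht
      have h5 : (t + 1) * r ≤ m * r := Nat.mul_le_mul_right r ht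
      have h6 : (((t + 1) * r : ℕ) : ℤ) ≤ d := by exact_mod_cast h5.trans hmr
      have h7 : (0 : ℤ) ≤ (t : ℤ) * r := by positivity
      have e : ((t : ℤ) + 1) * r = t * r + r := by ring
      push_cast at h6
      obtain ⟨z, hz, hz1, hz2⟩ := chain_strip hs h hx (x.1 + t * r) (by omega) (by omega)
      have hzb := mem_box.1 (hK hz)
      refine ⟨z, ?_, h0 z hz⟩
      rw [mem_rect, e]
      omega)
  have hm' : (0 : ℝ) < m := by exact_mod_cast hm1
  have hr' : (1 : ℝ) ≤ r := by exact_mod_cast hr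
  have hl' : (6 : ℝ) ≤ l := by
    have : 6 ≤ l := by omega
    exact_mod_cast this
  have hm6' : (l : ℝ) ≤ 6 * (m * r) := by exact_mod_cast hm6
  have hlog' : (r : ℝ) * (Nat.clog 2 r : ℝ) ^ 2 ≤ l := by exact_mod_cast hlog
  set E := nnE (box a l) φ with hE
  have hE0 : 0 ≤ E := nnE_nonneg _ _
  have h1 : (18 * (Nat.clog 2 r : ℝ) ^ 2 + 8 * ((l : ℝ) / r)) / m ≤ 156 := by
    rw [div_le_iff₀ hm']
    have h2 : (Nat.clog 2 r : ℝ) ^ 2 ≤ l / r := by
      rw [le_div_iff₀ (by linarith)]; linarith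
    have h3 : (l : ℝ) / r ≤ 6 * m := by
      rw [div_le_iff₀ (by linarith)]; linarith
    linarith
  have h2 : (avg (rect x.1 (x.1 + m * r) a.2 (a.2 + l)) φ) ^ 2 ≤ 156 * E :=
    hstr.trans (mul_le_mul_of_nonneg_right h1 hE0)
  have hsub : rect x.1 (x.1 + m * r) a.2 (a.2 + l) ⊆ rect a.1 (a.1 + l) a.2 (a.2 + l) := by
    intro z hz
    have : ((m * r : ℕ) : ℤ) ≤ d := by exact_mod_cast hmr
    push_cast at this
    rw [mem_rect] at hz ⊢
    omega
  have hmrpos : (0 : ℤ) < (m : ℤ) * r := by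
    have : 0 < m * r := Nat.mul_pos (by omega) (by omega)
    exact_mod_cast this
  have h3 := avg_sub_avg hsub (Finset.Subset.refl (rect a.1 (a.1 + l) a.2 (a.2 + l)))
    (by omega) (by omega) (by omega) (by omega) φ
  have e1 : ((a.2 + l - a.2 : ℤ) : ℝ) = l := by push_cast; ring
  have e2 : ((x.1 + m * r - x.1 : ℤ) : ℝ) = m * r := by push_cast; ring
  have e3 : ((a.1 + l - a.1 : ℤ) : ℝ) = l := by push_cast; ring
  rw [e1, e2, e3] at h3
  have h4 : 2 * (l : ℝ) / (m * r) + 2 * l / l ≤ 14 := by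
    have h5 : 2 * (l : ℝ) / (m * r) ≤ 12 := by
      rw [div_le_iff₀ (by positivity)]; linarith
    have h6 : 2 * (l : ℝ) / l ≤ 2 := by rw [div_le_iff₀ (by linarith)]
    linarith
  have h5 : (avg (rect x.1 (x.1 + m * r) a.2 (a.2 + l)) φ - avg (box a l) φ) ^ 2 ≤ 14 * E :=
    h3.trans (mul_le_mul_of_nonneg_right h4 hE0)
  set A := avg (rect x.1 (x.1 + m * r) a.2 (a.2 + l)) φ
  set B := avg (box a l) φ
  nlinarith [sq_nonneg (A + (A - B))]

/-- Chains are symmetric. -/
theorem chain_symm {s : ℝ} {K : Finset V} {x y : V} (h : chainIn s K x y) : chainIn s K y x := by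
  unfold chainIn at h ⊢
  have hstep : ∀ u v : V, (u ∈ K ∧ v ∈ K ∧ len (u - v) ≤ s) → (v ∈ K ∧ u ∈ K ∧ len (v - u) ≤ s) := by
    intro u v huv
    refine ⟨huv.2.1, huv.1, ?_⟩
    have : len (v - u) = len (u - v) := by
      unfold len
      simp only [Prod.fst_sub, Prod.snd_sub]
      push_cast
      congr 1
      ring
    rw [this]
    exact huv.2.2
  induction h with
  | refl => exact Relation.ReflTransGen.refl
  | tail hb hbc ih => exact Relation.ReflTransGen.head (hstep _ _ hbc) ih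

/-- Transposed chain. -/
theorem chain_swap {s : ℝ} {K : Finset V} {x y : V} (h : chainIn s K x y) :
    chainIn s (K.image Prod.swap) x.swap y.swap := by
  unfold chainIn at h ⊢
  have hstep : ∀ u v : V, (u ∈ K ∧ v ∈ K ∧ len (u - v) ≤ s) →
      (u.swap ∈ K.image Prod.swap ∧ v.swap ∈ K.image Prod.swap ∧ len (u.swap - v.swap) ≤ s) := by
    intro u v huv
    refine ⟨Finset.mem_image_of_mem _ huv.1, Finset.mem_image_of_mem _ huv.2.1, ?_⟩
    have : len (u.swap - v.swap) = len (u - v) := by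
      unfold len
      simp only [Prod.fst_sub, Prod.snd_sub, Prod.fst_swap, Prod.snd_swap]
      congr 1
      ring
    rw [this]
    exact huv.2.2
  induction h with
  | refl => exact Relation.ReflTransGen.refl
  | tail hb hbc ih => exact Relation.ReflTransGen.tail ih (hstep _ _ hbc)

/-- Crossing in one of the coordinates, in any direction. -/
theorem cross_any {s : ℝ} {K : Finset V} {x y a : V} {r l : ℕ} (hr : 1 ≤ r) (hs : s ≤ r)
    (hl : 6 * r ≤ l) (hlog : r * Nat.clog 2 r ^ 2 ≤ l) (h : chainIn s K x y)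
    (hK : K ⊆ box a l) (hx : x ∈ K) (hy : y ∈ K)
    (hxy : (l : ℤ) ≤ 3 * |y.1 - x.1| ∨ (l : ℤ) ≤ 3 * |y.2 - x.2|) (φ : V → ℝ)
    (h0 : ∀ z ∈ K, φ z = 0) : (avg (box a l) φ) ^ 2 ≤ 340 * nnE (box a l) φ := by
  rcases hxy with hxy | hxy
  · rcases le_total x.1 y.1 with hh | hh
    · rw [abs_of_nonneg (by omega)] at hxy
      exact cross_lr hr hs hl hlog h hK hx hy hxy φ h0
    · rw [abs_of_nonpos (by omega)] at hxy
      exact cross_lr hr hs hl hlog (chain_symm h) hK hy hx (by omega) φ h0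
  · have hK' : K.image Prod.swap ⊆ box a.swap l := by
      intro z hz
      rw [Finset.mem_image] at hz
      obtain ⟨w, hw, rfl⟩ := hz
      have := mem_box.1 (hK hw)
      rw [mem_box]
      simp only [Prod.fst_swap, Prod.snd_swap]
      exact ⟨this.2, this.1⟩
    have h0' : ∀ z ∈ K.image Prod.swap, sw φ z = 0 := by
      intro z hz
      rw [Finset.mem_image] at hz
      obtain ⟨w, hw, rfl⟩ := hz
      exact h0 w hw
    have hres : (avg (box a.swap l) (sw φ)) ^ 2 ≤ 340 * nnE (box a.swap l) (sw φ) := by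
      rcases le_total x.2 y.2 with hh | hh
      · rw [abs_of_nonneg (by omega)] at hxy
        exact cross_lr hr hs hl hlog (chain_swap h) hK' (Finset.mem_image_of_mem _ hx)
          (Finset.mem_image_of_mem _ hy) hxy (sw φ) h0'
      · rw [abs_of_nonpos (by omega)] at hxy
        exact cross_lr hr hs hl hlog (chain_swap (chain_symm h)) hK' (Finset.mem_image_of_mem _ hy)
          (Finset.mem_image_of_mem _ hx) (by simp only [Prod.fst_swap]; omega) (sw φ) h0'
    have e1 : avg (box a.swap l) (sw φ) = avg (box a l) φ := avg_sw _ _ _ _ φ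
    have e2 : nnE (box a.swap l) (sw φ) = nnE (box a l) φ := nnE_sw _ _ _ _ φ
    rwa [e1, e2] at hres

/-- The part of a chain before it leaves `B`. -/
theorem chain_exit {s : ℝ} {K B : Finset V} {x y : V} (h : chainIn s K x y) (hx : x ∈ B)
    (hy : y ∉ B) : ∃ z ∈ B, chainIn s (K ∩ B) x z ∧ x ∈ K ∧ z ∈ K ∧ ∃ w, w ∉ B ∧ len (z - w) ≤ s := by
  have key : ∀ y, chainIn s K x y → (y ∈ B ∧ chainIn s (K ∩ B) x y ∧ (y = x ∨ (x ∈ K ∧ y ∈ K))) ∨
      ∃ z ∈ B, chainIn s (K ∩ B) x z ∧ x ∈ K ∧ z ∈ K ∧ ∃ w, w ∉ B ∧ len (z - w) ≤ s := by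
    intro y hy
    unfold chainIn at hy
    induction hy with
    | refl => exact Or.inl ⟨hx, Relation.ReflTransGen.refl, Or.inl rfl⟩
    | @tail b c hb hbc ih =>
      rcases ih with ⟨hbB, hch, hh⟩ | h
      · have hxK : x ∈ K := by
          rcases hh with rfl | hh
          · exact hbc.1
          · exact hh.1
        by_cases hcB : c ∈ B
        · left
          refine ⟨hcB, ?_, Or.inr ⟨hxK, hbc.2.1⟩⟩
          exact Relation.ReflTransGen.tail hch ⟨Finset.mem_inter.2 ⟨hbc.1, hbB⟩,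
            Finset.mem_inter.2 ⟨hbc.2.1, hcB⟩, hbc.2.2⟩
        · right
          exact ⟨b, hbB, hch, hxK, hbc.1, c, hcB, hbc.2.2⟩
      · exact Or.inr h
  rcases key y h with ⟨hyB, -⟩ | h
  · exact absurd hyB hy
  · exact h

/-- The box of half side `k` centred at `x`. -/
noncomputable def cbox (x : V) (k : ℕ) : Finset V := box (x.1 - k, x.2 - k) (2 * k + 1)

theorem mem_cbox {x y : V} {k : ℕ} : y ∈ cbox x k ↔ |y.1 - x.1| ≤ k ∧ |y.2 - x.2| ≤ k := by
  unfold cbox
  rw [mem_box, abs_le, abs_le]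
  push_cast
  omega

theorem len_ge_fst (v : V) : |(v.1 : ℝ)| ≤ len v := by
  unfold len
  rw [← Real.sqrt_sq_eq_abs]
  exact Real.sqrt_le_sqrt (by nlinarith [sq_nonneg ((v.2 : ℝ))])

theorem len_ge_snd (v : V) : |(v.2 : ℝ)| ≤ len v := by
  unfold len
  rw [← Real.sqrt_sq_eq_abs]
  exact Real.sqrt_le_sqrt (by nlinarith [sq_nonneg ((v.1 : ℝ))])

/-- 7.3: a field vanishing along a chain which starts at the centre of a box and leaves it. -/
theorem chain_center {s : ℝ} {K : Finset V} {x y : V} {r k : ℕ} (hr : 1 ≤ r) (hs : s ≤ r)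
    (hk : 6 * r ≤ k) (hlog : r * Nat.clog 2 r ^ 2 ≤ k) (h : chainIn s K x y)
    (hy : y ∉ cbox x k) (φ : V → ℝ) (h0 : ∀ z ∈ K, z ∈ cbox x k → φ z = 0) :
    (avg (cbox x k) φ) ^ 2 ≤ 340 * nnE (cbox x k) φ := by
  have hx : x ∈ cbox x k := by rw [mem_cbox]; simp
  obtain ⟨z, hzB, hch, hxK, hzK, w, hwB, hlen⟩ := chain_exit h hx hy
  have hzB' := mem_cbox.1 hzB
  have h1 := (len_ge_fst (z - w)).trans (hlen.trans hs)
  have h2 := (len_ge_snd (z - w)).trans (hlen.trans hs)
  rw [Prod.fst_sub] at h1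
  rw [Prod.snd_sub] at h2
  have h1' : |z.1 - w.1| ≤ r := by exact_mod_cast h1
  have h2' : |z.2 - w.2| ≤ r := by exact_mod_cast h2
  rw [mem_cbox, not_and_or, not_le, not_le] at hwB
  unfold cbox
  refine cross_any hr hs (by omega) (by omega) hch Finset.inter_subset_right
    (Finset.mem_inter.2 ⟨hxK, hx⟩) (Finset.mem_inter.2 ⟨hzK, hzB⟩) ?_ φ
    (fun z hz => h0 z (Finset.mem_inter.1 hz).1 (Finset.mem_inter.1 hz).2)
  push_cast
  rcases hwB with hwB | hwB
  · left
    have h3 : |w.1 - x.1| ≤ |z.1 - x.1| + |z.1 - w.1| := by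
      have := abs_sub_le w.1 z.1 x.1
      rw [abs_sub_comm w.1 z.1] at this
      omega
    omega
  · right
    have h3 : |w.2 - x.2| ≤ |z.2 - x.2| + |z.2 - w.2| := by
      have := abs_sub_le w.2 z.2 x.2
      rw [abs_sub_comm w.2 z.2] at this
      omega
    omega

theorem box_nonempty {a : V} {l : ℕ} (hl : 1 ≤ l) : (box a l).Nonempty :=
  ⟨a, by rw [mem_box]; omega⟩

/-- Lower bound of the mean of a field which is at least `t` along a chain. -/
theorem chain_center_ge {s : ℝ} {K : Finset V} {x y : V} {r k : ℕ} (hr : 1 ≤ r) (hs : s ≤ r)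
    (hk : 6 * r ≤ k) (hlog : r * Nat.clog 2 r ^ 2 ≤ k) (h : chainIn s K x y)
    (hy : y ∉ cbox x k) (φ : V → ℝ) (t : ℝ) (h0 : ∀ z ∈ K, z ∈ cbox x k → t ≤ φ z) :
    t ≤ avg (cbox x k) φ + 19 * Real.sqrt (nnE (cbox x k) φ) := by
  set ψ : V → ℝ := fun z => max (t - φ z) 0 with hψ
  have h1 := chain_center hr hs hk hlog h hy ψ (fun z hz hz' => by
    rw [hψ]; dsimp only
    rw [max_eq_right (by linarith [h0 z hz hz'])])
  have h2 : nnE (cbox x k) ψ ≤ nnE (cbox x k) φ := by
    refine (nnE_pos_part _ _).trans (le_of_eq ?_)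
    exact nnE_sub_const _ _ _
  have h3 : t - avg (cbox x k) φ ≤ avg (cbox x k) ψ := by
    have hne : (cbox x k).Nonempty := box_nonempty (by omega)
    have hc : (0 : ℝ) < (cbox x k).card := by exact_mod_cast hne.card_pos
    rw [avg_eq, avg_eq, sub_le_iff_le_add, ← add_div, ← Finset.sum_add_distrib, le_div_iff₀ hc,
      mul_comm, ← nsmul_eq_mul, ← Finset.sum_const]
    refine Finset.sum_le_sum fun z _ => ?_
    rw [hψ]; dsimp only
    have := le_max_left (t - φ z) 0
    linarith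
  have h4 : avg (cbox x k) ψ ≤ 19 * Real.sqrt (nnE (cbox x k) φ) := by
    have h5 : (avg (cbox x k) ψ) ^ 2 ≤ 19 ^ 2 * nnE (cbox x k) φ := by
      have := nnE_nonneg (cbox x k) φ
      nlinarith
    have h6 := Real.sqrt_le_sqrt h5
    rw [Real.sqrt_sq_eq_abs, Real.sqrt_mul (by norm_num), Real.sqrt_sq (by norm_num)] at h6
    exact (le_abs_self _).trans h6
  linarith

end Pool.Agent.LR.B5
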