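import Pool.Agent.LR.B5.Green

/-!
# LR-B5-Cross: energy of a crossing (7.5)
-/

set_option autoImplicit false

open Filter

namespace Pool.Agent.LR.B5

/-- Step bound for the chains at scale `n`. -/
noncomputable def rn (t : ℝ) (n : ℕ) : ℕ := max 1 ⌈(n : ℝ) ^ t⌉₊

theorem one_le_rn (t : ℝ) (n : ℕ) : 1 ≤ rn t n := le_max_left _ _

theorem le_rn (t : ℝ) (n : ℕ) : (n : ℝ) ^ t ≤ rn t n := by
  unfold rn
  push_cast
  exact (Nat.le_ceil _).trans (le_max_right _ _)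

theorem ev_rn {c t : ℝ} (hc : 0 < c) (ht : t < 1) : ∀ᶠ n : ℕ in atTop,
    6 * rn t n ≤ ⌊c * n⌋₊ ∧ rn t n * Nat.clog 2 (rn t n) ^ 2 ≤ ⌊c * n⌋₊ ∧
      (n : ℝ) ^ t ≤ c * n := by
  set u := max t 0 with hu
  have hu0 : 0 ≤ u := le_max_right _ _
  have hu1 : u < 1 := max_lt ht one_pos
  have h1 : ∀ᶠ x : ℝ in atTop, ‖Real.log x ^ (2 : ℝ)‖ ≤ (c / 100) * ‖x ^ (1 - u)‖ :=
    (isLittleO_log_rpow_rpow_atTop 2 (by linarith : 0 < 1 - u)).def (by positivity)
  have h2 := tendsto_natCast_atTop_atTop.eventually h1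
  filter_upwards [h2, eventually_ge_atTop 3] with n hn hn3
  have hn' : (3 : ℝ) ≤ n := by exact_mod_cast hn3
  have hn0 : (0 : ℝ) < n := by linarith
  have hlogn : 1 ≤ Real.log n := by
    have h4 : Real.log (Real.exp 1) ≤ Real.log n := by
      refine Real.log_le_log (Real.exp_pos _) ?_
      have := Real.exp_one_lt_d9
      linarith
    rwa [Real.log_exp] at h4
  have e2 : Real.log (n : ℝ) ^ (2 : ℝ) = Real.log n ^ 2 := by
    rw [← Real.rpow_natCast]; norm_num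
  rw [e2, Real.norm_of_nonneg (by positivity), Real.norm_of_nonneg (by positivity)] at hn
  have h3 : (n : ℝ) ^ u * (n : ℝ) ^ (1 - u) = n := by
    rw [← Real.rpow_add hn0]; simp
  have hnu1 : 1 ≤ (n : ℝ) ^ u := Real.one_le_rpow (by linarith) hu0
  have hnt : (n : ℝ) ^ t ≤ (n : ℝ) ^ u :=
    Real.rpow_le_rpow_of_exponent_le (by linarith) (le_max_left _ _)
  have hkey : (n : ℝ) ^ u * Real.log n ^ 2 ≤ c / 100 * n := by
    calc (n : ℝ) ^ u * Real.log n ^ 2 ≤ (n : ℝ) ^ u * (c / 100 * (n : ℝ) ^ (1 - u)) :=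
          mul_le_mul_of_nonneg_left hn (by positivity)
      _ = c / 100 * ((n : ℝ) ^ u * (n : ℝ) ^ (1 - u)) := by ring
      _ = c / 100 * n := by rw [h3]
  have hrn : (rn t n : ℝ) ≤ 2 * (n : ℝ) ^ u := by
    unfold rn
    push_cast
    refine max_le (by linarith) ?_
    have := Nat.ceil_lt_add_one (by positivity : 0 ≤ (n : ℝ) ^ t)
    linarith
  have hnu : (n : ℝ) ^ u ≤ c / 100 * n := by
    refine le_trans ?_ hkey
    exact le_mul_of_one_le_right (by positivity) (by nlinarith)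
  have hclog : (Nat.clog 2 (rn t n) : ℝ) ≤ 4 * Real.log n := by
    have h4 : (rn t n : ℝ) ≤ (n : ℝ) * n := by
      have h5 : (n : ℝ) ^ u ≤ n := by
        have := Real.rpow_le_rpow_of_exponent_le (by linarith : (1 : ℝ) ≤ n) hu1.le
        rwa [Real.rpow_one] at this
      nlinarith
    have h5 := clog_le_log (by nlinarith : (1 : ℝ) ≤ (n : ℝ) * n) h4
    rw [Real.log_mul hn0.ne' hn0.ne'] at h5
    linarith
  refine ⟨Nat.le_floor ?_, Nat.le_floor ?_, ?_⟩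
  · push_cast
    have : 0 ≤ c * n := by positivity
    nlinarith
  · push_cast
    have h5 : (Nat.clog 2 (rn t n) : ℝ) ^ 2 ≤ 16 * Real.log n ^ 2 := by
      have h0 : (0 : ℝ) ≤ Nat.clog 2 (rn t n) := Nat.cast_nonneg _
      nlinarith
    have h6 : (rn t n : ℝ) * (Nat.clog 2 (rn t n) : ℝ) ^ 2 ≤
        (2 * (n : ℝ) ^ u) * (16 * Real.log n ^ 2) :=
      mul_le_mul hrn h5 (by positivity) (by positivity)
    have h7 : 0 ≤ c * n := by positivity
    nlinarith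
  · have : 0 ≤ c * n := by positivity
    linarith

/-- First passage of a chain above a level. -/
theorem chain_first {s : ℝ} {K : Finset V} {x y : V} (h : chainIn s K x y) (f : V → ℝ) {c L : ℝ}
    (hf : ∀ u v : V, len (u - v) ≤ s → f v ≤ f u + L) (hx : f x < c) (hy : c ≤ f y) :
    ∃ x' ∈ K, c ≤ f x' ∧ f x' ≤ c + L ∧ chainIn s K x' y := by
  unfold chainIn at h
  induction h using Relation.ReflTransGen.head_induction_on with
  | refl => exact absurd hy (not_le.2 hx)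
  | @head a b hab hb ih =>
    by_cases hc : c ≤ f b
    · exact ⟨b, hab.2.1, hc, by linarith [hf a b hab.2.2], hb⟩
    · exact ih (not_le.1 hc)

theorem lenP_sc_sub {n : ℕ} (hn : 0 < n) (x y : V) :
    lenP (sc n x - sc n y) = len (x - y) / n := by
  have hn' : (0 : ℝ) < n := by exact_mod_cast hn
  unfold lenP len sc
  rw [Prod.fst_sub, Prod.snd_sub]
  dsimp only
  have e : ((x.1 : ℝ) / n - y.1 / n) ^ 2 + ((x.2 : ℝ) / n - y.2 / n) ^ 2 =
      ((((x.1 - y.1 : ℤ) : ℝ)) ^ 2 + (((x.2 - y.2 : ℤ) : ℝ)) ^ 2) / (n : ℝ) ^ 2 := by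
    push_cast
    field_simp
  rw [e, Real.sqrt_div' _ (by positivity), Real.sqrt_sq hn'.le]
  rfl

theorem len_le_of_abs {v : V} {s : ℝ} (h1 : |(v.1 : ℝ)| ≤ s) (h2 : |(v.2 : ℝ)| ≤ s) :
    len v ≤ 3 / 2 * s := by
  have h := lenP_le_of_abs (z := ((v.1 : ℝ), (v.2 : ℝ))) h1 h2
  exact h

theorem lenP_step {z₀ : P} {n : ℕ} (hn : 0 < n) (u v : V) :
    lenP (sc n v - z₀) ≤ lenP (sc n u - z₀) + len (u - v) / n := by
  have h := lenP_le_add_sub (sc n v - z₀) (sc n u - z₀)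
  rw [sub_sub_sub_cancel_right] at h
  have h2 : lenP (sc n v - sc n u) = len (u - v) / n := by
    rw [← lenP_neg, neg_sub, lenP_sc_sub hn]
  linarith

/-- 7.5. -/
theorem cross_energy {α β : ℝ} (hβ : 0 < β) (z₀ : P) {ρ : ℝ} (hρ : 0 < ρ) {a : ℕ}
    (ha : a = 2 ∨ a = 4) {m tau : ℝ} (hm1 : a + 2 / 5 ≤ m) (hm2 : m ≤ a + 1 / 2) (htau : 0 < tau)
    (H : P → ℝ) (hH : ∀ z, |lenP (z - z₀) - m * ρ| ≤ ρ / 50 → tau ≤ H z) {M δ : ℝ} (hM : 0 < M)
    (hMβ : β / ρ ^ 2 ≤ M) (hδ : 0 < δ) (hδρ : δ ≤ ρ / 8) {t : ℝ} (ht : t < 1) :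
    ∀ᶠ n : ℕ in atTop, ∀ (K : Finset V) (x y : V), lenP (sc n x - z₀) ≤ a * ρ →
      (a + 1) * ρ ≤ lenP (sc n y - z₀) → chainIn ((n : ℝ) ^ t) K x y → ∀ φ : V → ℝ,
      (∀ x ∈ K, φ x = smp H n x) → tau ^ 2 / 2209 * β ≤ MP α β z₀ ρ M δ n φ φ := by
  filter_upwards [ev_large hρ hδ, ev_rn (c := ρ / 100) (by positivity) ht,
    ev_rn (c := ρ / 1000) (by positivity) ht, eventually_ge_atTop ⌈300 / ρ⌉₊]
    with n hn hrn hrn' hn300 K x y hx hy hch φ hφ
  obtain ⟨hn0, hnδ, hρn⟩ := hn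
  have hn' : (0 : ℝ) < n := by exact_mod_cast hn0
  have hρn3 : 300 ≤ ρ * n := by
    have h1 : (300 / ρ : ℝ) ≤ n := (Nat.le_ceil _).trans (by exact_mod_cast hn300)
    rw [div_le_iff₀ hρ] at h1
    linarith
  have haR : (a : ℝ) ≤ 4 := by
    rcases ha with rfl | rfl <;> norm_num
  have hs : (n : ℝ) ^ t / n ≤ ρ / 1000 := by
    rw [div_le_iff₀ hn']; exact hrn'.2.2
  -- first point beyond the middle circle
  obtain ⟨x', hx'K, hx'1, hx'2, hch'⟩ := chain_first hch (fun u => lenP (sc n u - z₀))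
    (c := m * ρ) (L := ρ / 1000) (fun u v huv => by
      have h1 := lenP_step (z₀ := z₀) hn0 u v
      have h2 : len (u - v) / n ≤ (n : ℝ) ^ t / n := div_le_div_of_nonneg_right huv hn'.le
      linarith) (by nlinarith) (by nlinarith)
  set k := ⌊ρ / 100 * n⌋₊ with hk
  have hkle : (k : ℝ) ≤ ρ / 100 * n := Nat.floor_le (by positivity)
  have hkge : ρ / 100 * n - 1 ≤ k := by
    have := Nat.lt_floor_add_one (ρ / 100 * n)
    rw [← hk] at this
    linarith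
  have hbox : ∀ z ∈ cbox x' k, |lenP (sc n z - z₀) - m * ρ| ≤ ρ / 50 := by
    intro z hz
    rw [mem_cbox] at hz
    have h1 : |((z - x').1 : ℝ)| ≤ ρ / 100 * n := by
      rw [Prod.fst_sub]
      refine le_trans ?_ hkle
      exact_mod_cast hz.1
    have h2 : |((z - x').2 : ℝ)| ≤ ρ / 100 * n := by
      rw [Prod.snd_sub]
      refine le_trans ?_ hkle
      exact_mod_cast hz.2
    have h3 := len_le_of_abs h1 h2
    have h4 := lenP_step (z₀ := z₀) hn0 z x'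
    have h5 := lenP_step (z₀ := z₀) hn0 x' z
    have h6 : len (x' - z) = len (z - x') := by
      unfold len
      simp only [Prod.fst_sub, Prod.snd_sub]
      push_cast
      congr 1
      ring
    rw [h6] at h5
    have h7 : len (z - x') / n ≤ 3 / 200 * ρ := by
      rw [div_le_iff₀ hn']; linarith
    rw [abs_le]
    constructor <;> linarith
  have hyB : y ∉ cbox x' k := by
    intro h
    have := (abs_le.1 (hbox y h)).2
    nlinarith
  have hge := chain_center_ge (one_le_rn t n) (le_rn t n) hrn.1 hrn.2.1 hch' hyB φ tau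
    (fun z hz hzB => by
      rw [hφ z hz]
      exact hH _ (hbox z hzB))
  have hsub : cbox x' k ⊆ SS z₀ ρ n := by
    intro z hz
    refine mem_SS_of_len hn0 ?_
    have := (abs_le.1 (hbox z hz)).2
    nlinarith
  have hE0 := nnE_nonneg (SS z₀ ρ n) φ
  have hE := nnE_le_MP (α := α) hβ.le z₀ ρ hM.le δ n φ
  have hQ : 0 ≤ MP α β z₀ ρ M δ n φ φ := MP_nonneg hβ.le z₀ ρ hM.le δ n φ
  have h1 : |avg (cbox x' k) φ - avg (R1 z₀ ρ n) φ| ≤ 59 * Real.sqrt (nnE (SS z₀ ρ n) φ) := by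
    have h2 := avg_R1 hρ hn0 hρn (a := x'.1 - k) (b := x'.1 - k + (2 * k + 1 : ℕ))
      (c := x'.2 - k) (d := x'.2 - k + (2 * k + 1 : ℕ)) (by omega) (by omega) hsub φ
    have e : ((x'.1 - k + (2 * k + 1 : ℕ) - (x'.1 - k) : ℤ) : ℝ) = 2 * k + 1 := by
      push_cast; ring
    rw [e] at h2
    have h3 : 54 * (ρ * n) / (2 * (k : ℝ) + 1) + 155 ≤ 59 ^ 2 := by
      have h4 : 54 * (ρ * n) / (2 * (k : ℝ) + 1) ≤ 3240 := by
        rw [div_le_iff₀ (by positivity)]; nlinarith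
      linarith
    have h4 := Real.sqrt_le_sqrt (h2.trans (mul_le_mul_of_nonneg_right h3 hE0))
    rw [Real.sqrt_sq_eq_abs, Real.sqrt_mul (by norm_num), Real.sqrt_sq (by norm_num)] at h4
    exact h4
  have h2 : (avg (R1 z₀ ρ n) φ) ^ 2 ≤ 8 ^ 2 * (MP α β z₀ ρ M δ n φ φ / β) := by
    refine (R1_avg (α := α) hβ hρ hM hδ hδρ hn0 hnδ hρn φ).trans ?_
    have h3 : (δ ^ 2 / β + 1 / M) / ρ ^ 2 ≤ 65 / 64 / β := by
      have h4 : δ ^ 2 / β / ρ ^ 2 ≤ 1 / 64 / β := by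
        rw [div_div, div_div, div_le_div_iff₀ (by positivity) (by positivity)]
        have : δ ^ 2 ≤ (ρ / 8) ^ 2 := pow_le_pow_left₀ hδ.le hδρ 2
        nlinarith
      have h5 : 1 / M / ρ ^ 2 ≤ 1 / β := by
        rw [div_div, div_le_div_iff₀ (by positivity) hβ]
        rw [div_le_iff₀ (by positivity)] at hMβ
        linarith
      have e : 65 / 64 / β = 1 / 64 / β + 1 / β := by ring
      rw [add_div, e]
      linarith
    have e : (8 : ℝ) ^ 2 * (MP α β z₀ ρ M δ n φ φ / β) = (64 / β) * MP α β z₀ ρ M δ n φ φ := by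
      ring
    rw [e]
    refine mul_le_mul_of_nonneg_right ?_ hQ
    have e2 : 64 / β = 60 * (16 / 15 / β) := by ring
    rw [e2]
    refine mul_le_mul_of_nonneg_left (h3.trans ?_) (by norm_num)
    exact div_le_div_of_nonneg_right (by norm_num) hβ.le
  have hQβ : 0 ≤ MP α β z₀ ρ M δ n φ φ / β := div_nonneg hQ hβ.le
  have h3 : |avg (R1 z₀ ρ n) φ| ≤ 8 * Real.sqrt (MP α β z₀ ρ M δ n φ φ / β) := by
    have h4 := Real.sqrt_le_sqrt h2
    rw [Real.sqrt_sq_eq_abs, Real.sqrt_mul (by norm_num), Real.sqrt_sq (by norm_num)] at h4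
    exact h4
  have h4 : Real.sqrt (nnE (SS z₀ ρ n) φ) ≤ 1 / 2 * Real.sqrt (MP α β z₀ ρ M δ n φ φ / β) := by
    have h5 : nnE (SS z₀ ρ n) φ ≤ (1 / 2) ^ 2 * (MP α β z₀ ρ M δ n φ φ / β) := by
      have e : (1 / 2 : ℝ) ^ 2 * (MP α β z₀ ρ M δ n φ φ / β) =
        MP α β z₀ ρ M δ n φ φ / (4 * β) := by field_simp; ring
      rw [e, le_div_iff₀ (by positivity)]
      linarith
    have h6 := Real.sqrt_le_sqrt h5
    rwa [Real.sqrt_mul (by norm_num), Real.sqrt_sq (by norm_num)] at h6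
  have h5 : Real.sqrt (nnE (cbox x' k) φ) ≤ Real.sqrt (nnE (SS z₀ ρ n) φ) :=
    Real.sqrt_le_sqrt (nnE_mono hsub φ)
  set q := Real.sqrt (MP α β z₀ ρ M δ n φ φ / β) with hq
  have h6 : tau ≤ 47 * q := by
    have h7 := le_abs_self (avg (cbox x' k) φ)
    have h8 := abs_sub_abs_le_abs_sub (avg (cbox x' k) φ) (avg (R1 z₀ ρ n) φ)
    linarith
  have h7 : q ^ 2 = MP α β z₀ ρ M δ n φ φ / β := Real.sq_sqrt hQβ
  have h8 : tau ^ 2 ≤ 2209 * (MP α β z₀ ρ M δ n φ φ / β) := by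
    rw [← h7]
    have := pow_le_pow_left₀ htau.le h6 2
    linarith
  have e : 2209 * (MP α β z₀ ρ M δ n φ φ / β) = 2209 * MP α β z₀ ρ M δ n φ φ / β := by ring
  rw [e, le_div_iff₀ hβ] at h8
  linarith

end Pool.Agent.LR.B5
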