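import Pool.Agent.LR.B5.Cross

/-!
# LR-B5-Cut: blocks cut by a chain (7.3 for 7.6)
-/

set_option autoImplicit false

open Filter

namespace Pool.Agent.LR.B5

theorem cel_sub_le {z₀ : P} {δ : ℝ} (hδ : 0 < δ) {n : ℕ} {x u : V}
    (h1 : |(sc n u).1 - (sc n x).1| ≤ 2 * δ) (h2 : |(sc n u).2 - (sc n x).2| ≤ 2 * δ) :
    |(cel z₀ δ n x).1 - (cel z₀ δ n u).1| ≤ 3 ∧ |(cel z₀ δ n x).2 - (cel z₀ δ n u).2| ≤ 3 := by
  have key : ∀ p q z : ℝ, |q - p| ≤ 2 * δ → |⌊(p - z) / δ⌋ - ⌊(q - z) / δ⌋| ≤ 3 := by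
    intro p q z h
    have e1 := Int.floor_le ((p - z) / δ)
    have e2 := Int.lt_floor_add_one ((p - z) / δ)
    have e3 := Int.floor_le ((q - z) / δ)
    have e4 := Int.lt_floor_add_one ((q - z) / δ)
    have e5 : |(q - z) / δ - (p - z) / δ| ≤ 2 := by
      rw [← sub_div, sub_sub_sub_cancel_right, abs_div, abs_of_pos hδ, div_le_iff₀ hδ]
      exact h
    rw [abs_le] at e5
    have e6 : ((⌊(p - z) / δ⌋ - ⌊(q - z) / δ⌋ : ℤ) : ℝ) < 3 + 1 := by
      push_cast; linarith [e5.1, e5.2]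
    have e7 : ((-3 - 1 : ℤ) : ℝ) < ((⌊(p - z) / δ⌋ - ⌊(q - z) / δ⌋ : ℤ) : ℝ) := by
      push_cast; linarith [e5.1, e5.2]
    have e6' : ⌊(p - z) / δ⌋ - ⌊(q - z) / δ⌋ < 3 + 1 := by exact_mod_cast e6
    have e7' : (-3 - 1 : ℤ) < ⌊(p - z) / δ⌋ - ⌊(q - z) / δ⌋ := by exact_mod_cast e7
    rw [abs_le]
    omega
  exact ⟨key _ _ _ h1, key _ _ _ h2⟩

/-- 7.3 for cut blocks (used in 7.6). -/
theorem cutblocks {α β : ℝ} (_hα : 4 < α) (hβ : 0 < β) (z₀ : P) {ρ : ℝ} (hρ : 0 < ρ) :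
    ∃ C > 0, ∀ δ : ℝ, 0 < δ → δ ≤ ρ / 32 → ∀ t : ℝ, t < 1 → ∀ᶠ n : ℕ in atTop,
      ∀ (I : Finset V) (A : Finset V), I ⊆ pin z₀ ρ δ → A ⊆ SS z₀ ρ n →
      (∀ i ∈ I, ∃ x ∈ blk z₀ ρ δ n i, ∃ y, 4 * δ * n ≤ len (x - y) ∧ chainIn ((n : ℝ) ^ t) A x y) →
      ∀ φ : V → ℝ, (∀ x ∈ A, φ x = 0) →
        ∑ i ∈ I, (avg (blk z₀ ρ δ n i) φ) ^ 2 ≤ C * QF α β (SS z₀ ρ n) φ φ := by
  refine ⟨8820 / β, by positivity, fun δ hδ hδρ t ht => ?_⟩
  filter_upwards [ev_large hρ hδ, ev_rn (c := 2 * δ) (by positivity) ht,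
    eventually_ge_atTop ⌈2 / δ⌉₊] with n hn hrn hnδ' I A hI hA hcut φ hφ
  obtain ⟨hn0, hnδ, hρn⟩ := hn
  have hn' : (0 : ℝ) < n := by exact_mod_cast hn0
  choose! xx hxx hyy using hcut
  set k := ⌊2 * δ * n⌋₊ with hk
  set N := (n : ℝ) * δ with hN
  have hkle : (k : ℝ) ≤ 2 * N := by
    have := Nat.floor_le (by positivity : 0 ≤ 2 * δ * (n : ℝ))
    rw [← hk] at this
    linarith
  have hkge : N ≤ k := by
    have := Nat.lt_floor_add_one (2 * δ * (n : ℝ))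
    rw [← hk] at this
    have : 2 * N - 1 < k := by linarith
    linarith
  have hkge1 : (1 : ℝ) ≤ k := by linarith
  -- one block
  have hone : ∀ i ∈ I, (avg (blk z₀ ρ δ n i) φ) ^ 2 ≤ 720 * nnE (cbox (xx i) k) φ := by
    intro i hi
    obtain ⟨y, hy, hch⟩ := hyy i hi
    have hyB : y ∉ cbox (xx i) k := by
      intro h
      rw [mem_cbox] at h
      have h1 : |((y - xx i).1 : ℝ)| ≤ 2 * N := by
        rw [Prod.fst_sub]
        exact le_trans (by exact_mod_cast h.1) hkle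
      have h2 : |((y - xx i).2 : ℝ)| ≤ 2 * N := by
        rw [Prod.snd_sub]
        exact le_trans (by exact_mod_cast h.2) hkle
      have h3 := len_le_of_abs h1 h2
      have h6 : len (xx i - y) = len (y - xx i) := by
        unfold len
        simp only [Prod.fst_sub, Prod.snd_sub]
        push_cast
        congr 1
        ring
      rw [h6] at hy
      linarith
    have h1 := chain_center (one_le_rn t n) (le_rn t n) hrn.1 hrn.2.1 hch hyB φ
      (fun z hz _ => hφ z hz)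
    have hx := hxx i hi
    rw [blk_eq hρ hδ hn0 (hI hi)] at hx ⊢
    have l1 := lo_side_lb z₀.1 δ n i.1
    have u1 := lo_side_ub z₀.1 δ n i.1
    have l2 := lo_side_lb z₀.2 δ n i.2
    have u2 := lo_side_ub z₀.2 δ n i.2
    set a := lo z₀.1 δ n i.1
    set b := lo z₀.1 δ n (i.1 + 1)
    set c := lo z₀.2 δ n i.2
    set d := lo z₀.2 δ n (i.2 + 1)
    rw [mem_rect] at hx
    have hbk : (b - a : ℤ) ≤ k + 1 := by
      have : ((b - a : ℤ) : ℝ) ≤ ((k + 1 : ℤ) : ℝ) := by push_cast at u1 ⊢; linarith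
      exact_mod_cast this
    have hdk : (d - c : ℤ) ≤ k + 1 := by
      have : ((d - c : ℤ) : ℝ) ≤ ((k + 1 : ℤ) : ℝ) := by push_cast at u2 ⊢; linarith
      exact_mod_cast this
    have hsub : rect a b c d ⊆ rect ((xx i).1 - k) ((xx i).1 - k + (2 * k + 1 : ℕ))
        ((xx i).2 - k) ((xx i).2 - k + (2 * k + 1 : ℕ)) := by
      intro z hz
      rw [mem_rect] at hz ⊢
      push_cast
      omega
    have h2 := avg_sub_avg hsub (Finset.Subset.refl _) (by omega) (by omega)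
      (by omega) (by omega) φ
    have e1 : (((xx i).2 - k + (2 * k + 1 : ℕ) - ((xx i).2 - k) : ℤ) : ℝ) = 2 * k + 1 := by
      push_cast; ring
    have e2 : (((xx i).1 - k + (2 * k + 1 : ℕ) - ((xx i).1 - k) : ℤ) : ℝ) = 2 * k + 1 := by
      push_cast; ring
    rw [e1, e2] at h2
    have hE0 := nnE_nonneg (cbox (xx i) k) φ
    have h3 : 2 * (2 * (k : ℝ) + 1) / ((b - a : ℤ) : ℝ) + 2 * (2 * (k : ℝ) + 1) / (2 * (k : ℝ) + 1) ≤
        20 := by
      have h4 : 2 * (2 * (k : ℝ) + 1) / ((b - a : ℤ) : ℝ) ≤ 18 := by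
        rw [div_le_iff₀ (by linarith)]; linarith
      have h5 : 2 * (2 * (k : ℝ) + 1) / (2 * (k : ℝ) + 1) = 2 := by field_simp
      linarith
    have h4 : (avg (rect a b c d) φ - avg (cbox (xx i) k) φ) ^ 2 ≤ 20 * nnE (cbox (xx i) k) φ :=
      h2.trans (mul_le_mul_of_nonneg_right h3 hE0)
    have h5 := alg2 (avg (rect a b c d) φ) (avg (cbox (xx i) k) φ)
    linarith
  -- overlap
  have hsubS : ∀ i ∈ I, cbox (xx i) k ⊆ SS z₀ ρ n := by
    intro i hi z hz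
    refine mem_SS_of_len hn0 ?_
    rw [mem_cbox] at hz
    have h1 : |((z - xx i).1 : ℝ)| ≤ 2 * N := by
      rw [Prod.fst_sub]
      exact le_trans (by exact_mod_cast hz.1) hkle
    have h2 : |((z - xx i).2 : ℝ)| ≤ 2 * N := by
      rw [Prod.snd_sub]
      exact le_trans (by exact_mod_cast hz.2) hkle
    have h3 := len_le_of_abs h1 h2
    have h5 := lenP_step (z₀ := z₀) hn0 (xx i) z
    have h6 : len (xx i - z) = len (z - xx i) := by
      unfold len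
      simp only [Prod.fst_sub, Prod.snd_sub]
      push_cast
      congr 1
      ring
    rw [h6] at h5
    have h7 : len (z - xx i) / n ≤ 3 * δ := by
      rw [div_le_iff₀ hn']; linarith
    have h8 := hxx i hi
    unfold blk at h8
    rw [Finset.mem_filter] at h8
    have h9 := sc_mem_cell (z₀ := z₀) hδ n (xx i)
    rw [h8.2] at h9
    have h10 := (shell_of_pin hρ hδ (hI hi) h9).2
    linarith
  have hover := sum_nnE_le I (fun i => cbox (xx i) k) (SS z₀ ρ n) hsubS 49 (by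
    intro u _
    set J : Finset V := Finset.Icc ((cel z₀ δ n u).1 - 3) ((cel z₀ δ n u).1 + 3) ×ˢ
      Finset.Icc ((cel z₀ δ n u).2 - 3) ((cel z₀ δ n u).2 + 3) with hJ
    have hcard : J.card = 49 := by
      rw [hJ, Finset.card_product, Int.card_Icc, Int.card_Icc]
      have e1 : (((cel z₀ δ n u).1 + 3 + 1 - ((cel z₀ δ n u).1 - 3) : ℤ)).toNat = 7 := by
        have : ((cel z₀ δ n u).1 + 3 + 1 - ((cel z₀ δ n u).1 - 3) : ℤ) = 7 := by ring
        rw [this]; rfl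
      have e2 : (((cel z₀ δ n u).2 + 3 + 1 - ((cel z₀ δ n u).2 - 3) : ℤ)).toNat = 7 := by
        have : ((cel z₀ δ n u).2 + 3 + 1 - ((cel z₀ δ n u).2 - 3) : ℤ) = 7 := by ring
        rw [this]; rfl
      rw [e1, e2]
    rw [← hcard]
    refine Finset.card_le_card fun i hi => ?_
    rw [Finset.mem_filter, mem_cbox] at hi
    have h8 := hxx i hi.1
    unfold blk at h8
    rw [Finset.mem_filter] at h8
    have key : ∀ p q : ℤ, |p - q| ≤ (k : ℤ) → |(p : ℝ) / n - (q : ℝ) / n| ≤ 2 * δ := by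
      intro p q h
      rw [← sub_div, abs_div, abs_of_pos hn', div_le_iff₀ hn']
      have : |(p : ℝ) - q| ≤ (k : ℝ) := by exact_mod_cast h
      linarith
    have h1 := cel_sub_le (z₀ := z₀) hδ (n := n) (x := xx i) (u := u) (key _ _ hi.2.1)
      (key _ _ hi.2.2)
    rw [h8.2] at h1
    rw [hJ, Finset.mem_product, Finset.mem_Icc, Finset.mem_Icc]
    rw [abs_le, abs_le] at h1
    omega) φ
  have hQ := nnE_le_QF (α := α) hβ.le (SS z₀ ρ n) φ
  push_cast at hover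
  calc ∑ i ∈ I, (avg (blk z₀ ρ δ n i) φ) ^ 2 ≤ ∑ i ∈ I, 720 * nnE (cbox (xx i) k) φ :=
        Finset.sum_le_sum hone
    _ = 720 * ∑ i ∈ I, nnE (cbox (xx i) k) φ := by rw [Finset.mul_sum]
    _ ≤ 720 * (49 * nnE (SS z₀ ρ n) φ) := mul_le_mul_of_nonneg_left hover (by norm_num)
    _ ≤ 8820 / β * QF α β (SS z₀ ρ n) φ φ := by
        rw [div_mul_eq_mul_div, le_div_iff₀ hβ]
        linarith

end Pool.Agent.LR.B5
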