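import Pool.Agent.LR.B5.Cross
import Pool.Agent.LR.B3.QdSmp

/-!
# LR-B5-Disc: discretisation of the Laplacian (4.1)
-/

set_option autoImplicit false

open Filter Topology

namespace Pool.Agent.LR.B5

open Pool.Agent.LR.B3 (C11 vP sc_add min_len_nonneg tendsto_min_len kil_le exists_C11 norm_vP_le)

/-! ## Second order Taylor estimate -/

/-- The partial derivatives. -/
noncomputable def D1 (H : P → ℝ) : P → ℝ := fun z => fderiv ℝ H z (1, 0)
/-- see `D1` -/
noncomputable def D2 (H : P → ℝ) : P → ℝ := fun z => fderiv ℝ H z (0, 1)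

theorem fderiv_pair (L : P →L[ℝ] ℝ) (w : P) : L w = w.1 * L (1, 0) + w.2 * L (0, 1) := by
  have : w = w.1 • ((1, 0) : P) + w.2 • ((0, 1) : P) := by
    ext <;> simp
  conv_lhs => rw [this]
  rw [map_add, map_smul, map_smul, smul_eq_mul, smul_eq_mul]

/-- Second derivative in the direction `w`. -/
noncomputable def SD (H : P → ℝ) (z w : P) : ℝ :=
  w.1 * fderiv ℝ (D1 H) z w + w.2 * fderiv ℝ (D2 H) z w

theorem SD_eq (H : P → ℝ) (z w : P) : SD H z w =
    w.1 ^ 2 * fderiv ℝ (D1 H) z (1, 0) + (w.1 * w.2) * (fderiv ℝ (D1 H) z (0, 1) +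
      fderiv ℝ (D2 H) z (1, 0)) + w.2 ^ 2 * fderiv ℝ (D2 H) z (0, 1) := by
  unfold SD
  rw [fderiv_pair (fderiv ℝ (D1 H) z) w, fderiv_pair (fderiv ℝ (D2 H) z) w]
  ring

theorem lapl_eq (H : P → ℝ) (z : P) :
    lapl H z = fderiv ℝ (D1 H) z (1, 0) + fderiv ℝ (D2 H) z (0, 1) := rfl

theorem abs_fst_le_norm (w : P) : |w.1| ≤ ‖w‖ := by
  rw [← Real.norm_eq_abs]; exact norm_fst_le w

theorem abs_snd_le_norm (w : P) : |w.2| ≤ ‖w‖ := by
  rw [← Real.norm_eq_abs]; exact norm_snd_le w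

theorem SD_le {H : P → ℝ} {B : ℝ} (h1 : C11 B (D1 H)) (h2 : C11 B (D2 H)) (z w : P) :
    |SD H z w| ≤ 2 * B * ‖w‖ ^ 2 := by
  have hB := h1.nonneg
  have a1 : |fderiv ℝ (D1 H) z w| ≤ B * ‖w‖ := by
    rw [← Real.norm_eq_abs]
    exact ((fderiv ℝ (D1 H) z).le_opNorm w).trans
      (mul_le_mul_of_nonneg_right (h1.bd z) (norm_nonneg _))
  have a2 : |fderiv ℝ (D2 H) z w| ≤ B * ‖w‖ := by
    rw [← Real.norm_eq_abs]
    exact ((fderiv ℝ (D2 H) z).le_opNorm w).trans
      (mul_le_mul_of_nonneg_right (h2.bd z) (norm_nonneg _))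
  unfold SD
  refine (abs_add_le _ _).trans ?_
  rw [abs_mul, abs_mul]
  have b1 := mul_le_mul (abs_fst_le_norm w) a1 (abs_nonneg _) (norm_nonneg _)
  have b2 := mul_le_mul (abs_snd_le_norm w) a2 (abs_nonneg _) (norm_nonneg _)
  linarith

/-- Third order bound. -/
theorem taylor3 {H : P → ℝ} {B : ℝ} (h0 : Differentiable ℝ H) (h1 : C11 B (D1 H))
    (h2 : C11 B (D2 H)) (z w : P) :
    |H (z + w) + H (z - w) - 2 * H z - SD H z w| ≤ 4 * B * ‖w‖ ^ 3 := by
  have hB := h1.nonneg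
  set F : ℝ → ℝ := fun t => H (z + t • w) + H (z - t • w) - 2 * H z - t ^ 2 * SD H z w with hF
  set F' : ℝ → ℝ := fun t => fderiv ℝ H (z + t • w) w - fderiv ℝ H (z - t • w) w -
    2 * t * SD H z w with hF'
  have hd : ∀ t : ℝ, HasDerivAt F (F' t) t := by
    intro t
    have e1 : HasDerivAt (fun t : ℝ => z + t • w) w t := by
      have := ((hasDerivAt_id t).smul_const w).const_add z
      simpa using this
    have e2 : HasDerivAt (fun t : ℝ => z - t • w) (-w) t := by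
      have := ((hasDerivAt_id t).smul_const w).const_sub z
      simpa using this
    have e3 := (h0 (z + t • w)).hasFDerivAt.comp_hasDerivAt t e1
    have e4 := (h0 (z - t • w)).hasFDerivAt.comp_hasDerivAt t e2
    have e5 : HasDerivAt (fun t : ℝ => t ^ 2 * SD H z w) (2 * t * SD H z w) t := by
      have := ((hasDerivAt_pow 2 t).mul_const (SD H z w))
      simpa using this
    have e6 := ((e3.add e4).sub_const (2 * H z)).sub e5
    refine e6.congr_deriv ?_
    rw [hF', map_neg]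
    ring
  have hb : ∀ t ∈ Set.Icc (0 : ℝ) 1, ‖F' t‖ ≤ 4 * B * ‖w‖ ^ 3 := by
    intro t ht
    have t1 := h1.taylor hB z (t • w)
    have t2 := h1.taylor hB z (-(t • w))
    have t3 := h2.taylor hB z (t • w)
    have t4 := h2.taylor hB z (-(t • w))
    rw [norm_neg, map_neg] at t2 t4
    rw [map_smul, smul_eq_mul] at t1 t2 t3 t4
    have hn : ‖t • w‖ ^ 2 ≤ ‖w‖ ^ 2 := by
      rw [norm_smul, Real.norm_of_nonneg ht.1]
      refine pow_le_pow_left₀ (mul_nonneg ht.1 (norm_nonneg _)) ?_ 2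
      nlinarith [ht.2, norm_nonneg w]
    have hn' : B * ‖t • w‖ ^ 2 ≤ B * ‖w‖ ^ 2 := mul_le_mul_of_nonneg_left hn hB
    have e : F' t = w.1 * ((D1 H (z + t • w) - D1 H z - t * fderiv ℝ (D1 H) z w) -
        (D1 H (z + -(t • w)) - D1 H z - -(t * fderiv ℝ (D1 H) z w))) +
        w.2 * ((D2 H (z + t • w) - D2 H z - t * fderiv ℝ (D2 H) z w) -
        (D2 H (z + -(t • w)) - D2 H z - -(t * fderiv ℝ (D2 H) z w))) := by
      rw [hF']
      dsimp only
      rw [fderiv_pair (fderiv ℝ H (z + t • w)) w, fderiv_pair (fderiv ℝ H (z - t • w)) w]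
      unfold SD D1 D2
      rw [← sub_eq_add_neg]
      ring
    rw [e, Real.norm_eq_abs]
    refine (abs_add_le _ _).trans ?_
    rw [abs_mul, abs_mul]
    have u1 : |(D1 H (z + t • w) - D1 H z - t * fderiv ℝ (D1 H) z w) -
        (D1 H (z + -(t • w)) - D1 H z - -(t * fderiv ℝ (D1 H) z w))| ≤ 2 * (B * ‖w‖ ^ 2) := by
      refine (abs_sub _ _).trans ?_
      linarith
    have u2 : |(D2 H (z + t • w) - D2 H z - t * fderiv ℝ (D2 H) z w) -
        (D2 H (z + -(t • w)) - D2 H z - -(t * fderiv ℝ (D2 H) z w))| ≤ 2 * (B * ‖w‖ ^ 2) := by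
      refine (abs_sub _ _).trans ?_
      linarith
    have v1 := mul_le_mul (abs_fst_le_norm w) u1 (abs_nonneg _) (norm_nonneg _)
    have v2 := mul_le_mul (abs_snd_le_norm w) u2 (abs_nonneg _) (norm_nonneg _)
    calc _ ≤ ‖w‖ * (2 * (B * ‖w‖ ^ 2)) + ‖w‖ * (2 * (B * ‖w‖ ^ 2)) := add_le_add v1 v2
      _ = 4 * B * ‖w‖ ^ 3 := by ring
  have key := Convex.norm_image_sub_le_of_norm_hasDerivWithin_le (f := F) (f' := F')
    (C := 4 * B * ‖w‖ ^ 3) (s := Set.Icc (0 : ℝ) 1) (x := 0) (y := 1)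
    (fun t _ => (hd t).hasDerivWithinAt) hb (convex_Icc 0 1) (by simp) (by simp)
  have e0 : F 0 = 0 := by rw [hF]; simp; ring
  have e1 : F 1 = H (z + w) + H (z - w) - 2 * H z - SD H z w := by rw [hF]; simp
  rw [e0, e1] at key
  simpa using key

theorem taylor2 {H : P → ℝ} {B : ℝ} (h0 : C11 B H) (h1 : C11 B (D1 H))
    (h2 : C11 B (D2 H)) (z w : P) :
    |H (z + w) + H (z - w) - 2 * H z - SD H z w| ≤ 4 * B * (‖w‖ ^ 2 * min 1 ‖w‖) := by
  have hB := h1.nonneg
  rcases le_total 1 ‖w‖ with h | h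
  · rw [min_eq_left h, mul_one]
    have t1 := h0.taylor hB z w
    have t2 := h0.taylor hB z (-w)
    rw [norm_neg, map_neg, ← sub_eq_add_neg] at t2
    have t3 := SD_le h1 h2 z w
    have e : H (z + w) + H (z - w) - 2 * H z - SD H z w =
      (H (z + w) - H z - fderiv ℝ H z w) + (H (z - w) - H z - -fderiv ℝ H z w) + -SD H z w := by ring
    rw [e]
    refine (abs_add_le _ _).trans ?_
    rw [abs_neg]
    have := abs_add_le (H (z + w) - H z - fderiv ℝ H z w) (H (z - w) - H z - -fderiv ℝ H z w)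
    linarith
  · rw [min_eq_right h]
    have := taylor3 h0.diff h1 h2 z w
    calc _ ≤ _ := this
      _ = _ := by ring

theorem exists_C11_3 {H : P → ℝ} (hH : ContDiff ℝ ((⊤ : ℕ∞) : WithTop ℕ∞) H)
    (hc : HasCompactSupport H) : ∃ B, C11 B H ∧ C11 B (D1 H) ∧ C11 B (D2 H) := by
  have hf : ContDiff ℝ ((⊤ : ℕ∞) : WithTop ℕ∞) (fderiv ℝ H) :=
    hH.fderiv_right (by simp)
  have h1 : ContDiff ℝ ((⊤ : ℕ∞) : WithTop ℕ∞) (D1 H) := hf.clm_apply contDiff_const
  have h2 : ContDiff ℝ ((⊤ : ℕ∞) : WithTop ℕ∞) (D2 H) := hf.clm_apply contDiff_const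
  have hcf : HasCompactSupport (fderiv ℝ H) := hc.fderiv (𝕜 := ℝ)
  have c1 : HasCompactSupport (D1 H) := hcf.comp_left (g := fun L : P →L[ℝ] ℝ => L (1, 0)) rfl
  have c2 : HasCompactSupport (D2 H) := hcf.comp_left (g := fun L : P →L[ℝ] ℝ => L (0, 1)) rfl
  have two : (2 : WithTop ℕ∞) ≤ ((⊤ : ℕ∞) : WithTop ℕ∞) :=
    WithTop.coe_le_coe.2 (le_top : (2 : ℕ∞) ≤ ⊤)
  obtain ⟨B0, _, b0⟩ := exists_C11 (hH.of_le two) hc
  obtain ⟨B1, _, b1⟩ := exists_C11 (h1.of_le two) c1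
  obtain ⟨B2, _, b2⟩ := exists_C11 (h2.of_le two) c2
  have mono : ∀ {B B' : ℝ} {W : P → ℝ}, B ≤ B' → C11 B W → C11 B' W := by
    intro B B' W hle h
    exact ⟨h.diff, fun z => (h.bd z).trans hle, fun z w => (h.lip z w).trans
      (mul_le_mul_of_nonneg_right hle (norm_nonneg _))⟩
  refine ⟨max B0 (max B1 B2), mono (le_max_left _ _) b0,
    mono ((le_max_left _ _).trans (le_max_right _ _)) b1,
    mono ((le_max_right _ _).trans (le_max_right _ _)) b2⟩

/-! ## The operator -/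

theorem QF_op (α β : ℝ) (S : Finset V) (h φ : V → ℝ) :
    QF α β S h φ = ∑ x ∈ S, φ x * ∑ y ∈ S, JJ α β x y * (h x - h y) := by
  rw [QF_apply]
  have h1 : ∑ x ∈ S, ∑ y ∈ S, JJ α β x y / 2 * (h x - h y) * (φ x - φ y) =
      ∑ x ∈ S, ∑ y ∈ S, JJ α β x y / 2 * (h x - h y) * φ x +
      ∑ x ∈ S, ∑ y ∈ S, JJ α β x y / 2 * (h y - h x) * φ y := by
    rw [← Finset.sum_add_distrib]
    refine Finset.sum_congr rfl fun x _ => ?_
    rw [← Finset.sum_add_distrib]
    refine Finset.sum_congr rfl fun y _ => ?_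
    ring
  have h2 : ∑ x ∈ S, ∑ y ∈ S, JJ α β x y / 2 * (h y - h x) * φ y =
      ∑ x ∈ S, ∑ y ∈ S, JJ α β x y / 2 * (h x - h y) * φ x := by
    rw [Finset.sum_comm]
    refine Finset.sum_congr rfl fun x _ => Finset.sum_congr rfl fun y _ => ?_
    rw [JJ_symm]
  rw [h1, h2, ← Finset.sum_add_distrib]
  refine Finset.sum_congr rfl fun x _ => ?_
  rw [Finset.mul_sum, ← Finset.sum_add_distrib]
  refine Finset.sum_congr rfl fun y _ => ?_
  ring

theorem op_split {α β : ℝ} (hα : 2 < α) (hβ : 0 ≤ β) (S : Finset V) (h : V → ℝ) (B : ℝ)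
    (hB : ∀ x, |h x| ≤ B) (hS : Supp S h) (x : V) :
    ∑ y ∈ S, JJ α β x y * (h x - h y) =
      (∑' y : V, JJ α β x y * (h x - h y)) - kil α β S x * h x := by
  have hJ := summable_JJ hα β x
  have s1 : Summable fun y : V => JJ α β x y * (h x - h y) := by
    refine (hJ.mul_right (2 * B)).of_norm_bounded fun y => ?_
    rw [Real.norm_eq_abs, abs_mul, abs_of_nonneg (Pool.Agent.LR.JJ_nonneg hβ x y)]
    refine mul_le_mul_of_nonneg_left ?_ (Pool.Agent.LR.JJ_nonneg hβ x y)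
    refine (abs_sub _ _).trans ?_
    linarith [hB x, hB y]
  have s2 := (summable_kil hα hβ S x).mul_right (h x)
  have e1 : kil α β S x * h x = ∑' y : V, (if y ∈ S then 0 else JJ α β x y) * h x := by
    unfold kil
    rw [tsum_mul_right]
  rw [e1, ← s1.tsum_sub s2]
  rw [tsum_eq_sum (s := S)]
  · refine Finset.sum_congr rfl fun y hy => ?_
    rw [if_pos hy]; ring
  · intro y hy
    rw [if_neg hy, hS y hy]; ring

theorem tsum_symm {α β : ℝ} (hα : 2 < α) (hβ : 0 ≤ β) (h : V → ℝ) (B : ℝ)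
    (hB : ∀ x, |h x| ≤ B) (x : V) :
    2 * ∑' y : V, JJ α β x y * (h x - h y) =
      ∑' v : V, Jc α β v * (2 * h x - h (x + v) - h (x - v)) := by
  have hJ := summable_Jc hα β
  have hs : ∀ u : V → V, Summable fun v : V => Jc α β v * (h x - h (u v)) := by
    intro u
    refine (hJ.mul_right (2 * B)).of_norm_bounded fun y => ?_
    rw [Real.norm_eq_abs, abs_mul, abs_of_nonneg (Jc_nonneg hβ y)]
    refine mul_le_mul_of_nonneg_left ?_ (Jc_nonneg hβ y)
    refine (abs_sub _ _).trans ?_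
    linarith [hB x, hB (u y)]
  have e1 : ∑' y : V, JJ α β x y * (h x - h y) = ∑' v : V, Jc α β v * (h x - h (x + v)) := by
    rw [← (Equiv.addLeft x).tsum_eq (fun y : V => JJ α β x y * (h x - h y))]
    refine tsum_congr fun v => ?_
    have : JJ α β x (x + v) = Jc α β v := by
      unfold JJ
      rw [sub_add_cancel_left, Jc_neg]
    rw [Equiv.coe_addLeft, this]
  have e2 : ∑' v : V, Jc α β v * (h x - h (x + v)) = ∑' v : V, Jc α β v * (h x - h (x - v)) := by
    rw [← (Equiv.neg V).tsum_eq (fun v : V => Jc α β v * (h x - h (x + v)))]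
    refine tsum_congr fun v => ?_
    rw [Equiv.neg_apply, Jc_neg, ← sub_eq_add_neg]
  have e3 : ∑' v : V, Jc α β v * (2 * h x - h (x + v) - h (x - v)) =
      ∑' v : V, Jc α β v * (h x - h (x + v)) + ∑' v : V, Jc α β v * (h x - h (x - v)) := by
    rw [← (hs (fun v => x + v)).tsum_add (hs (fun v => x - v))]
    refine tsum_congr fun v => ?_
    ring
  rw [e3, e1, ← e2]
  ring

/-- Sum of the second derivatives against the couplings. -/
theorem tsum_SD {α β : ℝ} (hα : 4 < α) (hβ : 0 ≤ β) (H : P → ℝ) (z : P) (s : ℝ) :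
    ∑' v : V, Jc α β v * SD H z (s • vP v) = 2 * cc α β * s ^ 2 * lapl H z ∧
      Summable fun v : V => Jc α β v * SD H z (s • vP v) := by
  set a := fderiv ℝ (D1 H) z (1, 0)
  set b := fderiv ℝ (D1 H) z (0, 1) + fderiv ℝ (D2 H) z (1, 0)
  set c := fderiv ℝ (D2 H) z (0, 1)
  have e : ∀ v : V, Jc α β v * SD H z (s • vP v) = (s ^ 2 * a) * (Jc α β v * (v.1 : ℝ) ^ 2) +
      (s ^ 2 * b) * (Jc α β v * ((v.1 : ℝ) * v.2)) + (s ^ 2 * c) * (Jc α β v * (v.2 : ℝ) ^ 2) := by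
    intro v
    rw [SD_eq]
    unfold vP
    simp only [Prod.smul_fst, Prod.smul_snd, smul_eq_mul]
    ring
  have s1 := (summable_Jc_fst_sq hα hβ).mul_left (s ^ 2 * a)
  have s2 := (summable_Jc_mul hα hβ).mul_left (s ^ 2 * b)
  have s3 := (summable_Jc_snd_sq hα hβ).mul_left (s ^ 2 * c)
  constructor
  · simp_rw [e]
    rw [(s1.add s2).tsum_add s3, s1.tsum_add s2, tsum_mul_left, tsum_mul_left, tsum_mul_left,
      tsum_Jc_fst_sq hα hβ, tsum_Jc_mul, tsum_Jc_snd_sq hα hβ, lapl_eq]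
    ring
  · simp_rw [e]
    exact (s1.add s2).add s3

/-- The error term. -/
noncomputable def dErr (α β : ℝ) (n : ℕ) : ℝ := ∑' v : V, Jc α β v * (len v ^ 2 * min 1 (len v / n))

theorem summable_dErr {α β : ℝ} (hα : 4 < α) (hβ : 0 ≤ β) (n : ℕ) :
    Summable fun v : V => Jc α β v * (len v ^ 2 * min 1 (len v / n)) := by
  refine (summable_Jc_len_sq hα β).of_nonneg_of_le (fun v => ?_) fun v => ?_
  · have := min_len_nonneg n v
    have := Jc_nonneg (α := α) hβ v
    positivity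
  · refine mul_le_mul_of_nonneg_left ?_ (Jc_nonneg hβ v)
    exact mul_le_of_le_one_right (sq_nonneg _) (min_le_left _ _)

theorem tendsto_dErr {α β : ℝ} (hα : 4 < α) (hβ : 0 ≤ β) : Tendsto (dErr α β) atTop (𝓝 0) := by
  have h := tendsto_tsum_of_dominated_convergence (𝓕 := atTop)
    (f := fun (n : ℕ) (v : V) => Jc α β v * (len v ^ 2 * min 1 (len v / n))) (g := fun _ => (0 : ℝ))
    (bound := fun v => Jc α β v * len v ^ 2) (summable_Jc_len_sq hα β) (fun v => by
      have h2 := ((tendsto_min_len v).const_mul (len v ^ 2)).const_mul (Jc α β v)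
      simpa using h2) (by
      refine Eventually.of_forall fun n v => ?_
      have h1 := min_len_nonneg n v
      have h2 := Jc_nonneg (α := α) hβ v
      rw [Real.norm_eq_abs, abs_of_nonneg (by positivity)]
      refine mul_le_mul_of_nonneg_left ?_ h2
      exact mul_le_of_le_one_right (sq_nonneg _) (min_le_left _ _))
  rw [tsum_zero] at h
  exact h

theorem dErr_nonneg {α β : ℝ} (hβ : 0 ≤ β) (n : ℕ) : 0 ≤ dErr α β n :=
  tsum_nonneg fun v => by
    have h1 := min_len_nonneg n v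
    have h2 := Jc_nonneg (α := α) hβ v
    positivity

theorem full_op {α β : ℝ} (hα : 4 < α) (hβ : 0 ≤ β) {H : P → ℝ} {B : ℝ} (h0 : C11 B H)
    (h1 : C11 B (D1 H)) (h2 : C11 B (D2 H)) (A : ℝ) (hA : ∀ z, |H z| ≤ A) {n : ℕ} (hn : 0 < n)
    (x : V) :
    |(∑' y : V, JJ α β x y * (smp H n x - smp H n y)) + cc α β * lapl H (sc n x) / (n : ℝ) ^ 2| ≤
      2 * B * dErr α β n / (n : ℝ) ^ 2 := by
  have hn' : (0 : ℝ) < n := by exact_mod_cast hn
  have hB := h1.nonneg
  have e1 := tsum_symm (α := α) (by linarith) hβ (smp H n) A (fun x => hA _) x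
  obtain ⟨e2, s2⟩ := tsum_SD hα hβ H (sc n x) ((n : ℝ)⁻¹)
  have hsc : ∀ v : V, sc n (x - v) = sc n x - (n : ℝ)⁻¹ • vP v := by
    intro v
    unfold sc vP
    ext
    · simp only [Prod.fst_sub, Int.cast_sub, Prod.smul_fst, smul_eq_mul]; ring
    · simp only [Prod.snd_sub, Int.cast_sub, Prod.smul_snd, smul_eq_mul]; ring
  have hterm : ∀ v : V, |Jc α β v * (2 * smp H n x - smp H n (x + v) - smp H n (x - v)) +
      Jc α β v * SD H (sc n x) ((n : ℝ)⁻¹ • vP v)| ≤
      (4 * B / (n : ℝ) ^ 2) * (Jc α β v * (len v ^ 2 * min 1 (len v / n))) := by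
    intro v
    have t := taylor2 h0 h1 h2 (sc n x) ((n : ℝ)⁻¹ • vP v)
    unfold smp
    rw [sc_add, hsc]
    have hnorm : ‖(n : ℝ)⁻¹ • vP v‖ ≤ len v / n := by
      rw [norm_smul, norm_inv, Real.norm_of_nonneg hn'.le, inv_mul_eq_div]
      exact div_le_div_of_nonneg_right (norm_vP_le v) hn'.le
    have hJ := Jc_nonneg (α := α) hβ v
    have t2 : 4 * B * (‖(n : ℝ)⁻¹ • vP v‖ ^ 2 * min 1 ‖(n : ℝ)⁻¹ • vP v‖) ≤
        4 * B * ((len v / n) ^ 2 * min 1 (len v / n)) := by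
      refine mul_le_mul_of_nonneg_left ?_ (by positivity)
      refine mul_le_mul (pow_le_pow_left₀ (norm_nonneg _) hnorm 2) (min_le_min_left _ hnorm)
        (le_min zero_le_one (norm_nonneg _)) (by positivity)
    have e3 : Jc α β v * (2 * H (sc n x) - H (sc n x + (n : ℝ)⁻¹ • vP v) -
        H (sc n x - (n : ℝ)⁻¹ • vP v)) + Jc α β v * SD H (sc n x) ((n : ℝ)⁻¹ • vP v) =
        -(Jc α β v * (H (sc n x + (n : ℝ)⁻¹ • vP v) + H (sc n x - (n : ℝ)⁻¹ • vP v) -
          2 * H (sc n x) - SD H (sc n x) ((n : ℝ)⁻¹ • vP v))) := by ring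
    rw [e3, abs_neg, abs_mul, abs_of_nonneg hJ]
    calc _ ≤ Jc α β v * (4 * B * ((len v / n) ^ 2 * min 1 (len v / n))) :=
          mul_le_mul_of_nonneg_left (t.trans t2) hJ
      _ = _ := by rw [div_pow]; field_simp
  have sE := (summable_dErr hα hβ n).mul_left (4 * B / (n : ℝ) ^ 2)
  have sT : Summable fun v : V => Jc α β v * (2 * smp H n x - smp H n (x + v) - smp H n (x - v)) +
      Jc α β v * SD H (sc n x) ((n : ℝ)⁻¹ • vP v) :=
    sE.of_norm_bounded fun v => by rw [Real.norm_eq_abs]; exact hterm v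
  have s1 : Summable fun v : V => Jc α β v * (2 * smp H n x - smp H n (x + v) - smp H n (x - v)) := by
    refine (sT.sub s2).congr fun v => ?_
    ring
  have h3 : |∑' v : V, (Jc α β v * (2 * smp H n x - smp H n (x + v) - smp H n (x - v)) +
      Jc α β v * SD H (sc n x) ((n : ℝ)⁻¹ • vP v))| ≤ 4 * B / (n : ℝ) ^ 2 * dErr α β n := by
    have h4 := tsum_of_norm_bounded sE.hasSum (fun v => by
      rw [Real.norm_eq_abs]; exact hterm v)
    rw [Real.norm_eq_abs, tsum_mul_left] at h4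
    exact h4
  rw [s1.tsum_add s2, e2, ← e1] at h3
  have e4 : 2 * (∑' y : V, JJ α β x y * (smp H n x - smp H n y)) +
      2 * cc α β * (n : ℝ)⁻¹ ^ 2 * lapl H (sc n x) =
      2 * ((∑' y : V, JJ α β x y * (smp H n x - smp H n y)) +
        cc α β * lapl H (sc n x) / (n : ℝ) ^ 2) := by
    rw [inv_pow]; field_simp
  rw [e4, abs_mul, abs_of_pos (by norm_num : (0 : ℝ) < 2)] at h3
  have e5 : 4 * B / (n : ℝ) ^ 2 * dErr α β n = 2 * (2 * B * dErr α β n / (n : ℝ) ^ 2) := by ring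
  rw [e5] at h3
  linarith

/-- 4.1 for functions supported in the ball of radius `6ρ`. -/
theorem disc {α β : ℝ} (hα : 4 < α) (hβ : 0 < β) (z₀ : P) {ρ : ℝ} (hρ : 0 < ρ) (H : P → ℝ)
    (hH : ContDiff ℝ ((⊤ : ℕ∞) : WithTop ℕ∞) H) (hc : HasCompactSupport H)
    (hs : ∀ z, H z ≠ 0 → lenP (z - z₀) ≤ 6 * ρ) :
    ∃ eps : ℕ → ℝ, Tendsto eps atTop (𝓝 0) ∧ ∀ᶠ n : ℕ in atTop, 0 ≤ eps n ∧ ∀ φ : V → ℝ,
      |QF α β (SS z₀ ρ n) (smp H n) φ +
        ∑ x ∈ SS z₀ ρ n, cc α β * lapl H (sc n x) / (n : ℝ) ^ 2 * φ x| ≤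
        eps n / (n : ℝ) ^ 2 * ∑ x ∈ SS z₀ ρ n, |φ x| := by
  obtain ⟨B, h0, h1, h2⟩ := exists_C11_3 hH hc
  obtain ⟨A, hA⟩ := hc.exists_bound_of_continuous hH.continuous
  have hA' : ∀ z, |H z| ≤ A := hA
  have hA0 : 0 ≤ A := (abs_nonneg _).trans (hA' 0)
  obtain ⟨C, hC, htail⟩ := tail_Jc (α := α) (s := α / 2) (by linarith) (by linarith) hβ.le
  refine ⟨fun n => 2 * B * dErr α β n + A * (C * (7 * ρ * n) ^ (-(α / 2))) * (n : ℝ) ^ 2, ?_, ?_⟩
  · have t1 := (tendsto_dErr hα hβ.le).const_mul (2 * B)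
    have t2 : Tendsto (fun n : ℕ => A * (C * (7 * ρ * n) ^ (-(α / 2))) * (n : ℝ) ^ 2) atTop (𝓝 0) := by
      have t3 : Tendsto (fun n : ℕ => (n : ℝ) ^ (-(α / 2 - 2))) atTop (𝓝 0) :=
        (tendsto_rpow_neg_atTop (by linarith)).comp tendsto_natCast_atTop_atTop
      have t4 := t3.const_mul (A * C * (7 * ρ) ^ (-(α / 2)))
      rw [mul_zero] at t4
      refine t4.congr' ?_
      filter_upwards [eventually_gt_atTop 0] with n hn
      have hn' : (0 : ℝ) < n := by exact_mod_cast hn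
      rw [Real.mul_rpow (by positivity) hn'.le]
      have e : (n : ℝ) ^ (-(α / 2 - 2)) = (n : ℝ) ^ (-(α / 2)) * (n : ℝ) ^ 2 := by
        rw [← Real.rpow_natCast, ← Real.rpow_add hn']
        congr 1
        push_cast
        ring
      rw [e]
      ring
    have t5 := t1.add t2
    rw [mul_zero, add_zero] at t5
    exact t5
  · filter_upwards [eventually_gt_atTop 0] with n hn
    have hn' : (0 : ℝ) < n := by exact_mod_cast hn
    have hB := h1.nonneg
    have hd := dErr_nonneg (α := α) hβ.le n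
    have hpow : 0 ≤ C * (7 * ρ * (n : ℝ)) ^ (-(α / 2)) := by positivity
    refine ⟨by positivity, fun φ => ?_⟩
    have hSupp : Supp (SS z₀ ρ n) (smp H n) := by
      intro x hx
      by_contra hne
      exact hx (mem_SS_of_len hn ((hs _ hne).trans (by linarith)))
    have hx : ∀ x ∈ SS z₀ ρ n, |(∑ y ∈ SS z₀ ρ n, JJ α β x y * (smp H n x - smp H n y)) +
        cc α β * lapl H (sc n x) / (n : ℝ) ^ 2| ≤
        (2 * B * dErr α β n + A * (C * (7 * ρ * n) ^ (-(α / 2))) * (n : ℝ) ^ 2) / (n : ℝ) ^ 2 := by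
      intro x _
      rw [op_split (by linarith) hβ.le _ (smp H n) A (fun x => hA' _) hSupp x]
      have f1 := full_op hα hβ.le h0 h1 h2 A hA' hn x
      have f2 : |kil α β (SS z₀ ρ n) x * smp H n x| ≤ A * (C * (7 * ρ * n) ^ (-(α / 2))) := by
        by_cases hz : smp H n x = 0
        · rw [hz, mul_zero, abs_zero]
          exact mul_nonneg hA0 hpow
        · have g1 : lenP (sc n x - z₀) ≤ 6 * ρ := hs _ hz
          have g2 : ∀ y, y ∉ SS z₀ ρ n → 7 * ρ * n < len (x - y) := by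
            intro y hy
            have g3 : 13 * ρ < lenP (sc n y - z₀) := by
              by_contra hle
              exact hy (mem_SS_of_len hn (not_lt.1 hle))
            have g4 := lenP_step (z₀ := z₀) hn x y
            have g5 : 7 * ρ < len (x - y) / n := by linarith
            rwa [lt_div_iff₀ hn'] at g5
          have g6 := (kil_le (α := α) (by linarith) hβ.le (SS z₀ ρ n) x _ g2).trans
            (htail _ (by positivity))
          rw [abs_mul, abs_of_nonneg (kil_nonneg hβ.le _ _), mul_comm]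
          exact mul_le_mul (hA' _) g6 (kil_nonneg hβ.le _ _) hA0
      have e : ((∑' y : V, JJ α β x y * (smp H n x - smp H n y)) -
          kil α β (SS z₀ ρ n) x * smp H n x) + cc α β * lapl H (sc n x) / (n : ℝ) ^ 2 =
          ((∑' y : V, JJ α β x y * (smp H n x - smp H n y)) +
            cc α β * lapl H (sc n x) / (n : ℝ) ^ 2) + -(kil α β (SS z₀ ρ n) x * smp H n x) := by
        ring
      rw [e, add_div]
      refine (abs_add_le _ _).trans ?_
      rw [abs_neg]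
      refine add_le_add f1 (f2.trans (le_of_eq ?_))
      field_simp
    rw [QF_op, ← Finset.sum_add_distrib]
    refine (Finset.abs_sum_le_sum_abs _ _).trans ?_
    rw [Finset.mul_sum]
    refine Finset.sum_le_sum fun x hxS => ?_
    have e : φ x * ∑ y ∈ SS z₀ ρ n, JJ α β x y * (smp H n x - smp H n y) +
        cc α β * lapl H (sc n x) / (n : ℝ) ^ 2 * φ x =
        ((∑ y ∈ SS z₀ ρ n, JJ α β x y * (smp H n x - smp H n y)) +
          cc α β * lapl H (sc n x) / (n : ℝ) ^ 2) * φ x := by ring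
    rw [e, abs_mul]
    exact mul_le_mul_of_nonneg_right (hx x hxS) (abs_nonneg _)

end Pool.Agent.LR.B5
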