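import Pool.Agent.LR.B5.Cells

/-!
# LR-B5-GapCard: number of lattice sites in a thin annulus (6.4)

## Plan (complete)

Put `z x = sc n x - z₀`.  Split `T` into eight classes: coordinate `i` with `z_j² ≤ z_i²`, sign of `z_i`, inner or
outer annulus (`r0 < |z| < r1`, `r1 - r0 = lam ρ`, `a ρ ≤ r0`, `r1 ≤ (a+1) ρ`).  In one class, say `i = 1`,
`z_1 > 0`: two sites `x, x'` of the same row (`x.2 = x'.2`) satisfy `z_1'² - z_1² < r1² - r0² ≤ 2 (a+1) lam ρ²` and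
`z_1 + z_1' ≥ √2 r0 ≥ √2 a ρ` (`2 z_1² ≥ |z|²`), so `|x.1 - x'.1| ≤ 3 lam ρ n` (`2(a+1)/(√2 a) < 3`); hence a row has at
most `3 lam ρ n + 1 ≤ 4 lam ρ n` sites of the class (`n` large): the fibre over `x.2` is contained in an
`Icc m (m + ⌊3 lam ρ n⌋)` (`m` = its minimum).  Number of rows: `x.2 ∈ [n(z₀.2 - 5ρ), n(z₀.2+5ρ)]`, at most
`10 ρ n + 1 ≤ 11 ρ n`.  (`Finset.card_le_mul_card_image` or `Finset.card_eq_sum_card_fiberwise`.)  Total at most
`8 * 44 lam ρ² n²`.  For `i = 2` exchange the coordinates (or prove the row lemma for a general finite set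
`T ⊆ V` in terms of `Prod.swap`).
-/

set_option autoImplicit false

open Filter

namespace Pool.Agent.LR.B5

private theorem row_card (T : Finset V) (D : ℕ)
    (h1 : ∀ x ∈ T, ∀ y ∈ T, x.2 = y.2 → x.1 - y.1 ≤ D) :
    T.card ≤ (D + 1) * (T.image Prod.snd).card := by
  refine Finset.card_le_mul_card_image T (D + 1) ?_
  intro b hb
  rw [Finset.mem_image] at hb
  obtain ⟨w, hw, hwb⟩ := hb
  have hne : (T.filter (fun x => x.2 = b)).Nonempty := ⟨w, Finset.mem_filter.2 ⟨hw, hwb⟩⟩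
  obtain ⟨x0, hx0, hmin⟩ := (T.filter (fun x => x.2 = b)).exists_min_image (fun x => x.1) hne
  rw [Finset.mem_filter] at hx0
  have h2 : (T.filter (fun x => x.2 = b)).card ≤ (Finset.Icc x0.1 (x0.1 + D)).card := by
    refine Finset.card_le_card_of_injOn (fun x => x.1) ?_ ?_
    · intro x hx
      have hx' := hmin x hx
      rw [Finset.mem_coe, Finset.mem_filter] at hx
      have h3 := h1 x hx.1 x0 hx0.1 (hx.2.trans hx0.2.symm)
      rw [Finset.mem_coe, Finset.mem_Icc]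
      dsimp only
      constructor
      · exact hx'
      · omega
    · intro x hx y hy hxy
      rw [Finset.mem_coe, Finset.mem_filter] at hx hy
      exact Prod.ext hxy (hx.2.trans hy.2.symm)
  rw [Int.card_Icc] at h2
  refine h2.trans ?_
  omega

private theorem rows_card (c : ℝ) {ρ : ℝ} {n : ℕ} (hn : 1 ≤ ρ * n) (T : Finset V)
    (h : ∀ x ∈ T, |(x.2 : ℝ) / n - c| ≤ 5 * ρ) :
    ((T.image Prod.snd).card : ℝ) ≤ 11 * ρ * n := by
  have hn0 : (0 : ℝ) < n := by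
    rcases Nat.eq_zero_or_pos n with h0 | h0
    · rw [h0] at hn
      norm_num at hn
    · exact_mod_cast h0
  have hsub : T.image Prod.snd ⊆ Finset.Icc ⌈(n : ℝ) * (c - 5 * ρ)⌉ ⌊(n : ℝ) * (c + 5 * ρ)⌋ := by
    intro b hb
    rw [Finset.mem_image] at hb
    obtain ⟨x, hx, rfl⟩ := hb
    have h1 := abs_le.1 (h x hx)
    have h2 : (x.2 : ℝ) = n * ((x.2 : ℝ) / n) := by field_simp
    rw [Finset.mem_Icc, Int.ceil_le, Int.le_floor]
    constructor
    · rw [h2]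
      exact mul_le_mul_of_nonneg_left (by linarith [h1.1]) hn0.le
    · rw [h2]
      exact mul_le_mul_of_nonneg_left (by linarith [h1.2]) hn0.le
  have h3 := Finset.card_le_card hsub
  rw [Int.card_Icc] at h3
  have h4 : ((T.image Prod.snd).card : ℝ) ≤
      ((⌊(n : ℝ) * (c + 5 * ρ)⌋ + 1 - ⌈(n : ℝ) * (c - 5 * ρ)⌉).toNat : ℝ) := by exact_mod_cast h3
  refine h4.trans ?_
  have h5 := Int.floor_le ((n : ℝ) * (c + 5 * ρ))
  have h6 := Int.le_ceil ((n : ℝ) * (c - 5 * ρ))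
  rcases le_total 0 (⌊(n : ℝ) * (c + 5 * ρ)⌋ + 1 - ⌈(n : ℝ) * (c - 5 * ρ)⌉) with h7 | h7
  · have h8 : ((⌊(n : ℝ) * (c + 5 * ρ)⌋ + 1 - ⌈(n : ℝ) * (c - 5 * ρ)⌉).toNat : ℝ) =
        ((⌊(n : ℝ) * (c + 5 * ρ)⌋ + 1 - ⌈(n : ℝ) * (c - 5 * ρ)⌉ : ℤ) : ℝ) := by
      exact_mod_cast Int.toNat_of_nonneg h7
    rw [h8]
    push_cast
    nlinarith
  · rw [Int.toNat_of_nonpos h7]
    have : (0 : ℝ) < ρ * n := by linarith
    push_cast
    nlinarith

private theorem one_class (z₀ : P) {ρ lam r0 r1 σ : ℝ} (hρ : 0 < ρ) (hl : 0 < lam)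
    (hσ : σ = 1 ∨ σ = -1) (h0 : 2 * ρ ≤ r0) (h1 : r1 ≤ 5 * ρ) (h01 : r1 - r0 ≤ lam * ρ) {n : ℕ}
    (hn : 1 ≤ ρ * n) (hn' : 1 ≤ lam * ρ * n) (T : Finset V)
    (hT : ∀ x ∈ T, (r0 < lenP (sc n x - z₀) ∧ lenP (sc n x - z₀) < r1) ∧
      (sc n x - z₀).2 ^ 2 ≤ (sc n x - z₀).1 ^ 2 ∧ 0 ≤ σ * (sc n x - z₀).1) :
    (T.card : ℝ) ≤ 55 * lam * ρ ^ 2 * (n : ℝ) ^ 2 := by
  have hn0 : (0 : ℝ) < n := by
    rcases Nat.eq_zero_or_pos n with h0 | h0
    · rw [h0] at hn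
      norm_num at hn
    · exact_mod_cast h0
  have hσ2 : σ * σ = 1 := by
    rcases hσ with h | h
    · rw [h]; norm_num
    · rw [h]; norm_num
  have hr0 : 0 < r0 := by linarith
  -- data of one point
  have hpt : ∀ x ∈ T, r0 ^ 2 < (sc n x - z₀).1 ^ 2 + (sc n x - z₀).2 ^ 2 ∧
      (sc n x - z₀).1 ^ 2 + (sc n x - z₀).2 ^ 2 < r1 ^ 2 ∧ 1.4 * ρ < σ * (sc n x - z₀).1 := by
    intro x hx
    obtain ⟨⟨h2, h3⟩, h4, h5⟩ := hT x hx
    unfold lenP at h2 h3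
    have h6 : r0 ^ 2 < (sc n x - z₀).1 ^ 2 + (sc n x - z₀).2 ^ 2 := (Real.lt_sqrt hr0.le).1 h2
    have hr1 : 0 < r1 := by
      have := Real.sqrt_nonneg ((sc n x - z₀).1 ^ 2 + (sc n x - z₀).2 ^ 2)
      linarith
    have h7 : (sc n x - z₀).1 ^ 2 + (sc n x - z₀).2 ^ 2 < r1 ^ 2 := (Real.sqrt_lt' hr1).1 h3
    refine ⟨h6, h7, ?_⟩
    by_contra hc
    rw [not_lt] at hc
    have h8 : (σ * (sc n x - z₀).1) ^ 2 ≤ (1.4 * ρ) ^ 2 := pow_le_pow_left₀ h5 hc 2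
    have h9 : (σ * (sc n x - z₀).1) ^ 2 = (sc n x - z₀).1 ^ 2 := by
      rw [mul_pow, pow_two σ, hσ2, one_mul]
    have h10 : (2 * ρ) ^ 2 ≤ r0 ^ 2 := pow_le_pow_left₀ (by linarith) h0 2
    rw [h9] at h8
    nlinarith [mul_pos hρ hρ]
  have hD : ∀ x ∈ T, ∀ y ∈ T, x.2 = y.2 → x.1 - y.1 ≤ (⌊4 * lam * ρ * n⌋₊ : ℤ) := by
    intro x hx y hy hxy
    obtain ⟨a1, a2, a3⟩ := hpt x hx
    obtain ⟨b1, b2, b3⟩ := hpt y hy
    have e1 : (sc n x - z₀).1 = (x.1 : ℝ) / n - z₀.1 := rfl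
    have e2 : (sc n y - z₀).1 = (y.1 : ℝ) / n - z₀.1 := rfl
    have e3 : (sc n x - z₀).2 = (sc n y - z₀).2 := by
      show (x.2 : ℝ) / n - z₀.2 = (y.2 : ℝ) / n - z₀.2
      rw [hxy]
    rw [e3] at a1 a2
    have hd : ((x.1 : ℝ) - y.1) = n * ((sc n x - z₀).1 - (sc n y - z₀).1) := by
      rw [e1, e2]
      field_simp
      ring
    have hr1 : r0 < r1 := (hT x hx).1.1.trans (hT x hx).1.2
    generalize (sc n x - z₀).1 = p at *
    generalize (sc n y - z₀).1 = q at *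
    generalize (sc n y - z₀).2 = b at *
    have hdiff : r1 ^ 2 - r0 ^ 2 ≤ 10 * lam * ρ ^ 2 := by
      have h2 : (r1 - r0) * (r1 + r0) ≤ (lam * ρ) * (10 * ρ) :=
        mul_le_mul h01 (by linarith) (by linarith) (by positivity)
      nlinarith
    have hpq : |σ * p - σ * q| ≤ 4 * lam * ρ := by
      have h3 : (σ * p) ^ 2 = p ^ 2 := by rw [mul_pow, pow_two σ, hσ2, one_mul]
      have h4 : (σ * q) ^ 2 = q ^ 2 := by rw [mul_pow, pow_two σ, hσ2, one_mul]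
      have h5 : p ^ 2 - q ^ 2 ≤ 10 * lam * ρ ^ 2 := by linarith
      have h6 : q ^ 2 - p ^ 2 ≤ 10 * lam * ρ ^ 2 := by linarith
      rw [← h3, ← h4] at h5 h6
      generalize σ * p = p' at *
      generalize σ * q = q' at *
      have hlr : 0 < lam * ρ := by positivity
      rw [abs_le]
      constructor
      · by_contra hc
        rw [not_le] at hc
        have h7 : 4 * lam * ρ < q' - p' := by linarith
        have h8 : (4 * lam * ρ) * (2.8 * ρ) ≤ (q' - p') * (q' + p') :=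
          mul_le_mul h7.le (by linarith) (by positivity) (by linarith)
        nlinarith [mul_pos hlr hρ]
      · by_contra hc
        rw [not_le] at hc
        have h8 : (4 * lam * ρ) * (2.8 * ρ) ≤ (p' - q') * (p' + q') :=
          mul_le_mul hc.le (by linarith) (by positivity) (by linarith)
        nlinarith [mul_pos hlr hρ]
    have hpq2 : p - q ≤ 4 * lam * ρ := by
      have h3 := abs_le.1 hpq
      rcases hσ with h | h
      · rw [h] at h3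
        linarith [h3.2]
      · rw [h] at h3
        linarith [h3.1]
    have h4 : ((x.1 - y.1 : ℤ) : ℝ) ≤ 4 * lam * ρ * n := by
      push_cast
      rw [hd]
      nlinarith
    rw [Int.natCast_floor_eq_floor (by positivity)]
    exact Int.le_floor.2 h4
  have hrow := row_card T ⌊4 * lam * ρ * n⌋₊ hD
  have hR := rows_card z₀.2 hn T (fun x hx => by
    obtain ⟨a1, a2, a3⟩ := hpt x hx
    have e3 : (x.2 : ℝ) / n - z₀.2 = (sc n x - z₀).2 := rfl
    rw [e3]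
    have hr1 : 0 < r1 := by
      have h2 := (hT x hx).1.2
      unfold lenP at h2
      have := Real.sqrt_nonneg ((sc n x - z₀).1 ^ 2 + (sc n x - z₀).2 ^ 2)
      linarith
    refine (abs_le_of_sq_le_sq ?_ hr1.le).trans h1
    nlinarith [sq_nonneg (sc n x - z₀).1])
  have hrow' : (T.card : ℝ) ≤ ((⌊4 * lam * ρ * n⌋₊ : ℝ) + 1) * ((T.image Prod.snd).card : ℝ) := by
    exact_mod_cast hrow
  have hfl : (⌊4 * lam * ρ * n⌋₊ : ℝ) ≤ 4 * lam * ρ * n := Nat.floor_le (by positivity)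
  calc (T.card : ℝ) ≤ ((⌊4 * lam * ρ * n⌋₊ : ℝ) + 1) * ((T.image Prod.snd).card : ℝ) := hrow'
    _ ≤ (5 * (lam * ρ * n)) * (11 * ρ * n) :=
      mul_le_mul (by linarith) hR (by positivity) (by positivity)
    _ = 55 * lam * ρ ^ 2 * (n : ℝ) ^ 2 := by ring

private theorem half (T : Finset V) (p : V → Prop) [DecidablePred p] {K K' : ℝ}
    (h1 : ((T.filter p).card : ℝ) ≤ K) (h2 : ((T.filter (fun x => ¬ p x)).card : ℝ) ≤ K') :
    (T.card : ℝ) ≤ K + K' := by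
  have h : T.card ≤ (T.filter p).card + (T.filter (fun x => ¬ p x)).card := by
    refine (Finset.card_le_card ?_).trans (Finset.card_union_le _ _)
    intro x hx
    by_cases hp : p x
    · exact Finset.mem_union_left _ (Finset.mem_filter.2 ⟨hx, hp⟩)
    · exact Finset.mem_union_right _ (Finset.mem_filter.2 ⟨hx, hp⟩)
  have h' : (T.card : ℝ) ≤ (T.filter p).card + (T.filter (fun x => ¬ p x)).card := by
    exact_mod_cast h
  linarith

private theorem two_class (z₀ : P) {ρ lam r0 r1 : ℝ} (hρ : 0 < ρ) (hl : 0 < lam)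
    (h0 : 2 * ρ ≤ r0) (h1 : r1 ≤ 5 * ρ) (h01 : r1 - r0 ≤ lam * ρ) {n : ℕ}
    (hn : 1 ≤ ρ * n) (hn' : 1 ≤ lam * ρ * n) (T : Finset V)
    (hT : ∀ x ∈ T, (r0 < lenP (sc n x - z₀) ∧ lenP (sc n x - z₀) < r1) ∧
      (sc n x - z₀).2 ^ 2 ≤ (sc n x - z₀).1 ^ 2) :
    (T.card : ℝ) ≤ 55 * lam * ρ ^ 2 * (n : ℝ) ^ 2 + 55 * lam * ρ ^ 2 * (n : ℝ) ^ 2 := by
  classical
  refine half T (fun x => 0 ≤ (sc n x - z₀).1)
    (one_class z₀ (σ := 1) hρ hl (Or.inl rfl) h0 h1 h01 hn hn' _ ?_)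
    (one_class z₀ (σ := -1) hρ hl (Or.inr rfl) h0 h1 h01 hn hn' _ ?_)
  · intro x hx
    rw [Finset.mem_filter] at hx
    obtain ⟨h2, h3⟩ := hT x hx.1
    exact ⟨h2, h3, by rw [one_mul]; exact hx.2⟩
  · intro x hx
    rw [Finset.mem_filter] at hx
    obtain ⟨h2, h3⟩ := hT x hx.1
    refine ⟨h2, h3, ?_⟩
    have := not_le.1 hx.2
    linarith

private theorem ann_card (z₀ : P) {ρ lam r0 r1 : ℝ} (hρ : 0 < ρ) (hl : 0 < lam)
    (h0 : 2 * ρ ≤ r0) (h1 : r1 ≤ 5 * ρ) (h01 : r1 - r0 ≤ lam * ρ) {n : ℕ}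
    (hn : 1 ≤ ρ * n) (hn' : 1 ≤ lam * ρ * n) (T : Finset V)
    (hT : ∀ x ∈ T, r0 < lenP (sc n x - z₀) ∧ lenP (sc n x - z₀) < r1) :
    (T.card : ℝ) ≤ 220 * lam * ρ ^ 2 * (n : ℝ) ^ 2 := by
  classical
  have h2 := two_class z₀ hρ hl h0 h1 h01 hn hn'
    (T.filter (fun x => (sc n x - z₀).2 ^ 2 ≤ (sc n x - z₀).1 ^ 2)) (fun x hx => by
      rw [Finset.mem_filter] at hx
      exact ⟨hT x hx.1, hx.2⟩)
  have h3 := two_class (z₀.2, z₀.1) hρ hl h0 h1 h01 hn hn'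
    ((T.filter (fun x => ¬ (sc n x - z₀).2 ^ 2 ≤ (sc n x - z₀).1 ^ 2)).image
      (Prod.swap : V → V)) (fun x hx => by
      rw [Finset.mem_image] at hx
      obtain ⟨y, hy, rfl⟩ := hx
      rw [Finset.mem_filter] at hy
      have e1 : (sc n y.swap - (z₀.2, z₀.1)).1 = (sc n y - z₀).2 := rfl
      have e2 : (sc n y.swap - (z₀.2, z₀.1)).2 = (sc n y - z₀).1 := rfl
      have e3 : lenP (sc n y.swap - (z₀.2, z₀.1)) = lenP (sc n y - z₀) := by
        unfold lenP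
        rw [e1, e2, add_comm]
      rw [e3, e1, e2]
      exact ⟨hT y hy.1, (not_le.1 hy.2).le⟩)
  rw [Finset.card_image_of_injective _ Prod.swap_injective] at h3
  have h4 := half T (fun x => (sc n x - z₀).2 ^ 2 ≤ (sc n x - z₀).1 ^ 2) h2 h3
  refine h4.trans (le_of_eq ?_)
  ring

theorem gap_card (z₀ : P) {ρ : ℝ} (hρ : 0 < ρ) :
    ∃ C > 0, ∀ lam : ℝ, 0 < lam → lam ≤ 1 / 100 → ∀ᶠ n : ℕ in atTop, ∀ a : ℕ, (a = 2 ∨ a = 4) →
      ∀ T : Finset V,
      (∀ x ∈ T, (a * ρ < lenP (sc n x - z₀) ∧ lenP (sc n x - z₀) < (a + lam) * ρ) ∨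
        ((a + 1 - lam) * ρ < lenP (sc n x - z₀) ∧ lenP (sc n x - z₀) < (a + 1) * ρ)) →
      (T.card : ℝ) ≤ C * lam * (n : ℝ) ^ 2 := by
  classical
  refine ⟨440 * ρ ^ 2, by positivity, ?_⟩
  intro lam hl hl1
  have t1 : Tendsto (fun n : ℕ => ρ * (n : ℝ)) atTop atTop :=
    tendsto_natCast_atTop_atTop.const_mul_atTop hρ
  have t2 : Tendsto (fun n : ℕ => lam * ρ * (n : ℝ)) atTop atTop :=
    tendsto_natCast_atTop_atTop.const_mul_atTop (by positivity)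
  filter_upwards [t1.eventually_ge_atTop 1, t2.eventually_ge_atTop 1] with n hn hn'
  intro a ha T hT
  have ha2 : (2 : ℝ) ≤ a := by
    rcases ha with h | h
    · rw [h]; norm_num
    · rw [h]; norm_num
  have ha4 : (a : ℝ) ≤ 4 := by
    rcases ha with h | h
    · rw [h]; norm_num
    · rw [h]; norm_num
  have hin := ann_card z₀ (r0 := a * ρ) (r1 := (a + lam) * ρ) hρ hl (by nlinarith) (by nlinarith)
    (by nlinarith) hn hn'
    (T.filter (fun x => a * ρ < lenP (sc n x - z₀) ∧ lenP (sc n x - z₀) < (a + lam) * ρ))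
    (fun x hx => (Finset.mem_filter.1 hx).2)
  have hout := ann_card z₀ (r0 := (a + 1 - lam) * ρ) (r1 := (a + 1) * ρ) hρ hl (by nlinarith)
    (by nlinarith) (by nlinarith) hn hn'
    (T.filter (fun x => ¬ (a * ρ < lenP (sc n x - z₀) ∧ lenP (sc n x - z₀) < (a + lam) * ρ)))
    (fun x hx => by
      rw [Finset.mem_filter] at hx
      rcases hT x hx.1 with h | h
      · exact absurd h hx.2
      · exact h)
  have h := half T _ hin hout
  refine h.trans (le_of_eq ?_)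
  ring

end Pool.Agent.LR.B5
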