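import Pool.Agent.LR.B5.Cells

/-!
# LR-B5-GapSq: the field in the gap between a ring and the pinned shells (6.4)

`T` = sites within `lam ρ` of one of the two boundary circles of the ring `a` (inside the ring).  Moving
such a site by `k ≈ 6 lam ρ n` lattice steps in one of the four lattice directions brings it deep inside a
pinned shell, where `deep_sum` (Cells.lean) controls the field.
-/

set_option autoImplicit false

open Filter

namespace Pool.Agent.LR.B5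

namespace GapSq

/-- Shifted site. -/
def sh (p q r t : ℕ) (x : V) : V := (x.1 + q - p, x.2 + t - r)

/-- The segment (a thin rectangle) from a site to the shifted site. -/
noncomputable def seg (p q r t : ℕ) (x : V) : Finset V :=
  rect (x.1 - p) (x.1 + q + 1) (x.2 - r) (x.2 + t + 1)

theorem colE_le_nnE {a b c d i : ℤ} (hi : a ≤ i ∧ i < b) (φ : V → ℝ) :
    colE c d φ i ≤ nnE (rect a b c d) φ := by
  rw [nnE_rect']
  have h1 : colE c d φ i ≤ ∑ i ∈ Finset.Ico a b, colE c d φ i :=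
    Finset.single_le_sum (f := fun i => colE c d φ i) (fun _ _ => colE_nonneg _ _ _ _)
      (Finset.mem_Ico.2 hi)
  have h2 : 0 ≤ ∑ j ∈ Finset.Ico c d, linE a b φ j :=
    Finset.sum_nonneg fun _ _ => linE_nonneg _ _ _ _
  linarith

theorem linE_le_nnE {a b c d j : ℤ} (hj : c ≤ j ∧ j < d) (φ : V → ℝ) :
    linE a b φ j ≤ nnE (rect a b c d) φ := by
  rw [nnE_rect']
  have h1 : linE a b φ j ≤ ∑ j ∈ Finset.Ico c d, linE a b φ j :=
    Finset.single_le_sum (f := fun j => linE a b φ j) (fun _ _ => linE_nonneg _ _ _ _)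
      (Finset.mem_Ico.2 hj)
  have h2 : 0 ≤ ∑ i ∈ Finset.Ico a b, colE c d φ i :=
    Finset.sum_nonneg fun _ _ => colE_nonneg _ _ _ _
  linarith

theorem seg_pair {p q r t k : ℕ} (hk : p + q + r + t ≤ k) (x : V) (φ : V → ℝ) :
    (φ (sh p q r t x) - φ x) ^ 2 ≤ 2 * ((k : ℝ) + 2) * nnE (seg p q r t x) φ := by
  have hx : x ∈ seg p q r t x := by
    unfold seg
    rw [mem_rect]
    omega
  have hy : sh p q r t x ∈ seg p q r t x := by
    unfold seg sh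
    rw [mem_rect]
    dsimp only
    omega
  have hx' := mem_rect.1 hx
  have hy' := mem_rect.1 hy
  have h1 := pair_le hy hx φ
  have h2 := colE_le_nnE (a := x.1 - p) (b := x.1 + q + 1) (c := x.2 - r) (d := x.2 + t + 1)
    (i := (sh p q r t x).1) hy'.1 φ
  have h3 := linE_le_nnE (a := x.1 - p) (b := x.1 + q + 1) (c := x.2 - r) (d := x.2 + t + 1)
    (j := x.2) hx'.2 φ
  have e1 : ((x.2 + t + 1 - (x.2 - r) : ℤ) : ℝ) = t + r + 1 := by push_cast; ring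
  have e2 : ((x.1 + q + 1 - (x.1 - p) : ℤ) : ℝ) = q + p + 1 := by push_cast; ring
  rw [e1, e2] at h1
  have hk' : (p : ℝ) + q + r + t ≤ k := by exact_mod_cast hk
  have hE : 0 ≤ nnE (seg p q r t x) φ := nnE_nonneg _ _
  have hp : (0 : ℝ) ≤ p := Nat.cast_nonneg _
  have hq : (0 : ℝ) ≤ q := Nat.cast_nonneg _
  have hr : (0 : ℝ) ≤ r := Nat.cast_nonneg _
  have ht : (0 : ℝ) ≤ t := Nat.cast_nonneg _
  have h4 : 2 * ((t : ℝ) + r + 1) * colE (x.2 - r) (x.2 + t + 1) φ (sh p q r t x).1 ≤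
      2 * ((t : ℝ) + r + 1) * nnE (seg p q r t x) φ :=
    mul_le_mul_of_nonneg_left h2 (by positivity)
  have h5 : 2 * ((q : ℝ) + p + 1) * linE (x.1 - p) (x.1 + q + 1) φ x.2 ≤
      2 * ((q : ℝ) + p + 1) * nnE (seg p q r t x) φ :=
    mul_le_mul_of_nonneg_left h3 (by positivity)
  have h6 : (2 * ((t : ℝ) + r + 1) + 2 * ((q : ℝ) + p + 1)) * nnE (seg p q r t x) φ ≤
      2 * ((k : ℝ) + 2) * nnE (seg p q r t x) φ :=
    mul_le_mul_of_nonneg_right (by linarith) hE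
  linarith

theorem seg_sub {z₀ : P} {ρ : ℝ} {n : ℕ} (hn : 0 < n) {p q r t k : ℕ}
    (hk : p + q + r + t ≤ k) (hks : (k : ℝ) / n ≤ ρ) {x : V}
    (hx : lenP (sc n x - z₀) ≤ 6 * ρ) : seg p q r t x ⊆ SS z₀ ρ n := by
  intro y hy
  unfold seg at hy
  rw [mem_rect] at hy
  have hn' : (0 : ℝ) < n := by exact_mod_cast hn
  have hkn : (0 : ℝ) ≤ (k : ℝ) / n := by positivity
  refine mem_SS_of_len hn ?_
  have h1 := lenP_le_add_sub (sc n y - z₀) (sc n x - z₀)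
  rw [sub_sub_sub_cancel_right] at h1
  have key : ∀ i j : ℤ, |i - j| ≤ (k : ℤ) → |((i : ℝ) / n - (j : ℝ) / n)| ≤ ρ := by
    intro i j hij
    rw [← sub_div, abs_div, abs_of_pos hn']
    refine le_trans ?_ hks
    refine div_le_div_of_nonneg_right ?_ hn'.le
    exact_mod_cast hij
  have h2 : lenP (sc n y - sc n x) ≤ 3 / 2 * ρ := by
    refine lenP_le_of_abs ?_ ?_
    · rw [Prod.fst_sub]
      exact key _ _ (abs_le.2 ⟨by omega, by omega⟩)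
    · rw [Prod.snd_sub]
      exact key _ _ (abs_le.2 ⟨by omega, by omega⟩)
  linarith

theorem sh_inj (p q r t : ℕ) : Function.Injective (sh p q r t) := by
  intro x y h
  unfold sh at h
  rw [Prod.ext_iff] at h
  dsimp only at h
  rw [Prod.ext_iff]
  omega

theorem overlap {p q r t k : ℕ} (hov : (p + q + 1) * (r + t + 1) ≤ k + 1) (T : Finset V) (y : V) :
    (T.filter fun x => y ∈ seg p q r t x).card ≤ k + 1 := by
  refine le_trans (Finset.card_le_card (t := rect (y.1 - q) (y.1 + p + 1) (y.2 - t) (y.2 + r + 1))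
    ?_) ?_
  · intro x hx
    rw [Finset.mem_filter] at hx
    have := hx.2
    unfold seg at this
    rw [mem_rect] at this ⊢
    omega
  · rw [rect_card]
    have e1 : (y.1 + p + 1 - (y.1 - q) : ℤ).toNat = p + q + 1 := by omega
    have e2 : (y.2 + r + 1 - (y.2 - t) : ℤ).toNat = r + t + 1 := by omega
    rw [e1, e2]
    exact hov

/-- One of the four classes. -/
theorem class_sum {α β : ℝ} (hβ : 0 < β) {z₀ : P} {ρ M δ : ℝ} (hρ : 0 < ρ) (hM : 0 < M)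
    (hδ : 0 < δ) {n : ℕ} (hn : 0 < n) (hnδ : 2 ≤ (n : ℝ) * δ) {p q r t k : ℕ}
    (hk : p + q + r + t ≤ k) (hov : (p + q + 1) * (r + t + 1) ≤ k + 1) (hks : (k : ℝ) / n ≤ ρ)
    (φ : V → ℝ) (T : Finset V)
    (hT : ∀ x ∈ T, lenP (sc n x - z₀) ≤ 6 * ρ)
    (hT' : ∀ x ∈ T, ∃ a : ℕ, (a = 1 ∨ a = 3 ∨ a = 5) ∧
      a * ρ + 2 * δ ≤ lenP (sc n (sh p q r t x) - z₀) ∧
      lenP (sc n (sh p q r t x) - z₀) ≤ (a + 1) * ρ - 2 * δ) :
    ∑ x ∈ T, φ x ^ 2 ≤ (10 * (n : ℝ) ^ 2 * (δ ^ 2 / β + 1 / M) +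
      ((k : ℝ) + 2) * ((k : ℝ) + 1) / β) * MP α β z₀ ρ M δ n φ φ := by
  classical
  have h1 : ∑ x ∈ T, φ x ^ 2 ≤ 2 * ∑ x ∈ T, φ (sh p q r t x) ^ 2 +
      2 * ∑ x ∈ T, (φ (sh p q r t x) - φ x) ^ 2 := by
    rw [Finset.mul_sum, Finset.mul_sum, ← Finset.sum_add_distrib]
    refine Finset.sum_le_sum fun x _ => ?_
    nlinarith [sq_nonneg (φ (sh p q r t x) + (φ (sh p q r t x) - φ x))]
  have h2 : ∑ x ∈ T, φ (sh p q r t x) ^ 2 ≤
      5 * (n : ℝ) ^ 2 * (δ ^ 2 / β + 1 / M) * MP α β z₀ ρ M δ n φ φ := by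
    have h3 := deep_sum (α := α) hβ hρ hM hδ hn hnδ φ (T.image (sh p q r t)) (by
      intro y hy
      rw [Finset.mem_image] at hy
      obtain ⟨x, hx, rfl⟩ := hy
      exact hT' x hx)
    rwa [Finset.sum_image (fun x _ y _ h => sh_inj p q r t h)] at h3
  have h4 : ∑ x ∈ T, (φ (sh p q r t x) - φ x) ^ 2 ≤
      2 * ((k : ℝ) + 2) * (((k + 1 : ℕ) : ℝ) * nnE (SS z₀ ρ n) φ) := by
    refine (Finset.sum_le_sum fun x _ => seg_pair hk x φ).trans ?_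
    rw [← Finset.mul_sum]
    refine mul_le_mul_of_nonneg_left ?_ (by positivity)
    refine sum_nnE_le T (fun x => seg p q r t x) (SS z₀ ρ n) ?_ (k + 1) ?_ φ
    · intro x hx
      exact seg_sub hn hk hks (hT x hx)
    · intro y _
      exact overlap hov T y
  have h5 := nnE_le_MP (α := α) hβ.le z₀ ρ hM.le δ n φ
  set Q := MP α β z₀ ρ M δ n φ φ
  set E := nnE (SS z₀ ρ n) φ
  have h6 : E ≤ Q / (4 * β) := by rw [le_div_iff₀ (by positivity)]; linarith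
  have h7 : 2 * ((k : ℝ) + 2) * (((k + 1 : ℕ) : ℝ) * E) ≤
      2 * ((k : ℝ) + 2) * (((k : ℝ) + 1) * (Q / (4 * β))) := by
    push_cast
    refine mul_le_mul_of_nonneg_left ?_ (by positivity)
    exact mul_le_mul_of_nonneg_left h6 (by positivity)
  have h8 : 2 * (2 * ((k : ℝ) + 2) * (((k : ℝ) + 1) * (Q / (4 * β)))) =
      ((k : ℝ) + 2) * ((k : ℝ) + 1) / β * Q := by field_simp; ring
  calc _ ≤ 2 * (5 * (n : ℝ) ^ 2 * (δ ^ 2 / β + 1 / M) * Q) +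
        2 * (2 * ((k : ℝ) + 2) * (((k : ℝ) + 1) * (Q / (4 * β)))) := by linarith
    _ = _ := by rw [h8]; ring

/-! ## Geometry -/

theorem lenP_add_sq (z u : P) : lenP (z + u) ^ 2 = lenP z ^ 2 + 2 * (z.1 * u.1 + z.2 * u.2) +
    lenP u ^ 2 := by
  rw [lenP_sq, lenP_sq, lenP_sq, Prod.fst_add, Prod.snd_add]
  ring

theorem grow {z u : P} {s : ℝ} (hs : 0 ≤ s) (hu : lenP u = s)
    (hc : 0 ≤ z.1 * u.1 + z.2 * u.2) (hc2 : s ^ 2 * lenP z ^ 2 ≤ 2 * (z.1 * u.1 + z.2 * u.2) ^ 2) :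
    lenP z + s / 2 ≤ lenP (z + u) := by
  have h := lenP_add_sq z u
  rw [hu] at h
  set c := z.1 * u.1 + z.2 * u.2 with hcdef
  have hL := lenP_nonneg z
  have h1 : 7 / 10 * (s * lenP z) ≤ c := by
    refine (abs_le_of_sq_le_sq' ?_ hc).2
    nlinarith [mul_nonneg hs hL, sq_nonneg (s * lenP z)]
  refine (abs_le_of_sq_le_sq' ?_ (lenP_nonneg _)).2
  rw [h]
  nlinarith [mul_nonneg hs hL, sq_nonneg s]

theorem shrink {z u : P} {s : ℝ} (hs : 0 ≤ s) (hu : lenP u = s) (hsz : 2 * s ≤ lenP z)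
    (hc : z.1 * u.1 + z.2 * u.2 ≤ 0) (hc2 : s ^ 2 * lenP z ^ 2 ≤ 2 * (z.1 * u.1 + z.2 * u.2) ^ 2) :
    lenP (z + u) ≤ lenP z - s / 2 := by
  have h := lenP_add_sq z u
  rw [hu] at h
  set c := z.1 * u.1 + z.2 * u.2 with hcdef
  have hL := lenP_nonneg z
  have h1 : 7 / 10 * (s * lenP z) ≤ -c := by
    refine (abs_le_of_sq_le_sq' ?_ (by linarith)).2
    nlinarith [mul_nonneg hs hL, sq_nonneg (s * lenP z)]
  refine (abs_le_of_sq_le_sq' ?_ (by linarith)).2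
  rw [h]
  nlinarith [mul_nonneg hs hL, mul_nonneg hs (sub_nonneg.2 hsz)]

/-- The four lattice directions. -/
def Opt (s : ℝ) (u : P) : Prop := u = (s, 0) ∨ u = (-s, 0) ∨ u = (0, s) ∨ u = (0, -s)

theorem lenP_opt {s : ℝ} (hs : 0 ≤ s) {u : P} (hu : Opt s u) : lenP u = s := by
  rcases hu with rfl | rfl | rfl | rfl <;> unfold lenP <;> dsimp only
  · rw [show s ^ 2 + (0 : ℝ) ^ 2 = s ^ 2 by ring, Real.sqrt_sq hs]
  · rw [show (-s) ^ 2 + (0 : ℝ) ^ 2 = s ^ 2 by ring, Real.sqrt_sq hs]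
  · rw [show (0 : ℝ) ^ 2 + s ^ 2 = s ^ 2 by ring, Real.sqrt_sq hs]
  · rw [show (0 : ℝ) ^ 2 + (-s) ^ 2 = s ^ 2 by ring, Real.sqrt_sq hs]

/-- A lattice direction in which `z` points. -/
theorem exists_dir {s : ℝ} (hs : 0 ≤ s) (z : P) : ∃ u, Opt s u ∧ 0 ≤ z.1 * u.1 + z.2 * u.2 ∧
    s ^ 2 * lenP z ^ 2 ≤ 2 * (z.1 * u.1 + z.2 * u.2) ^ 2 := by
  rw [lenP_sq]
  rcases le_total (z.2 ^ 2) (z.1 ^ 2) with h | h
  · rcases le_total 0 z.1 with h1 | h1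
    · refine ⟨(s, 0), Or.inl rfl, ?_, ?_⟩ <;> dsimp only
      · have := mul_nonneg h1 hs
        linarith
      · nlinarith [mul_le_mul_of_nonneg_left h (sq_nonneg s)]
    · refine ⟨(-s, 0), Or.inr (Or.inl rfl), ?_, ?_⟩ <;> dsimp only
      · have := mul_nonneg_of_nonpos_of_nonpos h1 (neg_nonpos.2 hs)
        linarith
      · nlinarith [mul_le_mul_of_nonneg_left h (sq_nonneg s)]
  · rcases le_total 0 z.2 with h1 | h1
    · refine ⟨(0, s), Or.inr (Or.inr (Or.inl rfl)), ?_, ?_⟩ <;> dsimp only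
      · have := mul_nonneg h1 hs
        linarith
      · nlinarith [mul_le_mul_of_nonneg_left h (sq_nonneg s)]
    · refine ⟨(0, -s), Or.inr (Or.inr (Or.inr rfl)), ?_, ?_⟩ <;> dsimp only
      · have := mul_nonneg_of_nonpos_of_nonpos h1 (neg_nonpos.2 hs)
        linarith
      · nlinarith [mul_le_mul_of_nonneg_left h (sq_nonneg s)]

/-- The shifted point lies deep inside a pinned shell. -/
theorem exists_shift {ρ lam δ s : ℝ} (hρ : 0 < ρ) (hlam : 0 < lam) (hlam' : lam ≤ 1 / 100)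
    (hδ : δ ≤ lam * ρ) (hs1 : 6 * lam * ρ ≤ s) (hs2 : s ≤ 7 * lam * ρ) {a : ℕ}
    (ha : a = 2 ∨ a = 4) {z : P} (hz : (a * ρ < lenP z ∧ lenP z < (a + lam) * ρ) ∨
      ((a + 1 - lam) * ρ < lenP z ∧ lenP z < (a + 1) * ρ)) :
    ∃ u, Opt s u ∧ ∃ b : ℕ, (b = 1 ∨ b = 3 ∨ b = 5) ∧ b * ρ + 2 * δ ≤ lenP (z + u) ∧
      lenP (z + u) ≤ (b + 1) * ρ - 2 * δ := by
  have hlr : 0 < lam * ρ := mul_pos hlam hρ
  have hs : 0 ≤ s := by linarith
  have hlr' : lam * ρ ≤ 1 / 100 * ρ := mul_le_mul_of_nonneg_right hlam' hρ.le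
  have ha2 : (2 : ℝ) ≤ a := by rcases ha with rfl | rfl <;> norm_num
  have haρ : 2 * ρ ≤ a * ρ := mul_le_mul_of_nonneg_right ha2 hρ.le
  rcases hz with ⟨h1, h2⟩ | ⟨h1, h2⟩
  · -- inner class: shift inwards
    obtain ⟨u, hu, hc, hc2⟩ := exists_dir hs (-z)
    rw [lenP_neg, Prod.fst_neg, Prod.snd_neg] at hc2
    rw [Prod.fst_neg, Prod.snd_neg] at hc
    have hc' : z.1 * u.1 + z.2 * u.2 ≤ 0 := by linarith
    have hc2' : s ^ 2 * lenP z ^ 2 ≤ 2 * (z.1 * u.1 + z.2 * u.2) ^ 2 := by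
      refine hc2.trans (le_of_eq ?_)
      ring
    have hul := lenP_opt hs hu
    have h3 := shrink hs hul (by linarith) hc' hc2'
    have h4 := lenP_le_add_sub z (z + u)
    rw [sub_add_cancel_left, lenP_neg, hul] at h4
    obtain ⟨b, hb, hab⟩ : ∃ b : ℕ, (b = 1 ∨ b = 3 ∨ b = 5) ∧ (b : ℝ) + 1 = a := by
      rcases ha with rfl | rfl
      · exact ⟨1, Or.inl rfl, by norm_num⟩
      · exact ⟨3, Or.inr (Or.inl rfl), by norm_num⟩
    have hb' : (b : ℝ) * ρ = a * ρ - ρ := by rw [← hab]; ring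
    refine ⟨u, hu, b, hb, ?_, ?_⟩
    · rw [hb']
      linarith
    · rw [hab]
      linarith
  · obtain ⟨u, hu, hc, hc2⟩ := exists_dir hs z
    have hul := lenP_opt hs hu
    have h3 := grow hs hul hc hc2
    have h4 := lenP_add_le z u
    rw [hul] at h4
    obtain ⟨b, hb, hab⟩ : ∃ b : ℕ, (b = 1 ∨ b = 3 ∨ b = 5) ∧ (b : ℝ) = a + 1 := by
      rcases ha with rfl | rfl
      · exact ⟨3, Or.inr (Or.inl rfl), by norm_num⟩
      · exact ⟨5, Or.inr (Or.inr rfl), by norm_num⟩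
    refine ⟨u, hu, b, hb, ?_, ?_⟩
    · rw [hab]
      linarith
    · rw [hab]
      linarith

/-- Deep site. -/
def Dp (z₀ : P) (ρ δ : ℝ) (n : ℕ) (y : V) : Prop :=
  ∃ a : ℕ, (a = 1 ∨ a = 3 ∨ a = 5) ∧ a * ρ + 2 * δ ≤ lenP (sc n y - z₀) ∧
    lenP (sc n y - z₀) ≤ (a + 1) * ρ - 2 * δ

theorem exists_sh {z₀ : P} {ρ lam δ : ℝ} {n k : ℕ} (hρ : 0 < ρ) (hlam : 0 < lam)
    (hlam' : lam ≤ 1 / 100) (hδ : δ ≤ lam * ρ) (hs1 : 6 * lam * ρ ≤ (k : ℝ) / n)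
    (hs2 : (k : ℝ) / n ≤ 7 * lam * ρ) {a : ℕ} (ha : a = 2 ∨ a = 4) {x : V}
    (hx : (a * ρ < lenP (sc n x - z₀) ∧ lenP (sc n x - z₀) < (a + lam) * ρ) ∨
      ((a + 1 - lam) * ρ < lenP (sc n x - z₀) ∧ lenP (sc n x - z₀) < (a + 1) * ρ)) :
    Dp z₀ ρ δ n (sh 0 k 0 0 x) ∨ Dp z₀ ρ δ n (sh k 0 0 0 x) ∨ Dp z₀ ρ δ n (sh 0 0 0 k x) ∨
      Dp z₀ ρ δ n (sh 0 0 k 0 x) := by
  obtain ⟨u, hu, b, hb, h1, h2⟩ := exists_shift hρ hlam hlam' hδ hs1 hs2 ha hx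
  rcases hu with rfl | rfl | rfl | rfl
  · left
    have e : sc n (sh 0 k 0 0 x) - z₀ = sc n x - z₀ + ((k : ℝ) / n, 0) := by
      unfold sc sh
      refine Prod.ext ?_ ?_
      · simp only [Prod.fst_sub, Prod.fst_add]; push_cast; ring
      · simp only [Prod.snd_sub, Prod.snd_add]; push_cast; ring
    exact ⟨b, hb, by rwa [e], by rwa [e]⟩
  · right; left
    have e : sc n (sh k 0 0 0 x) - z₀ = sc n x - z₀ + (-((k : ℝ) / n), 0) := by
      unfold sc sh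
      refine Prod.ext ?_ ?_
      · simp only [Prod.fst_sub, Prod.fst_add]; push_cast; ring
      · simp only [Prod.snd_sub, Prod.snd_add]; push_cast; ring
    exact ⟨b, hb, by rwa [e], by rwa [e]⟩
  · right; right; left
    have e : sc n (sh 0 0 0 k x) - z₀ = sc n x - z₀ + (0, (k : ℝ) / n) := by
      unfold sc sh
      refine Prod.ext ?_ ?_
      · simp only [Prod.fst_sub, Prod.fst_add]; push_cast; ring
      · simp only [Prod.snd_sub, Prod.snd_add]; push_cast; ring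
    exact ⟨b, hb, by rwa [e], by rwa [e]⟩
  · right; right; right
    have e : sc n (sh 0 0 k 0 x) - z₀ = sc n x - z₀ + (0, -((k : ℝ) / n)) := by
      unfold sc sh
      refine Prod.ext ?_ ?_
      · simp only [Prod.fst_sub, Prod.fst_add]; push_cast; ring
      · simp only [Prod.snd_sub, Prod.snd_add]; push_cast; ring
    exact ⟨b, hb, by rwa [e], by rwa [e]⟩

end GapSq

open GapSq in
theorem gap_sq {α β : ℝ} (hβ : 0 < β) (z₀ : P) {ρ : ℝ} (hρ : 0 < ρ) :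
    ∃ C > 0, ∀ lam M δ : ℝ, 0 < lam → lam ≤ 1 / 100 → 1 ≤ M → 0 < δ → δ ≤ lam * ρ →
    ∀ᶠ n : ℕ in atTop, ∀ a : ℕ, (a = 2 ∨ a = 4) → ∀ T : Finset V,
      (∀ x ∈ T, (a * ρ < lenP (sc n x - z₀) ∧ lenP (sc n x - z₀) < (a + lam) * ρ) ∨
        ((a + 1 - lam) * ρ < lenP (sc n x - z₀) ∧ lenP (sc n x - z₀) < (a + 1) * ρ)) →
      ∀ φ : V → ℝ, ∑ x ∈ T, φ x ^ 2 ≤
        C * (n : ℝ) ^ 2 * (1 / M + δ ^ 2 + lam ^ 2) * MP α β z₀ ρ M δ n φ φ := by
  classical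
  refine ⟨40 * (1 + 1 / β) + 1176 * ρ ^ 2 / β, by positivity, ?_⟩
  intro lam M δ hlam hlam' hM hδ hδl
  have hlr : 0 < lam * ρ := mul_pos hlam hρ
  obtain ⟨N, hN⟩ := exists_nat_ge (2 / δ + 1 / (lam * ρ) + 1)
  filter_upwards [eventually_ge_atTop N] with n hn
  have hnR : 2 / δ + 1 / (lam * ρ) + 1 ≤ n := hN.trans (by exact_mod_cast hn)
  have hp1 : 0 < 2 / δ := by positivity
  have hp2 : 0 < 1 / (lam * ρ) := by positivity
  have hn' : (0 : ℝ) < n := by linarith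
  have hn0 : 0 < n := by exact_mod_cast hn'
  have hnδ : 2 ≤ (n : ℝ) * δ := by
    have : 2 / δ ≤ n := by linarith
    rwa [div_le_iff₀ hδ] at this
  have hnl : 1 ≤ (n : ℝ) * (lam * ρ) := by
    have : 1 / (lam * ρ) ≤ n := by linarith
    rwa [div_le_iff₀ hlr] at this
  intro a ha T hT φ
  set k := ⌈6 * lam * ρ * n⌉₊ with hk
  have hk1 : 6 * lam * ρ * n ≤ k := Nat.le_ceil _
  have hk2 : (k : ℝ) < 6 * lam * ρ * n + 1 := Nat.ceil_lt_add_one (by positivity)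
  have hs1 : 6 * lam * ρ ≤ (k : ℝ) / n := by rw [le_div_iff₀ hn']; exact hk1
  have hk3 : (k : ℝ) ≤ 7 * lam * ρ * n := by nlinarith
  have hs2 : (k : ℝ) / n ≤ 7 * lam * ρ := by rw [div_le_iff₀ hn']; exact hk3
  have hk4 : (1 : ℝ) ≤ k := by nlinarith
  have hlr' : lam * ρ ≤ 1 / 100 * ρ := mul_le_mul_of_nonneg_right hlam' hρ.le
  have hks : (k : ℝ) / n ≤ ρ := by linarith
  have hM0 : 0 < M := by linarith
  have ha4 : (a : ℝ) ≤ 4 := by rcases ha with rfl | rfl <;> norm_num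
  have h6 : ∀ x ∈ T, lenP (sc n x - z₀) ≤ 6 * ρ := by
    intro x hx
    have haρ : (a : ℝ) * ρ ≤ 4 * ρ := mul_le_mul_of_nonneg_right ha4 hρ.le
    rcases hT x hx with h | h
    · have := h.2
      linarith
    · have := h.2
      linarith
  set Q := MP α β z₀ ρ M δ n φ φ with hQ
  have hQ0 : 0 ≤ Q := MP_nonneg hβ.le z₀ ρ hM0.le δ n φ
  set B := (10 * (n : ℝ) ^ 2 * (δ ^ 2 / β + 1 / M) + ((k : ℝ) + 2) * ((k : ℝ) + 1) / β) with hB
  have hcl : ∀ p q r t : ℕ, p + q + r + t ≤ k → (p + q + 1) * (r + t + 1) ≤ k + 1 →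
      ∑ x ∈ T, (if Dp z₀ ρ δ n (sh p q r t x) then φ x ^ 2 else 0) ≤ B * Q := by
    intro p q r t h1 h2
    rw [← Finset.sum_filter]
    refine class_sum hβ hρ hM0 hδ hn0 hnδ h1 h2 hks φ _ ?_ ?_
    · intro x hx
      exact h6 x (Finset.mem_filter.1 hx).1
    · intro x hx
      exact (Finset.mem_filter.1 hx).2
  have c1 := hcl 0 k 0 0 (by omega) (by omega)
  have c2 := hcl k 0 0 0 (by omega) (by omega)
  have c3 := hcl 0 0 0 k (by omega) (by omega)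
  have c4 := hcl 0 0 k 0 (by omega) (by omega)
  have hsum : ∑ x ∈ T, φ x ^ 2 ≤ 4 * (B * Q) := by
    have h7 : ∑ x ∈ T, φ x ^ 2 ≤ ∑ x ∈ T,
        ((if Dp z₀ ρ δ n (sh 0 k 0 0 x) then φ x ^ 2 else 0) +
        (if Dp z₀ ρ δ n (sh k 0 0 0 x) then φ x ^ 2 else 0) +
        (if Dp z₀ ρ δ n (sh 0 0 0 k x) then φ x ^ 2 else 0) +
        (if Dp z₀ ρ δ n (sh 0 0 k 0 x) then φ x ^ 2 else 0)) := by
      refine Finset.sum_le_sum fun x hx => ?_
      have hsq := sq_nonneg (φ x)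
      have hn1 : ∀ p : Prop, (0 : ℝ) ≤ if p then φ x ^ 2 else 0 := by
        intro p
        split_ifs
        · exact hsq
        · exact le_rfl
      have g1 := hn1 (Dp z₀ ρ δ n (sh 0 k 0 0 x))
      have g2 := hn1 (Dp z₀ ρ δ n (sh k 0 0 0 x))
      have g3 := hn1 (Dp z₀ ρ δ n (sh 0 0 0 k x))
      have g4 := hn1 (Dp z₀ ρ δ n (sh 0 0 k 0 x))
      rcases exists_sh hρ hlam hlam' hδl hs1 hs2 ha (hT x hx) with h | h | h | h
      · rw [if_pos h]; linarith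
      · rw [if_pos h]; linarith
      · rw [if_pos h]; linarith
      · rw [if_pos h]; linarith
    rw [Finset.sum_add_distrib, Finset.sum_add_distrib, Finset.sum_add_distrib] at h7
    linarith
  refine hsum.trans ?_
  rw [← mul_assoc]
  refine mul_le_mul_of_nonneg_right ?_ hQ0
  have hkk : ((k : ℝ) + 2) * ((k : ℝ) + 1) ≤ 294 * lam ^ 2 * ρ ^ 2 * (n : ℝ) ^ 2 := by
    have g1 : ((k : ℝ) + 2) * ((k : ℝ) + 1) ≤ 6 * (k : ℝ) ^ 2 := by nlinarith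
    have g2 : (k : ℝ) ^ 2 ≤ (7 * lam * ρ * n) ^ 2 := pow_le_pow_left₀ (by positivity) hk3 2
    nlinarith
  have hkb : ((k : ℝ) + 2) * ((k : ℝ) + 1) / β ≤ 294 * lam ^ 2 * ρ ^ 2 * (n : ℝ) ^ 2 / β :=
    div_le_div_of_nonneg_right hkk hβ.le
  have hb1 : 0 < 1 / β := by positivity
  have hm1 : 0 < 1 / M := by positivity
  have e1 : δ ^ 2 / β = δ ^ 2 * (1 / β) := by ring
  have e2 : 294 * lam ^ 2 * ρ ^ 2 * (n : ℝ) ^ 2 / β = 294 * (ρ ^ 2 * (1 / β)) * lam ^ 2 * (n : ℝ) ^ 2 := by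
    ring
  have e3 : 1176 * ρ ^ 2 / β = 1176 * (ρ ^ 2 * (1 / β)) := by ring
  rw [hB, e1, e3]
  rw [e2] at hkb
  set X := 1 / β
  set Y := 1 / M
  set R := ρ ^ 2 * X
  have hR : 0 ≤ R := by positivity
  have hn2 : 0 ≤ (n : ℝ) ^ 2 := by positivity
  have k1 : 0 ≤ (n : ℝ) ^ 2 * (δ ^ 2) := by positivity
  have k2 : 0 ≤ (n : ℝ) ^ 2 * (lam ^ 2) := by positivity
  have k3 : 0 ≤ (n : ℝ) ^ 2 * Y := by positivity
  have k4 : 0 ≤ (n : ℝ) ^ 2 * Y * X := by positivity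
  have k5 : 0 ≤ (n : ℝ) ^ 2 * (lam ^ 2) * X := by positivity
  have k6 : 0 ≤ R * ((n : ℝ) ^ 2 * Y) := by positivity
  have k7 : 0 ≤ R * ((n : ℝ) ^ 2 * δ ^ 2) := by positivity
  nlinarith

end Pool.Agent.LR.B5
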