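import Pool.Agent.LR.B5.Poinc

/-!
# LR-B5-Green: 6.2 (c), (d)
-/

set_option autoImplicit false

open Filter

namespace Pool.Agent.LR.B5

theorem exists_box {A B C D a b c d : ℤ} {l : ℕ} (h1 : A ≤ a) (h2 : b ≤ B) (h3 : C ≤ c)
    (h4 : d ≤ D) (hab : b - a ≤ l) (hcd : d - c ≤ l) (hl1 : A + l ≤ B) (hl2 : C + l ≤ D) :
    ∃ p : V, rect a b c d ⊆ box p l ∧ box p l ⊆ rect A B C D := by
  obtain ⟨p1, e1, e2, e3, e4⟩ : ∃ p : ℤ, A ≤ p ∧ p + l ≤ B ∧ p ≤ a ∧ b ≤ p + l := by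
    by_cases h : a + l ≤ B
    · exact ⟨a, by omega, by omega, by omega, by omega⟩
    · exact ⟨B - l, by omega, by omega, by omega, by omega⟩
  obtain ⟨p2, f1, f2, f3, f4⟩ : ∃ p : ℤ, C ≤ p ∧ p + l ≤ D ∧ p ≤ c ∧ d ≤ p + l := by
    by_cases h : c + l ≤ D
    · exact ⟨c, by omega, by omega, by omega, by omega⟩
    · exact ⟨D - l, by omega, by omega, by omega, by omega⟩
  refine ⟨(p1, p2), ?_, ?_⟩
  · intro x hx
    rw [mem_rect] at hx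
    rw [mem_box]
    dsimp only
    omega
  · intro x hx
    rw [mem_box] at hx
    rw [mem_rect]
    dsimp only at hx
    omega

theorem clog_le_log {l : ℕ} {t : ℝ} (h1 : 1 ≤ t) (ht : (l : ℝ) ≤ t) :
    (Nat.clog 2 l : ℝ) ≤ 3 / 2 * Real.log t + 1 := by
  have hlog : 0 ≤ Real.log t := Real.log_nonneg h1
  rcases le_or_gt l 1 with h | h
  · rw [Nat.clog_of_right_le_one h]
    push_cast
    linarith
  · have h2 := Nat.pow_pred_clog_lt_self (b := 2) (by norm_num) h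
    set L := Nat.clog 2 l with hL
    have hL1 : 1 ≤ L := by
      rw [hL]
      exact Nat.clog_pos (by norm_num) h
    have h3 : ((2 : ℝ)) ^ (L - 1) ≤ t := by
      have : ((2 ^ L.pred : ℕ) : ℝ) ≤ l := by exact_mod_cast h2.le
      push_cast at this
      rw [Nat.pred_eq_sub_one] at this
      linarith
    have h4 : ((L - 1 : ℕ) : ℝ) * Real.log 2 ≤ Real.log t := by
      rw [← Real.log_pow]
      exact Real.log_le_log (by positivity) h3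
    have h5 : ((L - 1 : ℕ) : ℝ) = (L : ℝ) - 1 := by
      rw [Nat.cast_sub hL1]; norm_num
    rw [h5] at h4
    have h6 : (2 / 3 : ℝ) < Real.log 2 := by
      have := Real.log_two_gt_d9
      linarith
    have h7 : (1 : ℝ) ≤ L := by exact_mod_cast hL1
    nlinarith

theorem R1_avg' {α β : ℝ} (hβ : 0 < β) {z₀ : P} {ρ M δ : ℝ} (hρ : 0 < ρ) (hM : 1 ≤ M)
    (hδ : 0 < δ) (hδρ : δ ≤ ρ / 8) {n : ℕ} (hn : 0 < n) (hnδ : 2 ≤ (n : ℝ) * δ)
    (hρn : 20 ≤ ρ * n) (φ : V → ℝ) :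
    (avg (R1 z₀ ρ n) φ) ^ 2 ≤ 60 * (1 / β + 1 / ρ ^ 2) * MP α β z₀ ρ M δ n φ φ := by
  have hM0 : 0 < M := by linarith
  have hQ : 0 ≤ MP α β z₀ ρ M δ n φ φ := MP_nonneg hβ.le z₀ ρ hM0.le δ n φ
  refine (R1_avg (α := α) hβ hρ hM0 hδ hδρ hn hnδ hρn φ).trans (mul_le_mul_of_nonneg_right ?_ hQ)
  have h1 : (δ ^ 2 / β + 1 / M) / ρ ^ 2 ≤ 1 / β + 1 / ρ ^ 2 := by
    rw [add_div]
    refine add_le_add ?_ ?_
    · rw [div_div, div_le_div_iff₀ (by positivity) hβ, one_mul, mul_comm β]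
      have : δ ^ 2 ≤ ρ ^ 2 := pow_le_pow_left₀ hδ.le (by linarith) 2
      exact mul_le_mul_of_nonneg_right this hβ.le
    · refine div_le_div_of_nonneg_right ?_ (by positivity)
      rw [div_le_one hM0]; exact hM
  linarith

theorem ev_large {ρ δ : ℝ} (hρ : 0 < ρ) (hδ : 0 < δ) : ∀ᶠ n : ℕ in atTop,
    0 < n ∧ 2 ≤ (n : ℝ) * δ ∧ 20 ≤ ρ * n := by
  filter_upwards [eventually_ge_atTop (max 1 (max ⌈2 / δ⌉₊ ⌈20 / ρ⌉₊))] with n hn
  have hn1 : 1 ≤ n := (le_max_left _ _).trans hn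
  refine ⟨hn1, ?_, ?_⟩
  · have h1 : (2 / δ : ℝ) ≤ n := (Nat.le_ceil _).trans
      (by exact_mod_cast (le_max_left _ _).trans ((le_max_right _ _).trans hn))
    rwa [div_le_iff₀ hδ] at h1
  · have h1 : (20 / ρ : ℝ) ≤ n := (Nat.le_ceil _).trans
      (by exact_mod_cast (le_max_right _ _).trans ((le_max_right _ _).trans hn))
    rw [div_le_iff₀ hρ] at h1
    linarith

/-- Side of the largest lattice square in the big box. -/
noncomputable def sl (z₀ : P) (ρ : ℝ) (n : ℕ) : ℕ :=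
  (min (sB z₀ ρ n - sA z₀ ρ n) (sD z₀ ρ n - sC z₀ ρ n)).toNat

theorem sl_spec {z₀ : P} {ρ : ℝ} {n : ℕ} (hρn : 20 ≤ ρ * n) :
    sA z₀ ρ n + sl z₀ ρ n ≤ sB z₀ ρ n ∧ sC z₀ ρ n + sl z₀ ρ n ≤ sD z₀ ρ n ∧
      25 * (ρ * n) ≤ sl z₀ ρ n ∧ (sl z₀ ρ n : ℝ) ≤ 27 * (ρ * n) := by
  have h1 := sAB (z₀ := z₀) hρn
  have h2 := sCD (z₀ := z₀) hρn
  have h3 : (0 : ℝ) < ((sB z₀ ρ n - sA z₀ ρ n : ℤ) : ℝ) := by linarith
  have h4 : (0 : ℝ) < ((sD z₀ ρ n - sC z₀ ρ n : ℤ) : ℝ) := by linarith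
  have h3' : 0 < sB z₀ ρ n - sA z₀ ρ n := by exact_mod_cast h3
  have h4' : 0 < sD z₀ ρ n - sC z₀ ρ n := by exact_mod_cast h4
  have h5 : (sl z₀ ρ n : ℤ) = min (sB z₀ ρ n - sA z₀ ρ n) (sD z₀ ρ n - sC z₀ ρ n) := by
    unfold sl
    exact Int.toNat_of_nonneg (le_min h3'.le h4'.le)
  have h6 : (sl z₀ ρ n : ℝ) = ((min (sB z₀ ρ n - sA z₀ ρ n) (sD z₀ ρ n - sC z₀ ρ n) : ℤ) : ℝ) := by
    rw [← h5]; norm_cast
  refine ⟨by omega, by omega, ?_, ?_⟩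
  · rw [h6]
    rcases min_choice (sB z₀ ρ n - sA z₀ ρ n) (sD z₀ ρ n - sC z₀ ρ n) with h | h
    · rw [h]; exact h1.1
    · rw [h]; exact h2.1
  · rw [h6]
    rcases min_choice (sB z₀ ρ n - sA z₀ ρ n) (sD z₀ ρ n - sC z₀ ρ n) with h | h
    · rw [h]; exact h1.2
    · rw [h]; exact h2.2

/-- Mean over a square of side `sl` in the big box. -/
theorem avg_big {z₀ : P} {ρ : ℝ} (hρ : 0 < ρ) {n : ℕ} (hn : 0 < n) (hρn : 20 ≤ ρ * n)
    {p : V} (h : box p (sl z₀ ρ n) ⊆ SS z₀ ρ n) (φ : V → ℝ) :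
    |avg (box p (sl z₀ ρ n)) φ| ≤ 13 * Real.sqrt (nnE (SS z₀ ρ n) φ) + |avg (R1 z₀ ρ n) φ| := by
  have hs := sl_spec (z₀ := z₀) hρn
  have hpos : (0 : ℝ) < sl z₀ ρ n := by linarith [hs.2.2.1]
  have hpos' : 0 < sl z₀ ρ n := by exact_mod_cast hpos
  have h1 := avg_R1 hρ hn hρn (a := p.1) (b := p.1 + sl z₀ ρ n) (c := p.2)
    (d := p.2 + sl z₀ ρ n) (by omega) (by omega) h φ
  have e : ((p.1 + sl z₀ ρ n - p.1 : ℤ) : ℝ) = sl z₀ ρ n := by push_cast; ring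
  rw [e] at h1
  have hE := nnE_nonneg (SS z₀ ρ n) φ
  have h2 : 54 * (ρ * n) / (sl z₀ ρ n : ℝ) + 155 ≤ 13 ^ 2 := by
    have : 54 * (ρ * n) / (sl z₀ ρ n : ℝ) ≤ 14 := by
      rw [div_le_iff₀ hpos]; linarith [hs.2.2.1]
    linarith
  have h3 := h1.trans (mul_le_mul_of_nonneg_right h2 hE)
  have h4 := Real.sqrt_le_sqrt h3
  rw [Real.sqrt_sq_eq_abs, Real.sqrt_mul (by norm_num), Real.sqrt_sq (by norm_num)] at h4
  have h5 := abs_sub_abs_le_abs_sub (avg (box p (sl z₀ ρ n)) φ) (avg (R1 z₀ ρ n) φ)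
  have h6 : |avg (box p (sl z₀ ρ n)) φ - avg (R1 z₀ ρ n) φ| ≤
      13 * Real.sqrt (nnE (SS z₀ ρ n) φ) := h4
  linarith

theorem sq_comb {u k E A : ℝ} (hE : 0 ≤ E) (h : |u| ≤ k * Real.sqrt E + |A|) :
    u ^ 2 ≤ 2 * k ^ 2 * E + 2 * A ^ 2 := by
  have h1 : u ^ 2 ≤ (k * Real.sqrt E + |A|) ^ 2 := by
    rw [← sq_abs u]
    exact pow_le_pow_left₀ (abs_nonneg _) h 2
  have h2 := Real.sq_sqrt hE
  have h3 := sq_abs A
  nlinarith [sq_nonneg (k * Real.sqrt E - |A|)]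

/-- 6.2 (c). -/
theorem green {α β : ℝ} (_hα : 4 < α) (hβ : 0 < β) (z₀ : P) {ρ : ℝ} (hρ : 0 < ρ) :
    ∃ C > 0, ∀ M δ : ℝ, 1 ≤ M → 0 < δ → δ ≤ ρ / 8 → ∀ᶠ n : ℕ in atTop, ∀ φ : V → ℝ,
      ∀ x ∈ SS z₀ ρ n, φ x ^ 2 ≤ C * Real.log n ^ 2 * MP α β z₀ ρ M δ n φ φ := by
  refine ⟨440 * (1 / β) + 120 * (1 / ρ ^ 2), by positivity, fun M δ hM hδ hδρ => ?_⟩
  filter_upwards [ev_large hρ hδ, eventually_ge_atTop 3,
    eventually_ge_atTop ⌈27 * ρ⌉₊] with n hn hn3 hn27 φ x hx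
  obtain ⟨hn0, hnδ, hρn⟩ := hn
  have hM0 : 0 < M := by linarith
  have hs := sl_spec (z₀ := z₀) hρn
  have hE := nnE_le_MP (α := α) hβ.le z₀ ρ hM0.le δ n φ
  have hE0 := nnE_nonneg (SS z₀ ρ n) φ
  have hA := R1_avg' (α := α) hβ (z₀ := z₀) hρ hM hδ hδρ hn0 hnδ hρn φ
  have hQ : 0 ≤ MP α β z₀ ρ M δ n φ φ := MP_nonneg hβ.le z₀ ρ hM0.le δ n φ
  have hx' := hx
  rw [SS_rect, mem_rect] at hx'
  have hpos : (0 : ℝ) < sl z₀ ρ n := by linarith [hs.2.2.1]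
  have hpos' : 0 < sl z₀ ρ n := by exact_mod_cast hpos
  obtain ⟨p, hp1, hp2⟩ := exists_box (l := sl z₀ ρ n) hx'.1.1 (b := x.1 + 1) (by omega) hx'.2.1
    (d := x.2 + 1) (by omega) (by omega) (by omega) hs.1 hs.2.1
  rw [← SS_rect] at hp2
  have hxp : x ∈ box p (sl z₀ ρ n) := hp1 (by rw [mem_rect]; omega)
  have h1 := pt_box hxp φ
  have h2 := avg_big hρ hn0 hρn hp2 φ
  have h3 : |φ x - avg (box p (sl z₀ ρ n)) φ| ≤ 3 * Nat.clog 2 (sl z₀ ρ n) *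
      Real.sqrt (nnE (SS z₀ ρ n) φ) :=
    h1.trans (mul_le_mul_of_nonneg_left (Real.sqrt_le_sqrt (nnE_mono hp2 φ)) (by positivity))
  have hn' : (3 : ℝ) ≤ n := by exact_mod_cast hn3
  have hlogn : 1 ≤ Real.log n := by
    have h4 : Real.log (Real.exp 1) ≤ Real.log n := by
      refine Real.log_le_log (Real.exp_pos _) ?_
      have := Real.exp_one_lt_d9
      linarith
    rwa [Real.log_exp] at h4
  have hsl : (sl z₀ ρ n : ℝ) ≤ (n : ℝ) ^ 2 := by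
    have h4 : 27 * ρ ≤ n := (Nat.le_ceil _).trans (by exact_mod_cast hn27)
    calc (sl z₀ ρ n : ℝ) ≤ 27 * (ρ * n) := hs.2.2.2
      _ = (27 * ρ) * n := by ring
      _ ≤ n * n := mul_le_mul_of_nonneg_right h4 (by linarith)
      _ = (n : ℝ) ^ 2 := by ring
  have hclog := clog_le_log (by nlinarith : (1 : ℝ) ≤ (n : ℝ) ^ 2) hsl
  rw [Real.log_pow] at hclog
  push_cast at hclog
  set L := (Nat.clog 2 (sl z₀ ρ n) : ℝ) with hL
  have hL0 : 0 ≤ L := by rw [hL]; positivity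
  set E := nnE (SS z₀ ρ n) φ
  set A := avg (R1 z₀ ρ n) φ
  set Q := MP α β z₀ ρ M δ n φ φ
  set l := Real.log (n : ℝ)
  have h4 : |φ x| ≤ (25 * l) * Real.sqrt E + |A| := by
    have h5 := abs_sub_abs_le_abs_sub (φ x) (avg (box p (sl z₀ ρ n)) φ)
    have h6 : (3 * L + 13) * Real.sqrt E ≤ (25 * l) * Real.sqrt E :=
      mul_le_mul_of_nonneg_right (by linarith) (Real.sqrt_nonneg _)
    linarith
  have h5 := sq_comb hE0 h4
  have h6 : E ≤ Q * (1 / β) / 4 := by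
    rw [mul_one_div, div_div, le_div_iff₀ (by positivity)]; linarith
  have hl2 : 1 ≤ l ^ 2 := by nlinarith
  have hb : 0 < 1 / β := by positivity
  have hr : 0 < 1 / ρ ^ 2 := by positivity
  set ib := 1 / β
  set ir := 1 / ρ ^ 2
  calc φ x ^ 2 ≤ 2 * (25 * l) ^ 2 * E + 2 * A ^ 2 := h5
    _ ≤ 2 * (25 * l) ^ 2 * (Q * ib / 4) + 2 * (60 * (ib + ir) * Q) := by
        refine add_le_add (mul_le_mul_of_nonneg_left h6 (by positivity)) ?_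
        linarith
    _ = (625 / 2) * ib * l ^ 2 * Q + 120 * (ib + ir) * Q := by ring
    _ ≤ (625 / 2) * ib * l ^ 2 * Q + 120 * (ib + ir) * (l ^ 2 * Q) := by
        have : Q ≤ l ^ 2 * Q := by nlinarith
        have h7 := mul_le_mul_of_nonneg_left this (by positivity : 0 ≤ 120 * (ib + ir))
        linarith
    _ = (865 / 2 * ib + 120 * ir) * l ^ 2 * Q := by ring
    _ ≤ (440 * ib + 120 * ir) * l ^ 2 * Q := by
        refine mul_le_mul_of_nonneg_right ?_ hQ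
        refine mul_le_mul_of_nonneg_right ?_ (by positivity)
        linarith

theorem sub_box_step {a b c d : ℤ} {p : V} {k : ℕ} {N : ℝ} (hk : 1 ≤ k) (hk1 : N / 4 ≤ k) (hN : 2 ≤ N)
    (h : box p k ⊆ rect a b c d) (hab : a < b) (hcd : c < d)
    (hb : ((b - a : ℤ) : ℝ) ≤ 3 / 2 * N) (hd : ((d - c : ℤ) : ℝ) ≤ 3 / 2 * N)
    (hd' : N / 2 ≤ ((d - c : ℤ) : ℝ)) (φ : V → ℝ) :
    |avg (box p k) φ - avg (rect a b c d) φ| ≤ 5 * Real.sqrt (nnE (rect a b c d) φ) := by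
  have h1 := avg_sub_avg (a₁ := p.1) (b₁ := p.1 + k) (c₁ := p.2) (d₁ := p.2 + k) h
    (Finset.Subset.refl (rect a b c d)) (by omega) (by omega) hab hcd φ
  have e : ((p.1 + k - p.1 : ℤ) : ℝ) = k := by push_cast; ring
  rw [e] at h1
  have hk' : (0 : ℝ) < k := by exact_mod_cast hk
  have h2 : 2 * ((d - c : ℤ) : ℝ) / k + 2 * ((b - a : ℤ) : ℝ) / ((d - c : ℤ) : ℝ) ≤ 5 ^ 2 := by
    have h3 : 2 * ((d - c : ℤ) : ℝ) / k ≤ 12 := by
      rw [div_le_iff₀ hk']; linarith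
    have h4 : 2 * ((b - a : ℤ) : ℝ) / ((d - c : ℤ) : ℝ) ≤ 6 := by
      rw [div_le_iff₀ (by linarith)]; linarith
    linarith
  have h3 := Real.sqrt_le_sqrt (h1.trans (mul_le_mul_of_nonneg_right h2 (nnE_nonneg _ _)))
  rw [Real.sqrt_sq_eq_abs, Real.sqrt_mul (by norm_num), Real.sqrt_sq (by norm_num)] at h3
  exact h3

/-- 6.2 (d). -/
theorem blockbd {α β : ℝ} (_hα : 4 < α) (hβ : 0 < β) (z₀ : P) {ρ : ℝ} (hρ : 0 < ρ) :
    ∃ C > 0, ∀ M δ : ℝ, 1 ≤ M → 0 < δ → δ ≤ ρ / 8 → ∀ᶠ n : ℕ in atTop, ∀ φ : V → ℝ,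
      ∀ i ∈ pin z₀ ρ δ, (avg (blk z₀ ρ δ n i) φ) ^ 2 ≤
        C * (1 + |Real.log δ|) ^ 2 * MP α β z₀ ρ M δ n φ φ := by
  set K := 21 + 5 * |Real.log (109 * ρ)| with hK
  have hK0 : 21 ≤ K := by rw [hK]; linarith [abs_nonneg (Real.log (109 * ρ))]
  refine ⟨K ^ 2 * (1 / β) + 120 * (1 / β + 1 / ρ ^ 2), by positivity, fun M δ hM hδ hδρ => ?_⟩
  filter_upwards [ev_large hρ hδ] with n hn φ i hi
  obtain ⟨hn0, hnδ, hρn⟩ := hn
  have hM0 : 0 < M := by linarith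
  have hs := sl_spec (z₀ := z₀) hρn
  have hE := nnE_le_MP (α := α) hβ.le z₀ ρ hM0.le δ n φ
  have hE0 := nnE_nonneg (SS z₀ ρ n) φ
  have hA := R1_avg' (α := α) hβ (z₀ := z₀) hρ hM hδ hδρ hn0 hnδ hρn φ
  have hQ : 0 ≤ MP α β z₀ ρ M δ n φ φ := MP_nonneg hβ.le z₀ ρ hM0.le δ n φ
  have hsub := blk_sub z₀ ρ δ n i
  rw [blk_eq hρ hδ hn0 hi] at hsub ⊢
  have l1 := lo_side_lb z₀.1 δ n i.1
  have u1 := lo_side_ub z₀.1 δ n i.1
  have l2 := lo_side_lb z₀.2 δ n i.2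
  have u2 := lo_side_ub z₀.2 δ n i.2
  set a := lo z₀.1 δ n i.1
  set b := lo z₀.1 δ n (i.1 + 1)
  set c := lo z₀.2 δ n i.2
  set d := lo z₀.2 δ n (i.2 + 1)
  set N := (n : ℝ) * δ with hN
  set k := ⌊N / 2⌋₊ with hk
  have hk1 : 1 ≤ k := by
    rw [hk]; exact Nat.le_floor (by push_cast; linarith)
  have hkN : (k : ℝ) ≤ N / 2 := Nat.floor_le (by linarith)
  have hkN' : N / 4 ≤ k := by
    have h1 := Nat.lt_floor_add_one (N / 2)
    have h2 : (1 : ℝ) ≤ k := by exact_mod_cast hk1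
    rw [← hk] at h1
    linarith
  have hkb : (k : ℤ) ≤ b - a := by
    have : (k : ℝ) ≤ ((b - a : ℤ) : ℝ) := by linarith
    exact_mod_cast this
  have hkd : (k : ℤ) ≤ d - c := by
    have : (k : ℝ) ≤ ((d - c : ℤ) : ℝ) := by linarith
    exact_mod_cast this
  have hbk : box (a, c) k ⊆ rect a b c d := by
    intro x hx
    rw [mem_box] at hx
    rw [mem_rect]
    dsimp only at hx
    omega
  have h1 := sub_box_step hk1 hkN' hnδ hbk (by omega) (by omega) (by linarith) (by linarith)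
    (by linarith) φ
  have hcor : (a, c) ∈ SS z₀ ρ n := hsub (by rw [mem_rect]; dsimp only; omega)
  have hcor2 : (a + k - 1, c + k - 1) ∈ SS z₀ ρ n := hsub (by rw [mem_rect]; dsimp only; omega)
  rw [SS_rect, mem_rect] at hcor hcor2
  dsimp only at hcor hcor2
  have hkl : k ≤ sl z₀ ρ n := by
    have h2 : (k : ℝ) ≤ sl z₀ ρ n := by
      have h3 : N ≤ ρ * n := by
        rw [hN, mul_comm]
        exact mul_le_mul_of_nonneg_right (by linarith) (Nat.cast_nonneg n)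
      linarith [hs.2.2.1]
    exact_mod_cast h2
  obtain ⟨p, hp1, hp2⟩ := exists_box (l := sl z₀ ρ n) (a := a) (b := a + k) (c := c) (d := c + k)
    hcor.1.1 (by omega) hcor.2.1 (by omega) (by omega) (by omega) hs.1 hs.2.1
  rw [← SS_rect] at hp2
  set m := Nat.clog 2 ⌈108 * ρ / δ⌉₊ with hm
  have hlk : sl z₀ ρ n ≤ 2 ^ m * k := by
    have h2 : ⌈108 * ρ / δ⌉₊ ≤ 2 ^ m := Nat.le_pow_clog (by norm_num) _
    have h3 : (sl z₀ ρ n : ℝ) ≤ ((⌈108 * ρ / δ⌉₊ * k : ℕ) : ℝ) := by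
      push_cast
      have h4 : 108 * ρ / δ ≤ ⌈108 * ρ / δ⌉₊ := Nat.le_ceil _
      calc (sl z₀ ρ n : ℝ) ≤ 27 * (ρ * n) := hs.2.2.2
        _ = (108 * ρ / δ) * (N / 4) := by rw [hN]; field_simp; ring
        _ ≤ (⌈108 * ρ / δ⌉₊ : ℝ) * k := mul_le_mul h4 hkN' (by positivity) (by positivity)
    have h4 : sl z₀ ρ n ≤ ⌈108 * ρ / δ⌉₊ * k := by exact_mod_cast h3
    exact h4.trans (Nat.mul_le_mul_right k h2)
  have h2 := box_box m (a, c) p k (sl z₀ ρ n) hk1 hp1 hlk φ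
  have h3 := avg_big hρ hn0 hρn hp2 φ
  have hlog : (m : ℝ) ≤ 3 / 2 * (|Real.log (109 * ρ)| + |Real.log δ|) + 1 := by
    have hr1 : 8 ≤ ρ / δ := by rw [le_div_iff₀ hδ]; linarith
    have h4 : ((⌈108 * ρ / δ⌉₊ : ℕ) : ℝ) ≤ 109 * ρ / δ := by
      have h5 := Nat.ceil_lt_add_one (by positivity : 0 ≤ 108 * ρ / δ)
      have e1 : 108 * ρ / δ = 108 * (ρ / δ) := by ring
      have e2 : 109 * ρ / δ = 109 * (ρ / δ) := by ring
      rw [e1] at h5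
      rw [e2, e1]
      linarith
    have h5 : (1 : ℝ) ≤ 109 * ρ / δ := by
      have e2 : 109 * ρ / δ = 109 * (ρ / δ) := by ring
      rw [e2]; linarith
    have h6 := clog_le_log h5 h4
    rw [Real.log_div (by positivity) hδ.ne'] at h6
    have h7 := le_abs_self (Real.log (109 * ρ))
    have h8 := neg_abs_le (Real.log δ)
    rw [← hm] at h6
    linarith
  set E := nnE (SS z₀ ρ n) φ with hEd
  set A := avg (R1 z₀ ρ n) φ
  set Q := MP α β z₀ ρ M δ n φ φ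
  have hE1 : Real.sqrt (nnE (rect a b c d) φ) ≤ Real.sqrt E := Real.sqrt_le_sqrt (nnE_mono hsub φ)
  have hE2 : Real.sqrt (nnE (box p (sl z₀ ρ n)) φ) ≤ Real.sqrt E :=
    Real.sqrt_le_sqrt (nnE_mono hp2 φ)
  set D := 1 + |Real.log δ| with hD
  have hD1 : 1 ≤ D := by rw [hD]; linarith [abs_nonneg (Real.log δ)]
  have h4 : |avg (rect a b c d) φ| ≤ (K * D) * Real.sqrt E + |A| := by
    have h5 := abs_sub_abs_le_abs_sub (avg (rect a b c d) φ) (avg (box (a, c) k) φ)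
    rw [abs_sub_comm] at h5
    have h6 := abs_sub_abs_le_abs_sub (avg (box (a, c) k) φ) (avg (box p (sl z₀ ρ n)) φ)
    have h7 : 3 * (m : ℝ) * Real.sqrt (nnE (box p (sl z₀ ρ n)) φ) ≤ 3 * (m : ℝ) * Real.sqrt E :=
      mul_le_mul_of_nonneg_left hE2 (by positivity)
    have h8 : (18 + 3 * m) * Real.sqrt E ≤ (K * D) * Real.sqrt E := by
      refine mul_le_mul_of_nonneg_right ?_ (Real.sqrt_nonneg _)
      have h9 := abs_nonneg (Real.log (109 * ρ))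
      have h10 := abs_nonneg (Real.log δ)
      rw [hK, hD]
      nlinarith [mul_nonneg h9 h10]
    linarith
  have h5 := sq_comb hE0 h4
  have h6 : E ≤ Q * (1 / β) / 4 := by
    rw [mul_one_div, div_div, le_div_iff₀ (by positivity)]; linarith
  have hD2 : 1 ≤ D ^ 2 := by nlinarith
  have hb : 0 < 1 / β := by positivity
  have hr : 0 < 1 / ρ ^ 2 := by positivity
  set ib := 1 / β
  set ir := 1 / ρ ^ 2
  calc (avg (rect a b c d) φ) ^ 2 ≤ 2 * (K * D) ^ 2 * E + 2 * A ^ 2 := h5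
    _ ≤ 2 * (K * D) ^ 2 * (Q * ib / 4) + 2 * (60 * (ib + ir) * Q) := by
        refine add_le_add (mul_le_mul_of_nonneg_left h6 (by positivity)) ?_
        linarith
    _ = K ^ 2 * ib / 2 * D ^ 2 * Q + 120 * (ib + ir) * Q := by ring
    _ ≤ K ^ 2 * ib * D ^ 2 * Q + 120 * (ib + ir) * (D ^ 2 * Q) := by
        have h7 : Q ≤ D ^ 2 * Q := by nlinarith
        have h8 := mul_le_mul_of_nonneg_left h7 (by positivity : 0 ≤ 120 * (ib + ir))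
        have h9 : 0 ≤ K ^ 2 * ib / 2 * D ^ 2 * Q := by positivity
        linarith
    _ = (K ^ 2 * ib + 120 * (ib + ir)) * D ^ 2 * Q := by ring

end Pool.Agent.LR.B5
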