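import Pool.Agent.LR.B5.Cells

/-!
# LR-B5-Poinc: 6.2 (b), (c), (d)
-/

set_option autoImplicit false

open Filter

namespace Pool.Agent.LR.B5

/-- The rectangle inside the first pinned shell. -/
noncomputable def R1 (z₀ : P) (ρ : ℝ) (n : ℕ) : Finset V :=
  bx (z₀.1 + 13 / 10 * ρ) (z₀.1 + 16 / 10 * ρ) (z₀.2 - 2 / 10 * ρ) (z₀.2 + 2 / 10 * ρ) n

theorem R1_deep {z₀ : P} {ρ δ : ℝ} (hρ : 0 < ρ) (hδρ : δ ≤ ρ / 8) {n : ℕ} (hn : 0 < n)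
    {x : V} (hx : x ∈ R1 z₀ ρ n) : ρ + 2 * δ ≤ lenP (sc n x - z₀) ∧
      lenP (sc n x - z₀) ≤ 2 * ρ - 2 * δ := by
  unfold R1 at hx
  rw [mem_bx hn] at hx
  obtain ⟨⟨h1, h2⟩, h3, h4⟩ := hx
  constructor
  · have h5 := (le_abs_self _).trans (abs_fst_le_lenP (sc n x - z₀))
    rw [Prod.fst_sub] at h5
    linarith
  · unfold lenP
    refine Real.sqrt_le_iff.2 ⟨by linarith, ?_⟩
    rw [Prod.fst_sub, Prod.snd_sub]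
    have h5 : ((sc n x).1 - z₀.1) ^ 2 ≤ (16 / 10 * ρ) ^ 2 := sq_le_sq' (by linarith) (by linarith)
    have h6 : ((sc n x).2 - z₀.2) ^ 2 ≤ (2 / 10 * ρ) ^ 2 := sq_le_sq' (by linarith) (by linarith)
    have h7 : (7 / 4 * ρ) ^ 2 ≤ (2 * ρ - 2 * δ) ^ 2 := by
      refine pow_le_pow_left₀ (by linarith) ?_ 2
      linarith
    nlinarith

theorem avg_sq_le {S : Finset V} (hS : S.Nonempty) (φ : V → ℝ) :
    (avg S φ) ^ 2 ≤ (∑ x ∈ S, φ x ^ 2) / S.card := by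
  have hs : (0 : ℝ) < S.card := by exact_mod_cast hS.card_pos
  rw [avg_eq, div_pow, div_le_div_iff₀ (by positivity) hs]
  have h := sq_sum_le_card_mul_sum_sq (s := S) (f := φ)
  calc (∑ x ∈ S, φ x) ^ 2 * S.card ≤ (S.card * ∑ x ∈ S, φ x ^ 2) * S.card :=
        mul_le_mul_of_nonneg_right h hs.le
    _ = (∑ x ∈ S, φ x ^ 2) * S.card ^ 2 := by ring

theorem R1_nonempty {z₀ : P} {ρ : ℝ} {n : ℕ} (hρn : 20 ≤ ρ * n) : (R1 z₀ ρ n).Nonempty := by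
  unfold R1
  rw [bx_eq_rect]
  have h1 := side_lb (z₀.1 + 13 / 10 * ρ) (z₀.1 + 16 / 10 * ρ) n
  have h2 := side_lb (z₀.2 - 2 / 10 * ρ) (z₀.2 + 2 / 10 * ρ) n
  have h3 : (0 : ℝ) < ((⌊n * (z₀.1 + 16 / 10 * ρ)⌋ + 1 - ⌈n * (z₀.1 + 13 / 10 * ρ)⌉ : ℤ) : ℝ) := by
    nlinarith
  have h4 : (0 : ℝ) < ((⌊n * (z₀.2 + 2 / 10 * ρ)⌋ + 1 - ⌈n * (z₀.2 - 2 / 10 * ρ)⌉ : ℤ) : ℝ) := by
    nlinarith
  have h3' : 0 < ⌊(n : ℝ) * (z₀.1 + 16 / 10 * ρ)⌋ + 1 - ⌈(n : ℝ) * (z₀.1 + 13 / 10 * ρ)⌉ := by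
    exact_mod_cast h3
  have h4' : 0 < ⌊(n : ℝ) * (z₀.2 + 2 / 10 * ρ)⌋ + 1 - ⌈(n : ℝ) * (z₀.2 - 2 / 10 * ρ)⌉ := by
    exact_mod_cast h4
  refine ⟨(⌈(n : ℝ) * (z₀.1 + 13 / 10 * ρ)⌉, ⌈(n : ℝ) * (z₀.2 - 2 / 10 * ρ)⌉),
    mem_rect.2 ⟨⟨le_rfl, ?_⟩, le_rfl, ?_⟩⟩
  · dsimp only; linarith
  · dsimp only; linarith

theorem R1_card {z₀ : P} {ρ : ℝ} {n : ℕ} (hρn : 20 ≤ ρ * n) :
    35 / 400 * (ρ * n) ^ 2 ≤ ((R1 z₀ ρ n).card : ℝ) := by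
  unfold R1
  rw [bx_eq_rect, rect_card, Nat.cast_mul]
  have h1 := side_lb (z₀.1 + 13 / 10 * ρ) (z₀.1 + 16 / 10 * ρ) n
  have h2 := side_lb (z₀.2 - 2 / 10 * ρ) (z₀.2 + 2 / 10 * ρ) n
  set u := ⌊(n : ℝ) * (z₀.1 + 16 / 10 * ρ)⌋ + 1 - ⌈(n : ℝ) * (z₀.1 + 13 / 10 * ρ)⌉
  set v := ⌊(n : ℝ) * (z₀.2 + 2 / 10 * ρ)⌋ + 1 - ⌈(n : ℝ) * (z₀.2 - 2 / 10 * ρ)⌉
  have hu : 1 / 4 * (ρ * n) ≤ (u.toNat : ℝ) := by
    have : (u : ℝ) ≤ (u.toNat : ℝ) := by exact_mod_cast Int.self_le_toNat u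
    nlinarith
  have hv : 35 / 100 * (ρ * n) ≤ (v.toNat : ℝ) := by
    have : (v : ℝ) ≤ (v.toNat : ℝ) := by exact_mod_cast Int.self_le_toNat v
    nlinarith
  calc 35 / 400 * (ρ * n) ^ 2 = (1 / 4 * (ρ * n)) * (35 / 100 * (ρ * n)) := by ring
    _ ≤ _ := mul_le_mul hu hv (by nlinarith) (by positivity)

/-- The mean over `R1` is controlled by the pins. -/
theorem R1_avg {α β : ℝ} (hβ : 0 < β) {z₀ : P} {ρ M δ : ℝ} (hρ : 0 < ρ) (hM : 0 < M)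
    (hδ : 0 < δ) (hδρ : δ ≤ ρ / 8) {n : ℕ} (hn : 0 < n) (hnδ : 2 ≤ (n : ℝ) * δ)
    (hρn : 20 ≤ ρ * n) (φ : V → ℝ) :
    (avg (R1 z₀ ρ n) φ) ^ 2 ≤ 60 * ((δ ^ 2 / β + 1 / M) / ρ ^ 2) * MP α β z₀ ρ M δ n φ φ := by
  have h1 := avg_sq_le (R1_nonempty (z₀ := z₀) hρn) φ
  have h2 := deep_sum (α := α) hβ hρ hM hδ hn hnδ φ (R1 z₀ ρ n) (fun x hx => by
    have := R1_deep hρ hδρ hn hx
    refine ⟨1, Or.inl rfl, ?_, ?_⟩ <;> push_cast <;> linarith [this.1, this.2])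
  have h3 := R1_card (z₀ := z₀) hρn
  have hn' : (0 : ℝ) < n := by exact_mod_cast hn
  have hc : 0 < 35 / 400 * (ρ * (n : ℝ)) ^ 2 := by positivity
  have hQ : 0 ≤ MP α β z₀ ρ M δ n φ φ := MP_nonneg hβ.le z₀ ρ hM.le δ n φ
  set Q := MP α β z₀ ρ M δ n φ φ
  refine h1.trans ?_
  rw [div_le_iff₀ (lt_of_lt_of_le hc h3)]
  refine h2.trans ?_
  calc 5 * (n : ℝ) ^ 2 * (δ ^ 2 / β + 1 / M) * Q
      ≤ 60 * ((δ ^ 2 / β + 1 / M) / ρ ^ 2) * Q * (35 / 400 * (ρ * n) ^ 2) := by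
        have e : 60 * ((δ ^ 2 / β + 1 / M) / ρ ^ 2) * Q * (35 / 400 * (ρ * n) ^ 2) =
          21 / 4 * (n : ℝ) ^ 2 * (δ ^ 2 / β + 1 / M) * Q := by field_simp; ring
        rw [e]
        refine mul_le_mul_of_nonneg_right ?_ hQ
        refine mul_le_mul_of_nonneg_right ?_ (by positivity)
        nlinarith [sq_nonneg (n : ℝ)]
    _ ≤ _ := mul_le_mul_of_nonneg_left h3 (by positivity)

/-- Notation-free sides of the big box. -/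
noncomputable def sA (z₀ : P) (ρ : ℝ) (n : ℕ) : ℤ := ⌈(n : ℝ) * (z₀.1 - 13 * ρ)⌉
/-- see `sA` -/
noncomputable def sB (z₀ : P) (ρ : ℝ) (n : ℕ) : ℤ := ⌊(n : ℝ) * (z₀.1 + 13 * ρ)⌋ + 1
/-- see `sA` -/
noncomputable def sC (z₀ : P) (ρ : ℝ) (n : ℕ) : ℤ := ⌈(n : ℝ) * (z₀.2 - 13 * ρ)⌉
/-- see `sA` -/
noncomputable def sD (z₀ : P) (ρ : ℝ) (n : ℕ) : ℤ := ⌊(n : ℝ) * (z₀.2 + 13 * ρ)⌋ + 1

theorem SS_rect (z₀ : P) (ρ : ℝ) (n : ℕ) :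
    SS z₀ ρ n = rect (sA z₀ ρ n) (sB z₀ ρ n) (sC z₀ ρ n) (sD z₀ ρ n) := by
  unfold SS
  rw [bx_eq_rect]
  rfl

theorem sAB {z₀ : P} {ρ : ℝ} {n : ℕ} (hρn : 20 ≤ ρ * n) :
    25 * (ρ * n) ≤ ((sB z₀ ρ n - sA z₀ ρ n : ℤ) : ℝ) ∧
      ((sB z₀ ρ n - sA z₀ ρ n : ℤ) : ℝ) ≤ 27 * (ρ * n) := by
  have h1 := side_lb (z₀.1 - 13 * ρ) (z₀.1 + 13 * ρ) n
  have h2 := side_ub (z₀.1 - 13 * ρ) (z₀.1 + 13 * ρ) n
  unfold sA sB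
  constructor <;> nlinarith

theorem sCD {z₀ : P} {ρ : ℝ} {n : ℕ} (hρn : 20 ≤ ρ * n) :
    25 * (ρ * n) ≤ ((sD z₀ ρ n - sC z₀ ρ n : ℤ) : ℝ) ∧
      ((sD z₀ ρ n - sC z₀ ρ n : ℤ) : ℝ) ≤ 27 * (ρ * n) := by
  have h1 := side_lb (z₀.2 - 13 * ρ) (z₀.2 + 13 * ρ) n
  have h2 := side_ub (z₀.2 - 13 * ρ) (z₀.2 + 13 * ρ) n
  unfold sC sD
  constructor <;> nlinarith

theorem R1_sub {z₀ : P} {ρ : ℝ} (hρ : 0 < ρ) {n : ℕ} (hn : 0 < n) :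
    R1 z₀ ρ n ⊆ SS z₀ ρ n := by
  intro x hx
  unfold R1 at hx
  unfold SS
  rw [mem_bx hn] at hx ⊢
  refine ⟨⟨?_, ?_⟩, ?_, ?_⟩ <;> linarith [hx.1.1, hx.1.2, hx.2.1, hx.2.2]

/-- Mean over a rectangle of the big box against the mean over `R1`. -/
theorem avg_R1 {z₀ : P} {ρ : ℝ} (hρ : 0 < ρ) {n : ℕ} (hn : 0 < n) (hρn : 20 ≤ ρ * n)
    {a b c d : ℤ} (hab : a < b) (hcd : c < d) (h : rect a b c d ⊆ SS z₀ ρ n) (φ : V → ℝ) :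
    (avg (rect a b c d) φ - avg (R1 z₀ ρ n) φ) ^ 2 ≤
      (54 * (ρ * n) / ((b - a : ℤ) : ℝ) + 155) * nnE (SS z₀ ρ n) φ := by
  have hR := R1_sub (z₀ := z₀) hρ hn
  have hne := R1_nonempty (z₀ := z₀) hρn
  have hl2 := side_lb (z₀.2 - 2 / 10 * ρ) (z₀.2 + 2 / 10 * ρ) n
  have hl1 := side_lb (z₀.1 + 13 / 10 * ρ) (z₀.1 + 16 / 10 * ρ) n
  unfold R1 at hR hne ⊢
  rw [bx_eq_rect] at hR hne ⊢
  set a₂ := ⌈(n : ℝ) * (z₀.1 + 13 / 10 * ρ)⌉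
  set b₂ := ⌊(n : ℝ) * (z₀.1 + 16 / 10 * ρ)⌋ + 1
  set c₂ := ⌈(n : ℝ) * (z₀.2 - 2 / 10 * ρ)⌉
  set d₂ := ⌊(n : ℝ) * (z₀.2 + 2 / 10 * ρ)⌋ + 1
  have hd2 : 35 / 100 * (ρ * n) ≤ ((d₂ - c₂ : ℤ) : ℝ) := by nlinarith
  have hab2 : (0 : ℝ) < ((b₂ - a₂ : ℤ) : ℝ) := by nlinarith
  have hab2' : 0 < b₂ - a₂ := by exact_mod_cast hab2
  have hcd2 : (0 : ℝ) < ((d₂ - c₂ : ℤ) : ℝ) := by nlinarith
  have hcd2' : 0 < d₂ - c₂ := by exact_mod_cast hcd2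
  have hAB := sAB (z₀ := z₀) hρn
  have hCD := sCD (z₀ := z₀) hρn
  rw [SS_rect] at h hR ⊢
  have key := avg_sub_avg h hR hab hcd (by omega) (by omega) φ
  refine key.trans (mul_le_mul_of_nonneg_right ?_ (nnE_nonneg _ _))
  have hba : (0 : ℝ) < ((b - a : ℤ) : ℝ) := by exact_mod_cast sub_pos.2 hab
  refine add_le_add ?_ ?_
  · refine div_le_div_of_nonneg_right ?_ hba.le
    linarith [hCD.2]
  · rw [div_le_iff₀ hcd2]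
    nlinarith [hAB.2]

theorem alg1 {s t t₂ r : ℝ} (hr0 : 0 < r) (hs0 : 0 ≤ s) (ht0 : 0 ≤ t) (hs : s ≤ 27 * r)
    (ht : t ≤ 27 * r) (h2 : 35 / 100 * r ≤ t₂) :
    2 * t * t + 2 * s * (s * t) / t₂ ≤ 114000 * r ^ 2 := by
  have h1 : 2 * s * (s * t) / t₂ ≤ 112480 * r ^ 2 := by
    rw [div_le_iff₀ (by linarith)]
    have h2 : s * (s * t) ≤ (27 * r) * ((27 * r) * (27 * r)) := by
      refine mul_le_mul hs (mul_le_mul hs ht ht0 (by positivity)) (by positivity)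
        (by positivity)
    have h3 : 0 < r ^ 3 := pow_pos hr0 3
    calc 2 * s * (s * t) = 2 * (s * (s * t)) := by ring
      _ ≤ 2 * ((27 * r) * ((27 * r) * (27 * r))) := mul_le_mul_of_nonneg_left h2 (by norm_num)
      _ = 39366 * r ^ 3 := by ring
      _ ≤ 39368 * r ^ 3 := by linarith
      _ = 112480 * r ^ 2 * (35 / 100 * r) := by ring
      _ ≤ 112480 * r ^ 2 * t₂ := mul_le_mul_of_nonneg_left (by assumption) (by positivity)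
  have h2 : t * t ≤ (27 * r) * (27 * r) := mul_le_mul ht ht ht0 (by positivity)
  calc 2 * t * t + 2 * s * (s * t) / t₂ ≤ 2 * ((27 * r) * (27 * r)) + 112480 * r ^ 2 := by
        linarith
    _ ≤ 114000 * r ^ 2 := by nlinarith [sq_nonneg r]

theorem alg2 (u v : ℝ) : u ^ 2 ≤ 2 * (u - v) ^ 2 + 2 * v ^ 2 := by
  nlinarith [sq_nonneg (u - v - v)]

/-- 6.2 (b). -/
theorem poinc {α β : ℝ} (_hα : 4 < α) (hβ : 0 < β) (z₀ : P) {ρ : ℝ} (hρ : 0 < ρ) :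
    ∃ C > 0, ∀ M δ : ℝ, 1 ≤ M → 0 < δ → δ ≤ ρ / 8 → ∀ᶠ n : ℕ in atTop, ∀ φ : V → ℝ,
      (∑ x ∈ SS z₀ ρ n, φ x ^ 2) / (n : ℝ) ^ 2 ≤ C * MP α β z₀ ρ M δ n φ φ := by
  refine ⟨200000 * (ρ ^ 2 / β + 1), by positivity, fun M δ hM hδ hδρ => ?_⟩
  filter_upwards [eventually_ge_atTop (max 1 (max ⌈2 / δ⌉₊ ⌈20 / ρ⌉₊))] with n hn φ
  have hn1 : 1 ≤ n := (le_max_left _ _).trans hn
  have hnδ : 2 ≤ (n : ℝ) * δ := by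
    have h1 : (2 / δ : ℝ) ≤ n := (Nat.le_ceil _).trans
      (by exact_mod_cast (le_max_left _ _).trans ((le_max_right _ _).trans hn))
    rwa [div_le_iff₀ hδ] at h1
  have hρn : 20 ≤ ρ * n := by
    have h1 : (20 / ρ : ℝ) ≤ n := (Nat.le_ceil _).trans
      (by exact_mod_cast (le_max_right _ _).trans ((le_max_right _ _).trans hn))
    rw [div_le_iff₀ hρ] at h1
    linarith
  have hn0 : 0 < n := hn1
  have hn' : (0 : ℝ) < n := by exact_mod_cast hn0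
  have hM0 : 0 < M := by linarith
  have hR := R1_sub (z₀ := z₀) hρ hn0
  have hl2 := side_lb (z₀.2 - 2 / 10 * ρ) (z₀.2 + 2 / 10 * ρ) n
  have hl1 := side_lb (z₀.1 + 13 / 10 * ρ) (z₀.1 + 16 / 10 * ρ) n
  have hav := R1_avg (α := α) hβ (z₀ := z₀) hρ hM0 hδ hδρ hn0 hnδ hρn φ
  unfold R1 at hR hav
  rw [bx_eq_rect] at hR hav
  set a₂ := ⌈(n : ℝ) * (z₀.1 + 13 / 10 * ρ)⌉
  set b₂ := ⌊(n : ℝ) * (z₀.1 + 16 / 10 * ρ)⌋ + 1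
  set c₂ := ⌈(n : ℝ) * (z₀.2 - 2 / 10 * ρ)⌉
  set d₂ := ⌊(n : ℝ) * (z₀.2 + 2 / 10 * ρ)⌋ + 1
  have hd2 : 35 / 100 * (ρ * n) ≤ ((d₂ - c₂ : ℤ) : ℝ) := by nlinarith
  have hab2 : (0 : ℝ) < ((b₂ - a₂ : ℤ) : ℝ) := by nlinarith
  have hab2' : 0 < b₂ - a₂ := by exact_mod_cast hab2
  have hcd2 : (0 : ℝ) < ((d₂ - c₂ : ℤ) : ℝ) := by nlinarith
  have hcd2' : 0 < d₂ - c₂ := by exact_mod_cast hcd2
  have hAB := sAB (z₀ := z₀) hρn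
  have hCD := sCD (z₀ := z₀) hρn
  have hE := nnE_le_MP (α := α) hβ.le z₀ ρ hM0.le δ n φ
  have hQ : 0 ≤ MP α β z₀ ρ M δ n φ φ := MP_nonneg hβ.le z₀ ρ hM0.le δ n φ
  have hE0 := nnE_nonneg (SS z₀ ρ n) φ
  rw [SS_rect] at hR
  have key := sum_sub_avg (Finset.Subset.refl (rect (sA z₀ ρ n) (sB z₀ ρ n) (sC z₀ ρ n)
    (sD z₀ ρ n))) hR (by omega) (by omega) φ
  rw [rect_card, Nat.cast_mul, ← SS_rect] at key
  have tAB : (((sB z₀ ρ n - sA z₀ ρ n).toNat : ℕ) : ℝ) = ((sB z₀ ρ n - sA z₀ ρ n : ℤ) : ℝ) := by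
    have h0 : (0 : ℝ) ≤ ((sB z₀ ρ n - sA z₀ ρ n : ℤ) : ℝ) := by linarith [hAB.1]
    have h0' : 0 ≤ sB z₀ ρ n - sA z₀ ρ n := by exact_mod_cast h0
    exact_mod_cast Int.toNat_of_nonneg h0'
  have tCD : (((sD z₀ ρ n - sC z₀ ρ n).toNat : ℕ) : ℝ) = ((sD z₀ ρ n - sC z₀ ρ n : ℤ) : ℝ) := by
    have h0 : (0 : ℝ) ≤ ((sD z₀ ρ n - sC z₀ ρ n : ℤ) : ℝ) := by linarith [hCD.1]
    have h0' : 0 ≤ sD z₀ ρ n - sC z₀ ρ n := by exact_mod_cast h0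
    exact_mod_cast Int.toNat_of_nonneg h0'
  rw [tAB, tCD] at key
  have hcard : ((SS z₀ ρ n).card : ℝ) = ((sB z₀ ρ n - sA z₀ ρ n : ℤ) : ℝ) *
      ((sD z₀ ρ n - sC z₀ ρ n : ℤ) : ℝ) := by
    rw [SS_rect, rect_card, Nat.cast_mul, tAB, tCD]
  set s := ((sB z₀ ρ n - sA z₀ ρ n : ℤ) : ℝ)
  set t := ((sD z₀ ρ n - sC z₀ ρ n : ℤ) : ℝ)
  set t₂ := ((d₂ - c₂ : ℤ) : ℝ)
  set r := ρ * (n : ℝ) with hr
  set A := avg (rect a₂ b₂ c₂ d₂) φ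
  set Q := MP α β z₀ ρ M δ n φ φ
  set E := nnE (SS z₀ ρ n) φ
  have hr0 : 0 < r := by linarith
  have hs0 : 0 ≤ s := by linarith [hAB.1]
  have ht0 : 0 ≤ t := by linarith [hCD.1]
  have k1 : 2 * t * t + 2 * s * (s * t) / t₂ ≤ 114000 * r ^ 2 :=
    alg1 hr0 hs0 ht0 hAB.2 hCD.2 hd2
  have k2 : ∑ x ∈ SS z₀ ρ n, (φ x - A) ^ 2 ≤ 114000 * r ^ 2 * E :=
    key.trans (mul_le_mul_of_nonneg_right k1 hE0)
  have k3 : ∑ x ∈ SS z₀ ρ n, φ x ^ 2 ≤ 2 * (114000 * r ^ 2 * E) + (s * t) * (2 * A ^ 2) := by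
    have h2 : ∀ x ∈ SS z₀ ρ n, φ x ^ 2 ≤ 2 * (φ x - A) ^ 2 + 2 * A ^ 2 := by
      intro x _
      exact alg2 _ _
    refine (Finset.sum_le_sum h2).trans ?_
    rw [Finset.sum_add_distrib, ← Finset.mul_sum, Finset.sum_const, nsmul_eq_mul, hcard]
    linarith
  have k4 : s * t ≤ 729 * r ^ 2 := by
    have := mul_le_mul hAB.2 hCD.2 ht0 (by positivity)
    calc s * t ≤ 27 * r * (27 * r) := this
      _ = 729 * r ^ 2 := by ring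
  have k5 : A ^ 2 ≤ 60 * (1 / β + 1 / ρ ^ 2) * Q := by
    refine hav.trans (mul_le_mul_of_nonneg_right ?_ hQ)
    have h1 : (δ ^ 2 / β + 1 / M) / ρ ^ 2 ≤ 1 / β + 1 / ρ ^ 2 := by
      rw [add_div]
      refine add_le_add ?_ ?_
      · rw [div_div, div_le_div_iff₀ (by positivity) hβ, one_mul, mul_comm β]
        have : δ ^ 2 ≤ ρ ^ 2 := pow_le_pow_left₀ hδ.le (by linarith) 2
        exact mul_le_mul_of_nonneg_right this hβ.le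
      · refine div_le_div_of_nonneg_right ?_ (by positivity)
        rw [div_le_one hM0]; exact hM
    linarith
  have k6 : E ≤ Q / (4 * β) := by rw [le_div_iff₀ (by positivity)]; linarith
  rw [div_le_iff₀ (by positivity)]
  calc ∑ x ∈ SS z₀ ρ n, φ x ^ 2 ≤ 2 * (114000 * r ^ 2 * E) + (s * t) * (2 * A ^ 2) := k3
    _ ≤ 2 * (114000 * r ^ 2 * (Q / (4 * β))) + (729 * r ^ 2) * (2 * (60 * (1 / β + 1 / ρ ^ 2) * Q)) := by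
        refine add_le_add ?_ ?_
        · refine mul_le_mul_of_nonneg_left ?_ (by norm_num)
          exact mul_le_mul_of_nonneg_left k6 (by positivity)
        · refine mul_le_mul k4 ?_ (by positivity) (by positivity)
          linarith
    _ = (57000 + 87480) * (r ^ 2 / β) * Q + 87480 * (n : ℝ) ^ 2 * Q := by
        rw [hr]; field_simp; ring
    _ ≤ 200000 * (r ^ 2 / β) * Q + 200000 * (n : ℝ) ^ 2 * Q := by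
        refine add_le_add ?_ ?_
        · refine mul_le_mul_of_nonneg_right ?_ hQ
          exact mul_le_mul_of_nonneg_right (by norm_num) (by positivity)
        · refine mul_le_mul_of_nonneg_right ?_ hQ
          exact mul_le_mul_of_nonneg_right (by norm_num) (by positivity)
    _ = 200000 * (ρ ^ 2 / β + 1) * Q * (n : ℝ) ^ 2 := by rw [hr]; ring

end Pool.Agent.LR.B5
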