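import Pool.Agent.LR.B5.ProfB

/-!
# LR-B5-Prof: the radial ring profile (6.4)

`a = 2` or `a = 4`, ring `{a ρ < |z - z₀| < (a+1) ρ}` (Euclidean length `lenP`).  For every small
`lam > 0` there is a smooth function `H ≥ 0` supported inside the ring with
`-lapl H = F - N`, where `F ≥ 0` is smooth, supported in the middle of the ring and INDEPENDENT of
`lam`, and `0 ≤ N ≤ C / (lam ρ²)` is supported within `lam ρ` of the boundary of the ring.

## Plan (complete)

1. `g : ℝ → ℝ` smooth, even, `≥ 0`, support in `[-1, 1]`, `∫ g = 1`: take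
   `(⟨1/2, 1, _, _⟩ : ContDiffBump (0 : ℝ)).normed volume` (lemmas `ContDiffBump.normed_neg`,
   `nonneg_normed`, `integral_normed`, `support_normed_eq`, `contDiff_normed`), bounded by some `B`.
2. `G s = ∫ r in (-1)..s, g r`, `G₂ s = ∫ r in (-1)..s, r * g r`, `A s = s * G s - G₂ s - s / 2`.
   FTC (`Continuous.deriv_integral`, `intervalIntegral.integral_hasDerivAt_right`):
   `A' = G - 1/2`, `A'' = g`, so `A` is `C^∞` (`contDiff_infty_iff_deriv` twice).
   For `s ≥ 1`: `G s = 1`, `G₂ s = ∫ r g = 0` (odd), so `A s = s/2`; for `s ≤ -1`: `A s = -s/2 = |s|/2`.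
   `A` is convex (`A'' ≥ 0`) with `A(s) = |s|/2` for `|s| ≥ 1`, hence `|s|/2 ≤ A s` for all `s`
   (or: `A s - s/2 = ∫_{s}^{1} (r - s) g(r) dr ≥ 0` for `s ≤ 1`, similarly `A s + s/2 ≥ 0`),
   and `A s ≤ 1/2` for `|s| ≤ 1` (`A' ∈ [-1/2, 1/2]`, or convexity: `A ≤` chord of its end values).
   Also `|A'| ≤ 1/2` everywhere.
3. Scaled: `A_e s = e * A (s / e)`: `A_e'' = g(s/e)/e ∈ [0, B/e]`, zero for `|s| > e`, `|A_e'| ≤ 1/2`,
   `A_e s ≥ |s|/2`, `A_e s = |s|/2` for `|s| ≥ e`, `A_e s ≤ e/2` for `|s| ≤ e`.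
4. With `e = lam / 16`, `w = 1/25`, `tL = log a + 2 e`, `tR = log (a+1) - 2 e`, `tM = (tL + tR)/2 =
   (log a + log (a+1))/2` (independent of `lam`):
   `u t = (A_e (t - tL) + A_e (t - tR)) / 2 - A_w (t - tM)`.
   `u t = 0` for `t ≤ tL - e` and for `t ≥ tR + e` (all three are `|.|/2` there); `u ≥ 0`:
   `(|t-tL| + |t-tR|)/4 ≥ (tR - tL)/4` and `≥ |t - tM|/2`, while `A_w (t-tM) = |t-tM|/2` if `|t-tM| ≥ w`
   and `≤ w/2 ≤ (tR-tL)/4` otherwise (`log (5/4) > 0.22`).
   `u'' = (g_e(t-tL) + g_e(t-tR))/2 - g_w(t-tM)`, `|u'| ≤ 1`.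
5. `H z = u (t z)`, `t z = log (((z.1 - z₀.1)^2 + (z.2 - z₀.2)^2) / ρ^2) / 2` (`= log (lenP (z-z₀)/ρ)`).
   `H` vanishes for `lenP (z - z₀) ≤ a e^{e} ρ` (also at `z = z₀`: there Lean's `log 0 = 0 < log a`) and for
   `lenP (z-z₀) ≥ (a+1) e^{-e} ρ`, so it is `C^∞` (locally zero near `z₀`, composition of smooth
   functions elsewhere).  For `z ≠ z₀`, with `r² = (z.1-z₀.1)²+(z.2-z₀.2)²`:
   `fderiv H z (1,0) = u'(t) (z.1-z₀.1)/r²`, `gsq H z = u'(t)²/r²`, `lapl H z = u''(t)/r²`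
   (`u'' (z.1-z₀.1)²/r⁴ + u' (r² - 2 (z.1-z₀.1)²)/r⁴ +` the same with the second coordinate).
6. `F z = g_w(t z - tM)/r²` (zero near `z₀`), smooth, support `r/ρ ∈ √(a(a+1)) e^{±1/25}`: for `a = 2`
   within `(2.35, 2.56)`, for `a = 4` within `(4.29, 4.66)`, inside `(a+1/4, a+3/4)`.
   `N = F + lapl H = (g_e(t-tL) + g_e(t-tR))/(2r²) ∈ [0, B/(e r²)]`, `r ≥ 2ρ`; `N ≠ 0` forces
   `t ∈ [log a + e, log a + 3e]` or `[log (a+1) - 3e, log (a+1) - e]`, so `a ρ < r < (a + lam) ρ` or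
   `(a+1-lam) ρ < r < (a+1) ρ` (`a (e^{3e} - 1) ≤ lam`, `(a+1)(1 - e^{-3e}) ≤ lam`).
7. Height: `m = √(a(a+1))`; if `|lenP (z-z₀) - mρ| ≤ ρ/50` then `|t - tM| ≤ 1/50`, so
   `u ≥ (tR-tL)/4 - w/2 ≥ (0.22 - 4/1600)/4 - 1/50 ≥ 1/40`. Take `tau = 1/40`.

You may change numerical constants inside the proof, not the statement. `a ∈ {2, 4}` can be treated
uniformly using `0.22 ≤ log ((a+1)/a)`, e.g. from `Real.exp_bound`-type lemmas or `Real.log_two_gt_d9`
(`log(5/4) = log 5 - 2 log 2`; easier: `Real.one_sub_inv_le_log_of_pos`/`Real.le_log_one_add_of_nonneg`: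
`2x/(x+2) ≤ log (1+x)` gives `log (5/4) ≥ 2/9 > 0.22`).
-/

set_option autoImplicit false

namespace Pool.Agent.LR.B5

open Filter Set
open scoped Topology ContDiff

private lemma lenP_nonneg' (z : P) : 0 ≤ lenP z := Real.sqrt_nonneg _

private lemma continuous_lenP : Continuous lenP := by
  unfold lenP
  fun_prop

private lemma compact_of_len {G : P → ℝ} (z₀ : P) (R : ℝ) (h : ∀ z, G z ≠ 0 → lenP (z - z₀) ≤ R) :
    HasCompactSupport G := by
  refine HasCompactSupport.of_support_subset_isCompact (isCompact_closedBall z₀ R) ?_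
  intro z hz
  have h1 := h z hz
  have e1 : |z.1 - z₀.1| ≤ lenP (z - z₀) := by
    unfold lenP
    apply Real.abs_le_sqrt
    simp only [Prod.fst_sub, Prod.snd_sub]
    nlinarith [sq_nonneg (z.2 - z₀.2)]
  have e2 : |z.2 - z₀.2| ≤ lenP (z - z₀) := by
    unfold lenP
    apply Real.abs_le_sqrt
    simp only [Prod.fst_sub, Prod.snd_sub]
    nlinarith [sq_nonneg (z.1 - z₀.1)]
  rw [Metric.mem_closedBall, Prod.dist_eq, Real.dist_eq, Real.dist_eq]
  exact max_le (le_trans e1 h1) (le_trans e2 h1)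

/-- `r = |z - z₀|/ρ` and `τ = log(|z-z₀|²/ρ²)/2`. -/
private lemma len_exp (z₀ : P) {ρ : ℝ} (hρ : 0 < ρ) (z : P) (hx : Prof.pp z₀ ρ z ≠ 0) :
    lenP (z - z₀) = Real.exp (Real.log (Prof.pp z₀ ρ z) / 2) * ρ := by
  have h1 := Prof.pp_eq z₀ ρ z
  have hr0 : 0 ≤ lenP (z - z₀) / ρ := div_nonneg (lenP_nonneg' _) hρ.le
  have hr : 0 < lenP (z - z₀) / ρ := by
    rcases hr0.lt_or_eq with h | h
    · exact h
    · exfalso; apply hx; rw [h1, ← h]; norm_num
  have h2 : Real.log (Prof.pp z₀ ρ z) / 2 = Real.log (lenP (z - z₀) / ρ) := by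
    rw [h1, Real.log_pow]; push_cast; ring
  rw [h2, Real.exp_log hr]
  field_simp

private lemma exp_upper {x : ℝ} (hx : x < 1) : Real.exp x ≤ 1 / (1 - x) := by
  have h := Real.add_one_le_exp (-x)
  have h1 : 0 < 1 - x := by linarith
  rw [Real.exp_neg] at h
  have h2 : 1 - x ≤ (Real.exp x)⁻¹ := by linarith
  have h3 := inv_anti₀ h1 h2
  rw [inv_inv] at h3
  rw [one_div]
  exact h3

private lemma gg_ne {s : ℝ} (h : Prof.gg s ≠ 0) : |s| ≤ 1 := by
  by_contra hc
  exact h (Prof.gg_zero (not_le.mp hc))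

theorem ring_profile : ∃ tau > (0 : ℝ), ∃ C > (0 : ℝ), ∀ a : ℕ, (a = 2 ∨ a = 4) → ∃ m : ℝ,
    (a + 2 / 5 ≤ m ∧ m ≤ a + 1 / 2) ∧
    ∀ (z₀ : P) (ρ : ℝ), 0 < ρ → ∃ F : P → ℝ,
      ContDiff ℝ ((⊤ : ℕ∞) : WithTop ℕ∞) F ∧ HasCompactSupport F ∧ (∀ z, 0 ≤ F z) ∧
      (∀ z, F z ≠ 0 → (a + 1 / 4) * ρ < lenP (z - z₀) ∧ lenP (z - z₀) < (a + 3 / 4) * ρ) ∧
      ∀ lam : ℝ, 0 < lam → lam ≤ 1 / 100 → ∃ H : P → ℝ,
        ContDiff ℝ ((⊤ : ℕ∞) : WithTop ℕ∞) H ∧ HasCompactSupport H ∧ (∀ z, 0 ≤ H z) ∧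
        (∀ z ∈ tsupport H, a * ρ < lenP (z - z₀) ∧ lenP (z - z₀) < (a + 1) * ρ) ∧
        (∀ z, |lenP (z - z₀) - m * ρ| ≤ ρ / 50 → tau ≤ H z) ∧
        (∀ z, gsq H z ≤ C / ρ ^ 2) ∧
        (∀ z, 0 ≤ F z + lapl H z ∧ F z + lapl H z ≤ C / (lam * ρ ^ 2)) ∧
        (∀ z, F z + lapl H z ≠ 0 → (a * ρ < lenP (z - z₀) ∧ lenP (z - z₀) < (a + lam) * ρ) ∨
          ((a + 1 - lam) * ρ < lenP (z - z₀) ∧ lenP (z - z₀) < (a + 1) * ρ)) := by
  obtain ⟨B, hB, hgB⟩ := Prof.gg_bound
  refine ⟨1 / 40, by norm_num, 16 * B + 1, by positivity, ?_⟩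
  intro a ha
  have ha2 : (2 : ℝ) ≤ a := by rcases ha with h | h <;> rw [h] <;> norm_num
  have ha4 : (a : ℝ) ≤ 4 := by rcases ha with h | h <;> rw [h] <;> norm_num
  generalize (a : ℝ) = A at ha2 ha4
  have hA0 : 0 < A := by linarith
  set m : ℝ := Real.sqrt (A * (A + 1)) with hm
  have hm2 : m ^ 2 = A * (A + 1) := Real.sq_sqrt (by positivity)
  have hm0 : 0 ≤ m := Real.sqrt_nonneg _
  have hm1 : A + 2 / 5 ≤ m := by
    apply Real.le_sqrt_of_sq_le
    nlinarith
  have hm3 : m ≤ A + 1 / 2 := by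
    rw [hm]
    apply Real.sqrt_le_iff.mpr
    constructor
    · linarith
    · nlinarith
  have hmpos : 0 < m := by linarith
  refine ⟨m, ⟨hm1, hm3⟩, ?_⟩
  intro z₀ ρ hρ
  have hρ2 : 0 < ρ ^ 2 := by positivity
  set tM : ℝ := (Real.log A + Real.log (A + 1)) / 2 with htM
  have hlogm : Real.log m = tM := by
    rw [hm, Real.log_sqrt (by positivity), Real.log_mul hA0.ne' (by linarith)]
  have hexpM : Real.exp tM = m := by rw [← hlogm, Real.exp_log hmpos]
  have hlogA : 0.69 < Real.log A := by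
    have h1 := Real.log_two_gt_d9
    have h2 : Real.log 2 ≤ Real.log A := Real.log_le_log (by norm_num) ha2
    linarith
  have hlogA1 : 2 / 9 ≤ Real.log (A + 1) - Real.log A := by
    rw [← Real.log_div (by linarith) hA0.ne']
    have h1 : (1 : ℝ) + 1 / 4 ≤ (A + 1) / A := by
      rw [le_div_iff₀ hA0]; linarith
    have h2 := Real.log_le_log (by norm_num) h1
    have h3 := Real.le_log_one_add_of_nonneg (x := 1 / 4) (by norm_num)
    have h4 : (2 : ℝ) * (1 / 4) / (1 / 4 + 2) = 2 / 9 := by norm_num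
    linarith
  have hw : (0 : ℝ) < 1 / 50 := by norm_num
  -- the function `F`
  set v : ℝ → ℝ := fun t => Prof.gg ((t - tM) / (1 / 50)) / (1 / 50) with hv
  have hvC : ContDiff ℝ ∞ v :=
    (Prof.gg_contDiff.comp ((contDiff_id.sub contDiff_const).div_const _)).div_const _
  have hv0 : ∀ t ≤ (0 : ℝ), v t = 0 := by
    intro t ht
    have : Prof.gg ((t - tM) / (1 / 50)) = 0 := by
      apply Prof.gg_zero
      rw [abs_div, abs_of_pos hw, lt_div_iff₀ hw, abs_of_nonpos (by linarith)]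
      linarith
    simp only [hv, this, zero_div]
  have hvnn : ∀ t, 0 ≤ v t := by
    intro t
    have := Prof.gg_nonneg ((t - tM) / (1 / 50))
    simp only [hv]
    positivity
  have hvne : ∀ t, v t ≠ 0 → |t - tM| ≤ 1 / 50 := by
    intro t ht
    have h1 : Prof.gg ((t - tM) / (1 / 50)) ≠ 0 := by
      intro h; apply ht; simp only [hv, h, zero_div]
    have h2 := gg_ne h1
    rw [abs_div, abs_of_pos hw, div_le_one hw] at h2
    exact h2
  set F : P → ℝ := fun z => v (Real.log (Prof.pp z₀ ρ z) / 2) / Prof.pp z₀ ρ z / ρ ^ 2 with hF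
  have hFC : ContDiff ℝ ∞ F :=
    ((Prof.comp_log_div_contDiff hvC le_rfl hv0).comp (Prof.pp_contDiff z₀ ρ)).div_const _
  have hFnn : ∀ z, 0 ≤ F z := by
    intro z
    have h1 := hvnn (Real.log (Prof.pp z₀ ρ z) / 2)
    have h2 := Prof.pp_nonneg z₀ ρ z
    simp only [hF]
    positivity
  have hFs : ∀ z, F z ≠ 0 → (A + 1 / 4) * ρ < lenP (z - z₀) ∧ lenP (z - z₀) < (A + 3 / 4) * ρ := by
    intro z hz
    have hx : Prof.pp z₀ ρ z ≠ 0 := by
      intro h; apply hz; simp only [hF, h, div_zero, zero_div]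
    have hτ : v (Real.log (Prof.pp z₀ ρ z) / 2) ≠ 0 := by
      intro h; apply hz; simp only [hF, h, zero_div]
    have h1 := abs_le.mp (hvne _ hτ)
    rw [len_exp z₀ hρ z hx]
    set τ := Real.log (Prof.pp z₀ ρ z) / 2 with hτd
    have h2 : m * (49 / 50) ≤ Real.exp τ := by
      have e1 : Real.exp (tM + -(1 / 50)) ≤ Real.exp τ := Real.exp_le_exp.mpr (by linarith [h1.1])
      rw [Real.exp_add, hexpM] at e1
      have e2 := Real.add_one_le_exp (-(1 / 50 : ℝ))
      nlinarith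
    have h3 : Real.exp τ ≤ m * (50 / 49) := by
      have e1 : Real.exp τ ≤ Real.exp (tM + 1 / 50) := Real.exp_le_exp.mpr (by linarith [h1.2])
      rw [Real.exp_add, hexpM] at e1
      have e2 := exp_upper (x := 1 / 50) (by norm_num)
      have e3 : (1 : ℝ) / (1 - 1 / 50) = 50 / 49 := by norm_num
      rw [e3] at e2
      nlinarith
    constructor
    · apply mul_lt_mul_of_pos_right _ hρ
      linarith
    · apply mul_lt_mul_of_pos_right _ hρ
      linarith
  refine ⟨F, hFC, compact_of_len z₀ ((A + 3 / 4) * ρ) (fun z hz => (hFs z hz).2.le), hFnn, hFs, ?_⟩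
  intro lam hlam hlam1
  set e : ℝ := lam / 16 with he'
  have he : 0 < e := by positivity
  have he1 : e ≤ 1 / 1600 := by rw [he']; linarith
  set tL : ℝ := Real.log A + 2 * e with htL
  set tR : ℝ := Real.log (A + 1) - 2 * e with htR
  have hM : tM = (tL + tR) / 2 := by rw [htM, htL, htR]; ring
  have hLR : 4 * (1 / 50 : ℝ) ≤ tR - tL := by rw [htL, htR]; linarith
  have h0 : 0 ≤ tL - e := by rw [htL]; linarith
  set U : ℝ → ℝ := fun x => Prof.uu e (1 / 50) tL tR tM (Real.log x / 2) with hU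
  have hUC : ContDiff ℝ ∞ U := Prof.U_contDiff he hw hM hLR h0
  set H : P → ℝ := fun z => U (Prof.pp z₀ ρ z) with hH
  -- support of `H`
  have hHs : ∀ z, H z ≠ 0 → A * Real.exp e * ρ ≤ lenP (z - z₀) ∧
      lenP (z - z₀) ≤ (A + 1) * Real.exp (-e) * ρ := by
    intro z hz
    have hL : tL - e < Real.log (Prof.pp z₀ ρ z) / 2 := by
      by_contra hc
      exact hz (Prof.uu_left he hw hM hLR (not_lt.mp hc))
    have hR : Real.log (Prof.pp z₀ ρ z) / 2 < tR + e := by
      by_contra hc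
      exact hz (Prof.uu_right he hw hM hLR (not_lt.mp hc))
    have hx : Prof.pp z₀ ρ z ≠ 0 := by
      intro h
      rw [h, Real.log_zero, zero_div] at hL
      linarith
    rw [len_exp z₀ hρ z hx]
    have e1 : A * Real.exp e = Real.exp (tL - e) := by
      have : tL - e = Real.log A + e := by rw [htL]; ring
      rw [this, Real.exp_add, Real.exp_log hA0]
    have e2 : (A + 1) * Real.exp (-e) = Real.exp (tR + e) := by
      have : tR + e = Real.log (A + 1) + -e := by rw [htR]; ring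
      rw [this, Real.exp_add, Real.exp_log (by linarith)]
    rw [e1, e2]
    exact ⟨mul_le_mul_of_nonneg_right (Real.exp_le_exp.mpr hL.le) hρ.le,
      mul_le_mul_of_nonneg_right (Real.exp_le_exp.mpr hR.le) hρ.le⟩
  have hexp1 : 1 < Real.exp e := Real.one_lt_exp_iff.mpr he
  have hexp2 : Real.exp (-e) < 1 := Real.exp_lt_one_iff.mpr (by linarith)
  have hHt : ∀ z ∈ tsupport H, A * ρ < lenP (z - z₀) ∧ lenP (z - z₀) < (A + 1) * ρ := by
    intro z hz
    have hcl : IsClosed {z : P | A * Real.exp e * ρ ≤ lenP (z - z₀) ∧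
        lenP (z - z₀) ≤ (A + 1) * Real.exp (-e) * ρ} := by
      have hc : Continuous fun z : P => lenP (z - z₀) :=
        continuous_lenP.comp (continuous_id.sub continuous_const)
      exact (isClosed_le continuous_const hc).inter (isClosed_le hc continuous_const)
    have hsub : tsupport H ⊆ {z : P | A * Real.exp e * ρ ≤ lenP (z - z₀) ∧
        lenP (z - z₀) ≤ (A + 1) * Real.exp (-e) * ρ} := by
      apply closure_minimal _ hcl
      intro y hy
      exact hHs y hy
    have h1 := hsub hz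
    have e1 : A * ρ < A * Real.exp e * ρ := by
      have : A * 1 < A * Real.exp e := mul_lt_mul_of_pos_left hexp1 hA0
      nlinarith
    have e2 : (A + 1) * Real.exp (-e) * ρ < (A + 1) * ρ := by
      have : (A + 1) * Real.exp (-e) < (A + 1) * 1 :=
        mul_lt_mul_of_pos_left hexp2 (by linarith)
      nlinarith
    exact ⟨lt_of_lt_of_le e1 h1.1, lt_of_le_of_lt h1.2 e2⟩
  -- the Laplacian
  have hlap : ∀ z, F z + lapl H z =
      (Prof.gg ((Real.log (Prof.pp z₀ ρ z) / 2 - tL) / e) / e +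
        Prof.gg ((Real.log (Prof.pp z₀ ρ z) / 2 - tR) / e) / e) / 2 / Prof.pp z₀ ρ z / ρ ^ 2 := by
    intro z
    have h1 := Prof.rad_lapl z₀ ρ hUC z
    have h2 := Prof.U_lapl he hw hM hLR h0 (Prof.pp z₀ ρ z)
    have h3 : lapl H z = Prof.u2 e (1 / 50) tL tR tM (Real.log (Prof.pp z₀ ρ z) / 2) /
        Prof.pp z₀ ρ z / ρ ^ 2 := by
      rw [← h2]; exact h1
    rw [h3]
    simp only [hF, hv, Prof.u2]
    rw [← add_div, ← add_div]
    congr 2
    ring
  -- where it does not vanish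
  have hgL : ∀ τ, Prof.gg ((τ - tL) / e) ≠ 0 → |τ - tL| ≤ e := by
    intro τ h
    have h2 := gg_ne h
    rwa [abs_div, abs_of_pos he, div_le_one he] at h2
  have hgR : ∀ τ, Prof.gg ((τ - tR) / e) ≠ 0 → |τ - tR| ≤ e := by
    intro τ h
    have h2 := gg_ne h
    rwa [abs_div, abs_of_pos he, div_le_one he] at h2
  have htauN : ∀ z, F z + lapl H z ≠ 0 → Prof.pp z₀ ρ z ≠ 0 ∧
      (|Real.log (Prof.pp z₀ ρ z) / 2 - tL| ≤ e ∨ |Real.log (Prof.pp z₀ ρ z) / 2 - tR| ≤ e) := by
    intro z hz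
    rw [hlap z] at hz
    refine ⟨?_, ?_⟩
    · intro h; apply hz; rw [h]; simp
    · by_contra hc
      rw [not_or] at hc
      have h1 : Prof.gg ((Real.log (Prof.pp z₀ ρ z) / 2 - tL) / e) = 0 := by
        by_contra h; exact hc.1 (hgL _ h)
      have h2 : Prof.gg ((Real.log (Prof.pp z₀ ρ z) / 2 - tR) / e) = 0 := by
        by_contra h; exact hc.2 (hgR _ h)
      apply hz
      rw [h1, h2]
      simp
  have hpp1 : ∀ z, Prof.pp z₀ ρ z ≠ 0 → 0 ≤ Real.log (Prof.pp z₀ ρ z) / 2 →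
      1 ≤ Prof.pp z₀ ρ z := by
    intro z hx hτ
    have hpos : 0 < Prof.pp z₀ ρ z := lt_of_le_of_ne (Prof.pp_nonneg _ _ _) (Ne.symm hx)
    have h1 : 0 ≤ Real.log (Prof.pp z₀ ρ z) := by linarith
    by_contra hc
    have := Real.log_neg hpos (not_le.mp hc)
    linarith
  refine ⟨H, hUC.comp (Prof.pp_contDiff z₀ ρ),
    compact_of_len z₀ ((A + 1) * Real.exp (-e) * ρ) (fun z hz => (hHs z hz).2),
    fun z => Prof.uu_nonneg he hw hM hLR _, hHt, ?_, ?_, ?_, ?_⟩
  · -- height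
    intro z hz
    have h1 := abs_le.mp hz
    have hr1 : m - 1 / 50 ≤ lenP (z - z₀) / ρ := by
      rw [le_div_iff₀ hρ]; linarith [h1.1]
    have hr2 : lenP (z - z₀) / ρ ≤ m + 1 / 50 := by
      rw [div_le_iff₀ hρ]; linarith [h1.2]
    set r : ℝ := lenP (z - z₀) / ρ with hr
    have hrpos : 1 ≤ r := by linarith
    have hτ : Real.log (Prof.pp z₀ ρ z) / 2 = Real.log r := by
      rw [Prof.pp_eq z₀ ρ z, Real.log_pow]; push_cast; ring
    have hdiff : Real.log r - tM = Real.log (r / m) := by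
      rw [← hlogm, Real.log_div (by linarith) hmpos.ne']
    have hup : Real.log (r / m) ≤ 1 / 50 := by
      have := Real.log_le_sub_one_of_pos (show 0 < r / m by positivity)
      have h2 : r / m - 1 ≤ 1 / 50 := by
        rw [sub_le_iff_le_add, div_le_iff₀ hmpos]
        nlinarith
      linarith
    have hlo : -(1 / 50) ≤ Real.log (r / m) := by
      have := Real.one_sub_inv_le_log_of_pos (show 0 < r / m by positivity)
      rw [inv_div] at this
      have h2 : m / r ≤ 1 + 1 / 50 := by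
        rw [div_le_iff₀ (by linarith)]
        nlinarith
      linarith
    have hab : |Real.log (Prof.pp z₀ ρ z) / 2 - tM| ≤ 1 / 50 := by
      rw [hτ, hdiff]; exact abs_le.mpr ⟨hlo, hup⟩
    have h3 := Prof.uu_lower (tL := tL) (tR := tR) he hw hab
    have h4 : (1 : ℝ) / 40 ≤ (tR - tL) / 4 - 1 / 50 := by
      rw [htL, htR]; linarith
    exact le_trans h4 h3
  · -- gradient
    intro z
    have h1 := Prof.rad_gsq z₀ ρ hUC z
    have h2 := Prof.U_gsq he hw hM hLR h0 (Prof.pp z₀ ρ z)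
    have h3 : gsq H z = Prof.u1 e (1 / 50) tL tR tM (Real.log (Prof.pp z₀ ρ z) / 2) ^ 2 /
        Prof.pp z₀ ρ z / ρ ^ 2 := by
      rw [← h2]; exact h1
    rw [h3]
    apply div_le_div_of_nonneg_right _ hρ2.le
    have hC1 : (1 : ℝ) ≤ 16 * B + 1 := by linarith
    rcases eq_or_ne (Prof.pp z₀ ρ z) 0 with hx | hx
    · rw [hx, div_zero]; linarith
    rcases le_or_gt 0 (Real.log (Prof.pp z₀ ρ z) / 2) with hτ | hτ
    · have h4 := hpp1 z hx hτ
      have h5 : Prof.u1 e (1 / 50) tL tR tM (Real.log (Prof.pp z₀ ρ z) / 2) ^ 2 ≤ 1 := by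
        have := Prof.abs_u1_le (e := e) (w := 1 / 50) (tL := tL) (tR := tR) (tM := tM)
          (Real.log (Prof.pp z₀ ρ z) / 2)
        rw [sq_le_one_iff_abs_le_one]
        exact this
      calc _ ≤ 1 / Prof.pp z₀ ρ z := div_le_div_of_nonneg_right h5 (by linarith)
        _ ≤ 1 := by rw [div_le_one (by linarith)]; exact h4
        _ ≤ _ := hC1
    · have h5 : Prof.u1 e (1 / 50) tL tR tM (Real.log (Prof.pp z₀ ρ z) / 2) = 0 := by
        unfold Prof.u1
        rw [Prof.sg_of_le, Prof.sg_of_le, Prof.sg_of_le]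
        · ring
        · rw [div_le_iff₀ hw]; linarith
        · rw [div_le_iff₀ he]; linarith
        · rw [div_le_iff₀ he]; linarith
      rw [h5]
      simp
      linarith
  · -- bound
    intro z
    rw [hlap z]
    have g1 := Prof.gg_nonneg ((Real.log (Prof.pp z₀ ρ z) / 2 - tL) / e)
    have g2 := Prof.gg_nonneg ((Real.log (Prof.pp z₀ ρ z) / 2 - tR) / e)
    have hx0 := Prof.pp_nonneg z₀ ρ z
    refine ⟨by positivity, ?_⟩
    by_cases hN : F z + lapl H z = 0
    · rw [← hlap z, hN]; positivity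
    · obtain ⟨hx, hτ⟩ := htauN z hN
      have hτ0 : 0 ≤ Real.log (Prof.pp z₀ ρ z) / 2 := by
        rcases hτ with h | h
        · have := (abs_le.mp h).1
          linarith
        · have := (abs_le.mp h).1
          linarith
      have h4 := hpp1 z hx hτ0
      have b1 := hgB ((Real.log (Prof.pp z₀ ρ z) / 2 - tL) / e)
      have b2 := hgB ((Real.log (Prof.pp z₀ ρ z) / 2 - tR) / e)
      have e1 : (Prof.gg ((Real.log (Prof.pp z₀ ρ z) / 2 - tL) / e) / e +
        Prof.gg ((Real.log (Prof.pp z₀ ρ z) / 2 - tR) / e) / e) / 2 ≤ B / e := by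
        have c1 := div_le_div_of_nonneg_right b1 he.le
        have c2 := div_le_div_of_nonneg_right b2 he.le
        linarith
      have hBe : 0 ≤ B / e := by positivity
      calc _ ≤ (B / e) / 1 / ρ ^ 2 := by
            apply div_le_div_of_nonneg_right _ hρ2.le
            exact div_le_div₀ hBe e1 one_pos h4
        _ = 16 * B / (lam * ρ ^ 2) := by rw [he']; field_simp
        _ ≤ _ := by
            apply div_le_div_of_nonneg_right _ (by positivity)
            linarith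
  · -- support
    intro z hz
    obtain ⟨hx, hτ⟩ := htauN z hz
    rw [len_exp z₀ hρ z hx]
    set τ := Real.log (Prof.pp z₀ ρ z) / 2 with hτd
    have hexpA : Real.exp (Real.log A) = A := Real.exp_log hA0
    have hexpA1 : Real.exp (Real.log (A + 1)) = A + 1 := Real.exp_log (by linarith)
    rcases hτ with h | h
    · left
      have h1 := abs_le.mp h
      have a1 : Real.log A + e ≤ τ := by rw [htL] at h1; linarith [h1.1]
      have a2 : τ ≤ Real.log A + 3 * e := by rw [htL] at h1; linarith [h1.2]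
      have b1 : A < Real.exp τ := by
        calc A = Real.exp (Real.log A) := hexpA.symm
          _ < Real.exp τ := Real.exp_lt_exp.mpr (by linarith)
      have b2 : Real.exp τ < A + lam := by
        have c1 : Real.exp τ ≤ A * Real.exp (3 * e) := by
          have := Real.exp_le_exp.mpr a2
          rwa [Real.exp_add, hexpA] at this
        have c2 := exp_upper (x := 3 * e) (by linarith)
        have c3 : A * Real.exp (3 * e) ≤ A * (1 / (1 - 3 * e)) :=
          mul_le_mul_of_nonneg_left c2 hA0.le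
        have c4 : A * (1 / (1 - 3 * e)) < A + lam := by
          rw [mul_one_div, div_lt_iff₀ (by linarith), he']
          nlinarith
        linarith
      exact ⟨mul_lt_mul_of_pos_right b1 hρ, mul_lt_mul_of_pos_right b2 hρ⟩
    · right
      have h1 := abs_le.mp h
      have a1 : Real.log (A + 1) + -(3 * e) ≤ τ := by rw [htR] at h1; linarith [h1.1]
      have a2 : τ ≤ Real.log (A + 1) - e := by rw [htR] at h1; linarith [h1.2]
      have b1 : Real.exp τ < A + 1 := by
        calc Real.exp τ < Real.exp (Real.log (A + 1)) := Real.exp_lt_exp.mpr (by linarith)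
          _ = A + 1 := hexpA1
      have b2 : A + 1 - lam < Real.exp τ := by
        have c1 : (A + 1) * Real.exp (-(3 * e)) ≤ Real.exp τ := by
          have := Real.exp_le_exp.mpr a1
          rwa [Real.exp_add, hexpA1] at this
        have c2 := Real.add_one_le_exp (-(3 * e))
        have c3 : A + 1 - lam < (A + 1) * (-(3 * e) + 1) := by
          rw [he']
          nlinarith
        have c4 : (A + 1) * (-(3 * e) + 1) ≤ (A + 1) * Real.exp (-(3 * e)) :=
          mul_le_mul_of_nonneg_left c2 (by linarith)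
        linarith
      exact ⟨mul_lt_mul_of_pos_right b2 hρ, mul_lt_mul_of_pos_right b1 hρ⟩

end Pool.Agent.LR.B5
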