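import Pool.Agent.LR.Defs

/-! # LR-B5-ProfA: one-variable calculus for the ring profile -/

set_option autoImplicit false

open scoped Topology ContDiff
open Filter Set

namespace Pool.Agent.LR.B5.Prof

/-- Smooth odd step function from `-1/2` to `1/2`. -/
noncomputable def sg (s : ℝ) : ℝ := Real.smoothTransition ((s + 1) / 2) - 1 / 2

lemma sg_contDiff : ContDiff ℝ ∞ sg := by
  unfold sg
  refine ContDiff.sub ?_ contDiff_const
  exact Real.smoothTransition.contDiff.comp ((contDiff_id.add contDiff_const).div_const _)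

lemma st_add (x : ℝ) : Real.smoothTransition x + Real.smoothTransition (1 - x) = 1 := by
  unfold Real.smoothTransition
  have h := Real.smoothTransition.pos_denom x
  have e : 1 - (1 - x) = x := by ring
  rw [e, add_comm (expNegInvGlue (1 - x)) (expNegInvGlue x), ← add_div, div_self h.ne']

lemma sg_neg (s : ℝ) : sg (-s) = -sg s := by
  have h := st_add ((s + 1) / 2)
  have e : 1 - (s + 1) / 2 = (-s + 1) / 2 := by ring
  rw [e] at h
  unfold sg
  linarith

lemma sg_of_le {s : ℝ} (hs : s ≤ -1) : sg s = -(1 / 2) := by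
  unfold sg
  rw [Real.smoothTransition.zero_of_nonpos (by linarith)]
  ring

lemma sg_of_ge {s : ℝ} (hs : 1 ≤ s) : sg s = 1 / 2 := by
  unfold sg
  rw [Real.smoothTransition.one_of_one_le (by linarith)]
  ring

lemma abs_sg_le (s : ℝ) : |sg s| ≤ 1 / 2 := by
  unfold sg
  rw [abs_le]
  constructor
  · linarith [Real.smoothTransition.nonneg ((s + 1) / 2)]
  · linarith [Real.smoothTransition.le_one ((s + 1) / 2)]

lemma sg_mono : Monotone sg := by
  intro a b hab
  unfold sg
  have := Real.smoothTransition.monotone (show (a + 1) / 2 ≤ (b + 1) / 2 by linarith)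
  linarith

/-- The bump `g = sg'`. -/
noncomputable def gg (s : ℝ) : ℝ := deriv sg s

lemma gg_contDiff : ContDiff ℝ ∞ gg := by
  have := contDiff_infty_iff_deriv.mp sg_contDiff
  exact this.2

lemma sg_hasDerivAt (s : ℝ) : HasDerivAt sg (gg s) s :=
  ((contDiff_infty_iff_deriv.mp sg_contDiff).1 s).hasDerivAt

lemma gg_nonneg (s : ℝ) : 0 ≤ gg s := sg_mono.deriv_nonneg

lemma gg_zero {s : ℝ} (hs : 1 < |s|) : gg s = 0 := by
  rcases lt_abs.mp hs with h | h
  · have : sg =ᶠ[𝓝 s] fun _ => 1 / 2 := by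
      filter_upwards [lt_mem_nhds h] with x hx
      exact sg_of_ge hx.le
    unfold gg
    rw [this.deriv_eq, deriv_const]
  · have h' : s < -1 := by linarith
    have : sg =ᶠ[𝓝 s] fun _ => -(1 / 2) := by
      filter_upwards [gt_mem_nhds h'] with x hx
      exact sg_of_le hx.le
    unfold gg
    rw [this.deriv_eq, deriv_const]

lemma gg_bound : ∃ B > 0, ∀ s, gg s ≤ B := by
  obtain ⟨B, hB⟩ := (isCompact_Icc (a := (-1 : ℝ)) (b := 1)).exists_bound_of_continuousOn
    gg_contDiff.continuous.continuousOn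
  refine ⟨max B 1, by positivity, fun s => ?_⟩
  by_cases hs : 1 < |s|
  · rw [gg_zero hs]; positivity
  · have : s ∈ Icc (-1 : ℝ) 1 := abs_le.mp (not_lt.mp hs)
    exact le_trans (le_trans (le_abs_self _) (hB s this)) (le_max_left _ _)

/-- The smoothed `|s|/2`. -/
noncomputable def AA (s : ℝ) : ℝ := 1 / 2 + ∫ r in (-1 : ℝ)..s, sg r

lemma AA_hasDerivAt (s : ℝ) : HasDerivAt AA (sg s) s := by
  have hc : Continuous sg := sg_contDiff.continuous
  have := intervalIntegral.integral_hasDerivAt_right (hc.intervalIntegrable (-1) s)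
    (hc.stronglyMeasurableAtFilter _ _) hc.continuousAt
  exact this.const_add (1 / 2)

lemma AA_contDiff : ContDiff ℝ ∞ AA := by
  rw [contDiff_infty_iff_deriv]
  refine ⟨fun s => (AA_hasDerivAt s).differentiableAt, ?_⟩
  have : deriv AA = sg := funext fun s => (AA_hasDerivAt s).deriv
  rw [this]
  exact sg_contDiff

lemma AA_neg (s : ℝ) : AA (-s) = AA s := by
  have hd : ∀ x, HasDerivAt (fun x => AA x - AA (-x)) (sg x - sg (-x) * (-1)) x := by
    intro x
    have h1 := AA_hasDerivAt x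
    have h2 : HasDerivAt (fun y : ℝ => AA (-y)) (sg (-x) * (-1)) x :=
      (AA_hasDerivAt (-x)).comp x (hasDerivAt_neg x)
    exact h1.sub h2
  have hz : ∀ x, HasDerivAt (fun x => AA x - AA (-x)) 0 x := by
    intro x
    have := hd x
    rw [sg_neg] at this
    convert this using 1
    ring
  have hconst := is_const_of_deriv_eq_zero (f := fun x => AA x - AA (-x))
    (fun x => (hz x).differentiableAt) (fun x => (hz x).deriv) s 0
  simp only [neg_zero, sub_self] at hconst
  linarith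

lemma AA_of_le {s : ℝ} (hs : s ≤ -1) : AA s = -s / 2 := by
  unfold AA
  have : ∫ r in (-1 : ℝ)..s, sg r = ∫ r in (-1 : ℝ)..s, (-(1 / 2) : ℝ) := by
    apply intervalIntegral.integral_congr
    intro x hx
    rw [uIcc_of_ge hs] at hx
    exact sg_of_le hx.2
  rw [this, intervalIntegral.integral_const, smul_eq_mul]
  ring

lemma AA_of_abs {s : ℝ} (hs : 1 ≤ |s|) : AA s = |s| / 2 := by
  rcases le_abs.mp hs with h | h
  · rw [← AA_neg, AA_of_le (by linarith), abs_of_nonneg (by linarith)]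
    ring
  · rw [AA_of_le (by linarith), abs_of_nonpos (by linarith)]

lemma AA_ge_neg (s : ℝ) : -s / 2 ≤ AA s := by
  have hmono : Monotone (fun x => AA x + x / 2) := by
    apply monotone_of_deriv_nonneg
    · intro x
      exact ((AA_hasDerivAt x).add ((hasDerivAt_id x).div_const 2)).differentiableAt
    · intro x
      have hd : HasDerivAt (fun x => AA x + x / 2) (sg x + 1 / 2) x :=
        (AA_hasDerivAt x).add ((hasDerivAt_id x).div_const 2)
      rw [hd.deriv]
      have := abs_le.mp (abs_sg_le x)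
      linarith [this.1]
  rcases le_total s (-1) with h | h
  · rw [AA_of_le h]
  · have h1 := hmono h
    have h2 := AA_of_le (le_refl (-1 : ℝ))
    simp only at h1
    rw [h2] at h1
    linarith

lemma AA_ge (s : ℝ) : |s| / 2 ≤ AA s := by
  rcases abs_cases s with ⟨h, _⟩ | ⟨h, _⟩
  · rw [h, ← AA_neg]
    have := AA_ge_neg (-s)
    linarith
  · rw [h]
    exact AA_ge_neg s

lemma AA_le_one {s : ℝ} (hs : |s| ≤ 1) : AA s ≤ 1 := by
  -- on `[-1, 0]`: `AA x - x/2` is antitone
  have hanti : Antitone (fun x => AA x - x / 2) := by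
    apply antitone_of_deriv_nonpos
    · intro x
      exact ((AA_hasDerivAt x).sub ((hasDerivAt_id x).div_const 2)).differentiableAt
    · intro x
      have hd : HasDerivAt (fun x => AA x - x / 2) (sg x - 1 / 2) x :=
        (AA_hasDerivAt x).sub ((hasDerivAt_id x).div_const 2)
      rw [hd.deriv]
      have := abs_le.mp (abs_sg_le x)
      linarith [this.2]
  have key : ∀ x, -1 ≤ x → x ≤ 0 → AA x ≤ 1 := by
    intro x h1 h2
    have h3 := hanti h1
    have h4 := AA_of_le (le_refl (-1 : ℝ))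
    simp only at h3
    rw [h4] at h3
    linarith
  have h := abs_le.mp hs
  rcases le_total s 0 with h0 | h0
  · exact key s h.1 h0
  · rw [← AA_neg]
    exact key (-s) (by linarith [h.2]) (by linarith)

/-- Scaled version. -/
noncomputable def Ae (e s : ℝ) : ℝ := e * AA (s / e)

lemma Ae_hasDerivAt {e : ℝ} (he : 0 < e) (s : ℝ) : HasDerivAt (Ae e) (sg (s / e)) s := by
  have h1 : HasDerivAt (fun y : ℝ => y / e) (1 / e) s := (hasDerivAt_id s).div_const e
  have h2 := ((AA_hasDerivAt (s / e)).comp s h1).const_mul e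
  have h3 : e * (sg (s / e) * (1 / e)) = sg (s / e) := by field_simp
  rw [h3] at h2
  exact h2

lemma Ae_contDiff (e : ℝ) : ContDiff ℝ ∞ (Ae e) :=
  contDiff_const.mul (AA_contDiff.comp (contDiff_id.div_const _))

lemma sge_hasDerivAt {e : ℝ} (s : ℝ) :
    HasDerivAt (fun y => sg (y / e)) (gg (s / e) / e) s := by
  have h1 : HasDerivAt (fun y : ℝ => y / e) (1 / e) s := (hasDerivAt_id s).div_const e
  have h2 := (sg_hasDerivAt (s / e)).comp s h1
  have h3 : gg (s / e) * (1 / e) = gg (s / e) / e := by ring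
  rw [h3] at h2
  exact h2

lemma Ae_of_abs {e s : ℝ} (he : 0 < e) (hs : e ≤ |s|) : Ae e s = |s| / 2 := by
  unfold Ae
  have h1 : 1 ≤ |s / e| := by
    rw [abs_div, abs_of_pos he, le_div_iff₀ he]; linarith
  rw [AA_of_abs h1, abs_div, abs_of_pos he]
  field_simp

lemma Ae_ge {e : ℝ} (he : 0 < e) (s : ℝ) : |s| / 2 ≤ Ae e s := by
  unfold Ae
  have h1 := AA_ge (s / e)
  rw [abs_div, abs_of_pos he] at h1
  calc |s| / 2 = e * (|s| / e / 2) := by field_simp
    _ ≤ e * AA (s / e) := mul_le_mul_of_nonneg_left h1 he.le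

lemma Ae_le {e s : ℝ} (he : 0 < e) (hs : |s| ≤ e) : Ae e s ≤ e := by
  unfold Ae
  have h1 : |s / e| ≤ 1 := by
    rw [abs_div, abs_of_pos he, div_le_one he]; exact hs
  calc e * AA (s / e) ≤ e * 1 := mul_le_mul_of_nonneg_left (AA_le_one h1) he.le
    _ = e := mul_one e

/-- The profile in the logarithmic variable. -/
noncomputable def uu (e w tL tR tM t : ℝ) : ℝ :=
  (Ae e (t - tL) + Ae e (t - tR)) / 2 - Ae w (t - tM)

/-- its derivative -/
noncomputable def u1 (e w tL tR tM t : ℝ) : ℝ :=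
  (sg ((t - tL) / e) + sg ((t - tR) / e)) / 2 - sg ((t - tM) / w)

/-- its second derivative -/
noncomputable def u2 (e w tL tR tM t : ℝ) : ℝ :=
  (gg ((t - tL) / e) / e + gg ((t - tR) / e) / e) / 2 - gg ((t - tM) / w) / w

section U

variable {e w tL tR tM : ℝ}

lemma uu_contDiff : ContDiff ℝ ∞ (uu e w tL tR tM) := by
  unfold uu
  exact ((((Ae_contDiff e).comp (contDiff_id.sub contDiff_const)).add
    ((Ae_contDiff e).comp (contDiff_id.sub contDiff_const))).div_const _).sub
    ((Ae_contDiff w).comp (contDiff_id.sub contDiff_const))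

lemma uu_hasDerivAt (he : 0 < e) (hw : 0 < w) (t : ℝ) :
    HasDerivAt (uu e w tL tR tM) (u1 e w tL tR tM t) t := by
  unfold uu u1
  have hs : ∀ c : ℝ, HasDerivAt (fun y : ℝ => y - c) 1 t := fun c => (hasDerivAt_id t).sub_const c
  have h1 := (Ae_hasDerivAt he (t - tL)).comp t (hs tL)
  have h2 := (Ae_hasDerivAt he (t - tR)).comp t (hs tR)
  have h3 := (Ae_hasDerivAt hw (t - tM)).comp t (hs tM)
  rw [mul_one] at h1 h2 h3
  exact ((h1.add h2).div_const 2).sub h3

lemma u1_hasDerivAt (t : ℝ) :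
    HasDerivAt (u1 e w tL tR tM) (u2 e w tL tR tM t) t := by
  unfold u1 u2
  have hs : ∀ c : ℝ, HasDerivAt (fun y : ℝ => y - c) 1 t := fun c => (hasDerivAt_id t).sub_const c
  have h1 := (sge_hasDerivAt (e := e) (t - tL)).comp t (hs tL)
  have h2 := (sge_hasDerivAt (e := e) (t - tR)).comp t (hs tR)
  have h3 := (sge_hasDerivAt (e := w) (t - tM)).comp t (hs tM)
  rw [mul_one] at h1 h2 h3
  exact ((h1.add h2).div_const 2).sub h3

lemma abs_u1_le (t : ℝ) : |u1 e w tL tR tM t| ≤ 1 := by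
  unfold u1
  have h1 := abs_le.mp (abs_sg_le ((t - tL) / e))
  have h2 := abs_le.mp (abs_sg_le ((t - tR) / e))
  have h3 := abs_le.mp (abs_sg_le ((t - tM) / w))
  rw [abs_le]
  constructor <;> linarith [h1.1, h1.2, h2.1, h2.2, h3.1, h3.2]

lemma uu_left (he : 0 < e) (hw : 0 < w) (hM : tM = (tL + tR) / 2) (hLR : 4 * w ≤ tR - tL)
    {t : ℝ} (ht : t ≤ tL - e) : uu e w tL tR tM t = 0 := by
  unfold uu
  have a1 : |t - tL| = tL - t := by rw [abs_of_nonpos (by linarith)]; ring
  have a2 : |t - tR| = tR - t := by rw [abs_of_nonpos (by linarith)]; ring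
  have a3 : |t - tM| = tM - t := by rw [abs_of_nonpos (by linarith)]; ring
  rw [Ae_of_abs he (by rw [a1]; linarith), Ae_of_abs he (by rw [a2]; linarith),
    Ae_of_abs hw (by rw [a3]; linarith), a1, a2, a3, hM]
  ring

lemma uu_right (he : 0 < e) (hw : 0 < w) (hM : tM = (tL + tR) / 2) (hLR : 4 * w ≤ tR - tL)
    {t : ℝ} (ht : tR + e ≤ t) : uu e w tL tR tM t = 0 := by
  unfold uu
  have a1 : |t - tL| = t - tL := abs_of_nonneg (by linarith)
  have a2 : |t - tR| = t - tR := abs_of_nonneg (by linarith)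
  have a3 : |t - tM| = t - tM := abs_of_nonneg (by linarith)
  rw [Ae_of_abs he (by rw [a1]; linarith), Ae_of_abs he (by rw [a2]; linarith),
    Ae_of_abs hw (by rw [a3]; linarith), a1, a2, a3, hM]
  ring

lemma uu_lower (he : 0 < e) (hw : 0 < w) {t : ℝ} (ht : |t - tM| ≤ w) :
    (tR - tL) / 4 - w ≤ uu e w tL tR tM t := by
  unfold uu
  have h1 := Ae_ge he (t - tL)
  have h2 := Ae_ge he (t - tR)
  have h3 := Ae_le hw ht
  have h4 := le_abs_self (t - tL)
  have h5 := neg_abs_le (t - tR)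
  linarith

lemma uu_nonneg (he : 0 < e) (hw : 0 < w) (hM : tM = (tL + tR) / 2) (hLR : 4 * w ≤ tR - tL)
    (t : ℝ) : 0 ≤ uu e w tL tR tM t := by
  rcases le_total (|t - tM|) w with h | h
  · have := uu_lower (tL := tL) (tR := tR) he hw h
    linarith
  · unfold uu
    rw [Ae_of_abs hw h]
    have h1 := Ae_ge he (t - tL)
    have h2 := Ae_ge he (t - tR)
    have h3 : 2 * |t - tM| ≤ |t - tL| + |t - tR| := by
      have : 2 * (t - tM) = (t - tL) + (t - tR) := by rw [hM]; ring
      calc 2 * |t - tM| = |2 * (t - tM)| := by rw [abs_mul, abs_two]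
        _ = |(t - tL) + (t - tR)| := by rw [this]
        _ ≤ _ := abs_add_le _ _
    linarith

end U

/-! ## Composition with the logarithm -/

lemma log_small {t₀ x : ℝ} (h0 : x ≠ 0) (hx : |x| < Real.exp (2 * t₀)) : Real.log x / 2 ≤ t₀ := by
  have h1 : Real.log |x| < 2 * t₀ := by
    rw [← Real.log_exp (2 * t₀)]
    exact Real.log_lt_log (abs_pos.mpr h0) hx
  rw [Real.log_abs] at h1
  linarith

lemma comp_log_zero {v : ℝ → ℝ} {t₀ : ℝ} (ht₀ : 0 ≤ t₀) (hv : ∀ t ≤ t₀, v t = 0) :
    ∀ᶠ x in 𝓝 (0 : ℝ), v (Real.log x / 2) = 0 := by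
  have hpos : 0 < Real.exp (2 * t₀) := Real.exp_pos _
  filter_upwards [Metric.ball_mem_nhds (0 : ℝ) hpos] with x hx
  rw [Metric.mem_ball, dist_zero_right, Real.norm_eq_abs] at hx
  rcases eq_or_ne x 0 with h | h
  · rw [h, Real.log_zero, zero_div]
    exact hv 0 ht₀
  · exact hv _ (log_small h hx)

lemma comp_log_contDiff {v : ℝ → ℝ} (hv : ContDiff ℝ ∞ v) {t₀ : ℝ} (ht₀ : 0 ≤ t₀)
    (hz : ∀ t ≤ t₀, v t = 0) : ContDiff ℝ ∞ (fun x => v (Real.log x / 2)) := by
  rw [contDiff_iff_contDiffAt]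
  intro x
  rcases eq_or_ne x 0 with h | h
  · rw [h]
    have : (fun x => v (Real.log x / 2)) =ᶠ[𝓝 0] fun _ => (0 : ℝ) := comp_log_zero ht₀ hz
    exact contDiffAt_const.congr_of_eventuallyEq this
  · exact hv.contDiffAt.comp x ((Real.contDiffAt_log.mpr h).div_const 2)

lemma comp_log_div_contDiff {v : ℝ → ℝ} (hv : ContDiff ℝ ∞ v) {t₀ : ℝ} (ht₀ : 0 ≤ t₀)
    (hz : ∀ t ≤ t₀, v t = 0) : ContDiff ℝ ∞ (fun x => v (Real.log x / 2) / x) := by
  rw [contDiff_iff_contDiffAt]
  intro x
  rcases eq_or_ne x 0 with h | h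
  · rw [h]
    have : (fun x => v (Real.log x / 2) / x) =ᶠ[𝓝 0] fun _ => (0 : ℝ) := by
      filter_upwards [comp_log_zero ht₀ hz] with y hy
      rw [hy, zero_div]
    exact contDiffAt_const.congr_of_eventuallyEq this
  · exact (hv.contDiffAt.comp x ((Real.contDiffAt_log.mpr h).div_const 2)).div contDiffAt_id h

end Pool.Agent.LR.B5.Prof
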