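import Pool.Agent.LR.B5.ProfA

/-! # LR-B5-ProfB: radial functions `U(|z - z₀|²/ρ²)` -/

set_option autoImplicit false

open scoped Topology ContDiff
open Filter Set

namespace Pool.Agent.LR.B5.Prof

/-- `|z - z₀|² / ρ²`. -/
noncomputable def pp (z₀ : P) (ρ : ℝ) (z : P) : ℝ := ((z.1 - z₀.1) ^ 2 + (z.2 - z₀.2) ^ 2) / ρ ^ 2

lemma pp_nonneg (z₀ : P) (ρ : ℝ) (z : P) : 0 ≤ pp z₀ ρ z := by unfold pp; positivity

lemma pp_eq (z₀ : P) (ρ : ℝ) (z : P) : pp z₀ ρ z = (lenP (z - z₀) / ρ) ^ 2 := by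
  unfold pp lenP
  rw [div_pow, Real.sq_sqrt (by positivity)]
  simp

lemma pp_contDiff (z₀ : P) (ρ : ℝ) : ContDiff ℝ ∞ (pp z₀ ρ) := by
  unfold pp
  exact (((contDiff_fst.sub contDiff_const).pow 2).add
    ((contDiff_snd.sub contDiff_const).pow 2)).div_const _

lemma pp_hasFDerivAt (z₀ : P) (ρ : ℝ) (z : P) :
    HasFDerivAt (pp z₀ ρ) ((2 * (z.1 - z₀.1) / ρ ^ 2) • ContinuousLinearMap.fst ℝ ℝ ℝ +
      (2 * (z.2 - z₀.2) / ρ ^ 2) • ContinuousLinearMap.snd ℝ ℝ ℝ) z := by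
  have h1 : HasFDerivAt (fun y : P => y.1 - z₀.1) (ContinuousLinearMap.fst ℝ ℝ ℝ) z :=
    hasFDerivAt_fst.sub_const _
  have h2 : HasFDerivAt (fun y : P => y.2 - z₀.2) (ContinuousLinearMap.snd ℝ ℝ ℝ) z :=
    hasFDerivAt_snd.sub_const _
  have h3 := ((h1.pow 2).add (h2.pow 2)).mul_const ((ρ ^ 2)⁻¹)
  unfold pp
  simp only [div_eq_mul_inv]
  refine h3.congr_fderiv ?_
  refine ContinuousLinearMap.ext fun v => ?_
  simp
  ring

section Radial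

variable {U : ℝ → ℝ} (z₀ : P) (ρ : ℝ)

lemma rad_fderiv (hU : ContDiff ℝ ∞ U) (z v : P) :
    fderiv ℝ (fun y => U (pp z₀ ρ y)) z v =
      deriv U (pp z₀ ρ z) * (2 * (z.1 - z₀.1) / ρ ^ 2 * v.1 + 2 * (z.2 - z₀.2) / ρ ^ 2 * v.2) := by
  have hd : HasDerivAt U (deriv U (pp z₀ ρ z)) (pp z₀ ρ z) :=
    ((contDiff_infty_iff_deriv.mp hU).1 _).hasDerivAt
  have h := hd.comp_hasFDerivAt z (pp_hasFDerivAt z₀ ρ z)
  have h' : HasFDerivAt (fun y => U (pp z₀ ρ y)) _ z := h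
  rw [h'.fderiv]
  simp
  ring

lemma rad_gsq (hU : ContDiff ℝ ∞ U) (z : P) :
    gsq (fun y => U (pp z₀ ρ y)) z = deriv U (pp z₀ ρ z) ^ 2 * (4 * pp z₀ ρ z) / ρ ^ 2 := by
  unfold gsq
  rw [rad_fderiv z₀ ρ hU, rad_fderiv z₀ ρ hU]
  unfold pp
  simp only [mul_one, mul_zero, add_zero, zero_add]
  ring

lemma rad_second (hU : ContDiff ℝ ∞ U) (z v : P) :
    fderiv ℝ (fun w => fderiv ℝ (fun y => U (pp z₀ ρ y)) w v) z v =
      deriv (deriv U) (pp z₀ ρ z) *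
        (2 * (z.1 - z₀.1) / ρ ^ 2 * v.1 + 2 * (z.2 - z₀.2) / ρ ^ 2 * v.2) ^ 2 +
      deriv U (pp z₀ ρ z) * (2 / ρ ^ 2 * v.1 ^ 2 + 2 / ρ ^ 2 * v.2 ^ 2) := by
  have hfun : (fun w => fderiv ℝ (fun y => U (pp z₀ ρ y)) w v) =
      fun w : P => deriv U (pp z₀ ρ w) *
        (2 * (w.1 - z₀.1) / ρ ^ 2 * v.1 + 2 * (w.2 - z₀.2) / ρ ^ 2 * v.2) :=
    funext fun w => rad_fderiv z₀ ρ hU w v
  rw [hfun]
  have hU' : ContDiff ℝ ∞ (deriv U) := (contDiff_infty_iff_deriv.mp hU).2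
  have hd : HasDerivAt (deriv U) (deriv (deriv U) (pp z₀ ρ z)) (pp z₀ ρ z) :=
    ((contDiff_infty_iff_deriv.mp hU').1 _).hasDerivAt
  have h1 : HasFDerivAt (fun w => deriv U (pp z₀ ρ w)) _ z :=
    hd.comp_hasFDerivAt z (pp_hasFDerivAt z₀ ρ z)
  have h2 : HasFDerivAt (fun w : P =>
      (2 * (w.1 - z₀.1) / ρ ^ 2 * v.1 + 2 * (w.2 - z₀.2) / ρ ^ 2 * v.2))
      ((2 / ρ ^ 2 * v.1) • ContinuousLinearMap.fst ℝ ℝ ℝ +
        (2 / ρ ^ 2 * v.2) • ContinuousLinearMap.snd ℝ ℝ ℝ) z := by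
    have a1 : HasFDerivAt (fun y : P => y.1 - z₀.1) (ContinuousLinearMap.fst ℝ ℝ ℝ) z :=
      hasFDerivAt_fst.sub_const _
    have a2 : HasFDerivAt (fun y : P => y.2 - z₀.2) (ContinuousLinearMap.snd ℝ ℝ ℝ) z :=
      hasFDerivAt_snd.sub_const _
    have a3 := (a1.const_mul (2 / ρ ^ 2 * v.1)).add (a2.const_mul (2 / ρ ^ 2 * v.2))
    refine a3.congr_of_eventuallyEq (Eventually.of_forall fun w => ?_)
    simp only [Pi.add_apply]
    ring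
  have h3 := h1.mul h2
  have h3' : HasFDerivAt (fun w : P => deriv U (pp z₀ ρ w) *
        (2 * (w.1 - z₀.1) / ρ ^ 2 * v.1 + 2 * (w.2 - z₀.2) / ρ ^ 2 * v.2)) _ z := h3
  rw [h3'.fderiv]
  simp
  ring

lemma rad_lapl (hU : ContDiff ℝ ∞ U) (z : P) :
    lapl (fun y => U (pp z₀ ρ y)) z =
      (4 * pp z₀ ρ z * deriv (deriv U) (pp z₀ ρ z) + 4 * deriv U (pp z₀ ρ z)) / ρ ^ 2 := by
  unfold lapl
  rw [rad_second z₀ ρ hU, rad_second z₀ ρ hU]
  simp only [mul_one, mul_zero, add_zero, zero_add, one_pow]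
  have : (2 * (z.1 - z₀.1) / ρ ^ 2) ^ 2 + (2 * (z.2 - z₀.2) / ρ ^ 2) ^ 2 =
      4 * pp z₀ ρ z / ρ ^ 2 := by
    unfold pp; ring
  have e0 : (0 : ℝ) ^ 2 = 0 := by norm_num
  rw [e0, mul_zero, add_zero, zero_add]
  calc _ = deriv (deriv U) (pp z₀ ρ z) *
        ((2 * (z.1 - z₀.1) / ρ ^ 2) ^ 2 + (2 * (z.2 - z₀.2) / ρ ^ 2) ^ 2) +
        deriv U (pp z₀ ρ z) * (4 / ρ ^ 2) := by ring
    _ = _ := by rw [this]; ring

end Radial

/-! ## Logarithmic profiles -/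

section LogU

variable {e w tL tR tM : ℝ}

lemma U_contDiff (he : 0 < e) (hw : 0 < w) (hM : tM = (tL + tR) / 2) (hLR : 4 * w ≤ tR - tL)
    (h0 : 0 ≤ tL - e) : ContDiff ℝ ∞ (fun x => uu e w tL tR tM (Real.log x / 2)) :=
  comp_log_contDiff uu_contDiff h0 (fun _ ht => uu_left he hw hM hLR ht)

lemma U_deriv_pos (he : 0 < e) (hw : 0 < w) {x : ℝ} (hx : x ≠ 0) :
    HasDerivAt (fun x => uu e w tL tR tM (Real.log x / 2))
      (u1 e w tL tR tM (Real.log x / 2) / (2 * x)) x := by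
  have h1 : HasDerivAt (fun y : ℝ => Real.log y / 2) (x⁻¹ / 2) x :=
    (Real.hasDerivAt_log hx).div_const 2
  have h2 := (uu_hasDerivAt (tL := tL) (tR := tR) (tM := tM) he hw (Real.log x / 2)).comp x h1
  have h3 : u1 e w tL tR tM (Real.log x / 2) * (x⁻¹ / 2) =
      u1 e w tL tR tM (Real.log x / 2) / (2 * x) := by
    field_simp
  rw [h3] at h2
  exact h2

lemma U_deriv_zero (he : 0 < e) (hw : 0 < w) (hM : tM = (tL + tR) / 2) (hLR : 4 * w ≤ tR - tL)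
    (h0 : 0 ≤ tL - e) : deriv (fun x => uu e w tL tR tM (Real.log x / 2)) 0 = 0 := by
  have h := comp_log_zero (v := uu e w tL tR tM) h0 (fun _ ht => uu_left he hw hM hLR ht)
  have h' : (fun x => uu e w tL tR tM (Real.log x / 2)) =ᶠ[𝓝 0] fun _ => (0 : ℝ) := h
  rw [h'.deriv_eq, deriv_const]

lemma U_gsq (he : 0 < e) (hw : 0 < w) (hM : tM = (tL + tR) / 2) (hLR : 4 * w ≤ tR - tL)
    (h0 : 0 ≤ tL - e) (x : ℝ) :
    deriv (fun x => uu e w tL tR tM (Real.log x / 2)) x ^ 2 * (4 * x) =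
      u1 e w tL tR tM (Real.log x / 2) ^ 2 / x := by
  rcases eq_or_ne x 0 with h | h
  · rw [h, U_deriv_zero he hw hM hLR h0]; simp
  · rw [(U_deriv_pos he hw h).deriv]
    field_simp
    ring

lemma U_lapl (he : 0 < e) (hw : 0 < w) (hM : tM = (tL + tR) / 2) (hLR : 4 * w ≤ tR - tL)
    (h0 : 0 ≤ tL - e) (x : ℝ) :
    4 * x * deriv (deriv (fun x => uu e w tL tR tM (Real.log x / 2))) x +
      4 * deriv (fun x => uu e w tL tR tM (Real.log x / 2)) x =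
      u2 e w tL tR tM (Real.log x / 2) / x := by
  rcases eq_or_ne x 0 with h | h
  · rw [h, U_deriv_zero he hw hM hLR h0]; simp
  · have hev : deriv (fun x => uu e w tL tR tM (Real.log x / 2)) =ᶠ[𝓝 x]
        fun y => u1 e w tL tR tM (Real.log y / 2) / (2 * y) := by
      filter_upwards [isOpen_ne.mem_nhds h] with y hy
      exact (U_deriv_pos he hw hy).deriv
    have h1 : HasDerivAt (fun y : ℝ => Real.log y / 2) (x⁻¹ / 2) x :=
      (Real.hasDerivAt_log h).div_const 2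
    have h2' := (u1_hasDerivAt (e := e) (w := w) (tL := tL) (tR := tR) (tM := tM)
      (Real.log x / 2)).comp x h1
    have h2 : HasDerivAt (fun y => u1 e w tL tR tM (Real.log y / 2))
        (u2 e w tL tR tM (Real.log x / 2) * (x⁻¹ / 2)) x := h2'
    have h3 : HasDerivAt (fun y : ℝ => 2 * y) (2 * 1) x := (hasDerivAt_id x).const_mul 2
    have h4 := h2.div h3 (mul_ne_zero two_ne_zero h)
    have h5 : HasDerivAt (fun y => u1 e w tL tR tM (Real.log y / 2) / (2 * y)) _ x := h4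
    rw [hev.deriv_eq, h5.deriv, (U_deriv_pos he hw h).deriv]
    field_simp
    ring

end LogU

end Pool.Agent.LR.B5.Prof
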