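import Pool.Agent.LR.B5.Disc
import Pool.Agent.LR.B5.GapSq
import Pool.Agent.LR.B5.GapCard
import Pool.Agent.LR.B5.Prof

/-!
# LR-B5-ProfCalc: the residual of a ring charge (6.4) and small facts about the profile
-/

set_option autoImplicit false

open Filter Topology MeasureTheory

namespace Pool.Agent.LR.B5

/-- The mean over a pinned block of a function vanishing on the pinned cells. -/
theorem avg_blk_zero {z₀ : P} {ρ δ : ℝ} (hρ : 0 < ρ) (hδ : 0 < δ) {n : ℕ} {a : ℕ}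
    (ha : a = 2 ∨ a = 4) {H : P → ℝ}
    (hs : ∀ z ∈ tsupport H, a * ρ < lenP (z - z₀) ∧ lenP (z - z₀) < (a + 1) * ρ) {i : V}
    (hi : i ∈ pin z₀ ρ δ) : avg (blk z₀ ρ δ n i) (smp H n) = 0 := by
  rw [avg_eq, Finset.sum_eq_zero, zero_div]
  intro x hx
  unfold blk at hx
  rw [Finset.mem_filter] at hx
  have h1 := sc_mem_cell (z₀ := z₀) hδ n x
  rw [hx.2] at h1
  by_contra hne
  have h2 := hs _ (subset_tsupport H hne)
  rcases (mem_pin_iff hρ hδ).1 hi with h | h | h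
  · have h3 := mem_shell.1 (h h1)
    push_cast at h3
    rcases ha with rfl | rfl <;> push_cast at h2 <;> linarith [h2.1, h2.2, h3.1, h3.2]
  · have h3 := mem_shell.1 (h h1)
    push_cast at h3
    rcases ha with rfl | rfl <;> push_cast at h2 <;> linarith [h2.1, h2.2, h3.1, h3.2]
  · have h3 := mem_shell.1 (h h1)
    push_cast at h3
    rcases ha with rfl | rfl <;> push_cast at h2 <;> linarith [h2.1, h2.2, h3.1, h3.2]

theorem MP_smp {α β : ℝ} {z₀ : P} {ρ δ : ℝ} (hρ : 0 < ρ) (hδ : 0 < δ) {n : ℕ} {a : ℕ}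
    (ha : a = 2 ∨ a = 4) {H : P → ℝ}
    (hs : ∀ z ∈ tsupport H, a * ρ < lenP (z - z₀) ∧ lenP (z - z₀) < (a + 1) * ρ) (M : ℝ)
    (φ : V → ℝ) :
    MP α β z₀ ρ M δ n (smp H n) φ = QF α β (SS z₀ ρ n) (smp H n) φ := by
  rw [MP_apply, Finset.sum_eq_zero, add_zero]
  intro i hi
  rw [avg_blk_zero hρ hδ ha hs hi]
  ring

theorem sum_abs_le (T : Finset V) (φ : V → ℝ) :
    ∑ x ∈ T, |φ x| ≤ Real.sqrt (T.card) * Real.sqrt (∑ x ∈ T, φ x ^ 2) := by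
  rw [← Real.sqrt_mul (Nat.cast_nonneg _)]
  refine Real.le_sqrt_of_sq_le ?_
  have h := sq_sum_le_card_mul_sum_sq (s := T) (f := fun x => |φ x|)
  simpa only [sq_abs] using h

theorem card_SS {z₀ : P} {ρ : ℝ} {n : ℕ} (hρn : 20 ≤ ρ * n) :
    ((SS z₀ ρ n).card : ℝ) ≤ 729 * (ρ * n) ^ 2 := by
  have hAB := sAB (z₀ := z₀) hρn
  have hCD := sCD (z₀ := z₀) hρn
  have tAB : (((sB z₀ ρ n - sA z₀ ρ n).toNat : ℕ) : ℝ) = ((sB z₀ ρ n - sA z₀ ρ n : ℤ) : ℝ) := by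
    have h0 : (0 : ℝ) ≤ ((sB z₀ ρ n - sA z₀ ρ n : ℤ) : ℝ) := by linarith [hAB.1]
    have h0' : 0 ≤ sB z₀ ρ n - sA z₀ ρ n := by exact_mod_cast h0
    exact_mod_cast Int.toNat_of_nonneg h0'
  have tCD : (((sD z₀ ρ n - sC z₀ ρ n).toNat : ℕ) : ℝ) = ((sD z₀ ρ n - sC z₀ ρ n : ℤ) : ℝ) := by
    have h0 : (0 : ℝ) ≤ ((sD z₀ ρ n - sC z₀ ρ n : ℤ) : ℝ) := by linarith [hCD.1]
    have h0' : 0 ≤ sD z₀ ρ n - sC z₀ ρ n := by exact_mod_cast h0
    exact_mod_cast Int.toNat_of_nonneg h0'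
  rw [SS_rect, rect_card, Nat.cast_mul, tAB, tCD]
  have := mul_le_mul hAB.2 hCD.2 (by linarith [hCD.1]) (by linarith [hAB.1])
  calc _ ≤ _ := this
    _ = 729 * (ρ * n) ^ 2 := by ring

theorem sqrt_aux (D X L Q : ℝ) (hD : 0 ≤ D) (hX : 0 ≤ X) (hL : 0 ≤ L) :
    Real.sqrt (D * (X ^ 2 * (L * Q))) = Real.sqrt D * X * Real.sqrt L * Real.sqrt Q := by
  rw [Real.sqrt_mul hD, Real.sqrt_mul (sq_nonneg X), Real.sqrt_sq hX, Real.sqrt_mul hL]
  ring

/-- The residual bound for one ring, with all constants explicit functions of `lam`. -/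
theorem residual {α β : ℝ} (hα : 4 < α) (hβ : 0 < β) (z₀ : P) {ρ : ℝ} (hρ : 0 < ρ) (B : ℝ)
    (hB : 0 < B) : ∃ K > 0, ∀ lam M δ : ℝ, 0 < lam → lam ≤ 1 / 100 → 1 / lam ^ 2 ≤ M → 0 < δ →
    δ ≤ lam * ρ → δ ≤ lam → ∀ a : ℕ, (a = 2 ∨ a = 4) → ∀ F H : P → ℝ,
    ContDiff ℝ ((⊤ : ℕ∞) : WithTop ℕ∞) H → HasCompactSupport H →
    (∀ z ∈ tsupport H, a * ρ < lenP (z - z₀) ∧ lenP (z - z₀) < (a + 1) * ρ) →
    (∀ z, |F z + lapl H z| ≤ B / lam) →
    (∀ z, F z + lapl H z ≠ 0 → (a * ρ < lenP (z - z₀) ∧ lenP (z - z₀) < (a + lam) * ρ) ∨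
      ((a + 1 - lam) * ρ < lenP (z - z₀) ∧ lenP (z - z₀) < (a + 1) * ρ)) →
    ∀ᶠ n : ℕ in atTop, ∀ φ : V → ℝ,
      |pr (SS z₀ ρ n) (chg (fun z => cc α β * F z) n) φ - MP α β z₀ ρ M δ n (smp H n) φ| ≤
        (K * Real.sqrt lam + lam) * Real.sqrt (MP α β z₀ ρ M δ n φ φ) := by
  obtain ⟨C1, hC1, hgs⟩ := gap_sq (α := α) hβ z₀ hρ
  obtain ⟨C2, hC2, hgc⟩ := gap_card z₀ hρ
  obtain ⟨C3, hC3, hpo⟩ := poinc hα hβ z₀ hρ
  have hcc := cc_pos hα hβ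
  refine ⟨cc α β * B * Real.sqrt (3 * C1 * C2), by positivity, ?_⟩
  intro lam M δ hlam hlam1 hM hδ hδl hδl' a ha F H hH hc hs hF hFs
  have hM1 : 1 ≤ M := by
    refine le_trans ?_ hM
    rw [le_div_iff₀ (by positivity)]
    nlinarith
  have hM0 : 0 < M := by linarith
  have hδρ : δ ≤ ρ / 8 := by nlinarith
  have hs6 : ∀ z, H z ≠ 0 → lenP (z - z₀) ≤ 6 * ρ := by
    intro z hz
    have := (hs z (subset_tsupport H hz)).2
    have ha4 : (a : ℝ) ≤ 4 := by rcases ha with rfl | rfl <;> norm_num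
    nlinarith
  obtain ⟨eps, heps, hdisc⟩ := disc hα hβ z₀ hρ H hH hc hs6
  have hepsE : ∀ᶠ n in atTop, eps n ≤ lam / (27 * ρ * Real.sqrt C3) := by
    have := (tendsto_order.1 heps).2 (lam / (27 * ρ * Real.sqrt C3)) (by positivity)
    filter_upwards [this] with n hn using hn.le
  filter_upwards [hdisc, hepsE, hgs lam M δ hlam hlam1 hM1 hδ hδl, hgc lam hlam hlam1,
    hpo M δ hM1 hδ hδρ, ev_large hρ hδ] with n hd he h1 h2 h3 hn φ
  obtain ⟨hn0, hnδ, hρn⟩ := hn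
  have hn' : (0 : ℝ) < n := by exact_mod_cast hn0
  have hn2 : (0 : ℝ) < (n : ℝ) ^ 2 := by positivity
  have hQ : 0 ≤ MP α β z₀ ρ M δ n φ φ := MP_nonneg hβ.le z₀ ρ hM0.le δ n φ
  rw [MP_smp hρ hδ ha hs M φ]
  have hd2 := hd.2 φ
  -- the gap sites
  set T := (SS z₀ ρ n).filter (fun x => F (sc n x) + lapl H (sc n x) ≠ 0) with hT
  have hTgap : ∀ x ∈ T, (a * ρ < lenP (sc n x - z₀) ∧ lenP (sc n x - z₀) < (a + lam) * ρ) ∨
      ((a + 1 - lam) * ρ < lenP (sc n x - z₀) ∧ lenP (sc n x - z₀) < (a + 1) * ρ) := by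
    intro x hx
    rw [hT, Finset.mem_filter] at hx
    exact hFs _ hx.2
  have hsq := h1 a ha T hTgap φ
  have hcd := h2 a ha T hTgap
  have hpoi := h3 φ
  set Q := MP α β z₀ ρ M δ n φ φ with hQd
  -- main identity
  have hid : pr (SS z₀ ρ n) (chg (fun z => cc α β * F z) n) φ - QF α β (SS z₀ ρ n) (smp H n) φ =
      (∑ x ∈ T, cc α β * (F (sc n x) + lapl H (sc n x)) / (n : ℝ) ^ 2 * φ x) -
      (QF α β (SS z₀ ρ n) (smp H n) φ +
        ∑ x ∈ SS z₀ ρ n, cc α β * lapl H (sc n x) / (n : ℝ) ^ 2 * φ x) := by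
    have e1 : ∑ x ∈ T, cc α β * (F (sc n x) + lapl H (sc n x)) / (n : ℝ) ^ 2 * φ x =
        ∑ x ∈ SS z₀ ρ n, cc α β * (F (sc n x) + lapl H (sc n x)) / (n : ℝ) ^ 2 * φ x := by
      rw [hT]
      refine Finset.sum_filter_of_ne fun x _ hne h0 => hne ?_
      rw [h0]; ring
    have e2 : ∑ x ∈ SS z₀ ρ n, cc α β * (F (sc n x) + lapl H (sc n x)) / (n : ℝ) ^ 2 * φ x =
        pr (SS z₀ ρ n) (chg (fun z => cc α β * F z) n) φ +
        ∑ x ∈ SS z₀ ρ n, cc α β * lapl H (sc n x) / (n : ℝ) ^ 2 * φ x := by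
      unfold pr chg
      rw [← Finset.sum_add_distrib]
      refine Finset.sum_congr rfl fun x _ => ?_
      ring
    rw [e1, e2]
    ring
  rw [hid]
  refine (abs_sub _ _).trans ?_
  rw [add_mul]
  refine add_le_add ?_ ?_
  · -- the gap part
    have e1 : |∑ x ∈ T, cc α β * (F (sc n x) + lapl H (sc n x)) / (n : ℝ) ^ 2 * φ x| ≤
        (cc α β * (B / lam) / (n : ℝ) ^ 2) * ∑ x ∈ T, |φ x| := by
      refine (Finset.abs_sum_le_sum_abs _ _).trans ?_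
      rw [Finset.mul_sum]
      refine Finset.sum_le_sum fun x _ => ?_
      rw [abs_mul, abs_div, abs_mul, abs_of_pos hcc, abs_of_pos hn2]
      refine mul_le_mul_of_nonneg_right ?_ (abs_nonneg _)
      refine div_le_div_of_nonneg_right ?_ hn2.le
      exact mul_le_mul_of_nonneg_left (hF _) hcc.le
    refine e1.trans ?_
    have e2 := sum_abs_le T φ
    have e3 : 1 / M + δ ^ 2 + lam ^ 2 ≤ 3 * lam ^ 2 := by
      have g1 : 1 / M ≤ lam ^ 2 := by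
        rw [div_le_iff₀ hM0]
        rw [div_le_iff₀ (by positivity)] at hM
        linarith
      have g2 : δ ^ 2 ≤ lam ^ 2 := pow_le_pow_left₀ hδ.le hδl' 2
      linarith
    have e4 : ∑ x ∈ T, φ x ^ 2 ≤ (3 * C1) * (n : ℝ) ^ 2 * lam ^ 2 * Q := by
      refine hsq.trans ?_
      refine mul_le_mul_of_nonneg_right ?_ hQ
      have := mul_le_mul_of_nonneg_left e3 (by positivity : 0 ≤ C1 * (n : ℝ) ^ 2)
      linarith
    have e5 : Real.sqrt (T.card) * Real.sqrt (∑ x ∈ T, φ x ^ 2) ≤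
        Real.sqrt (3 * C1 * C2) * (n : ℝ) ^ 2 * lam * Real.sqrt lam * Real.sqrt Q := by
      rw [← Real.sqrt_mul (Nat.cast_nonneg _)]
      have e6 : Real.sqrt (3 * C1 * C2) * (n : ℝ) ^ 2 * lam * Real.sqrt lam * Real.sqrt Q =
          Real.sqrt ((C2 * lam * (n : ℝ) ^ 2) * ((3 * C1) * (n : ℝ) ^ 2 * lam ^ 2 * Q)) := by
        rw [show (C2 * lam * (n : ℝ) ^ 2) * ((3 * C1) * (n : ℝ) ^ 2 * lam ^ 2 * Q) =
          (3 * C1 * C2) * (((n : ℝ) ^ 2 * lam) ^ 2 * (lam * Q)) by ring]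
        rw [sqrt_aux _ _ _ _ (by positivity) (by positivity) hlam.le]
        ring
      rw [e6]
      refine Real.sqrt_le_sqrt ?_
      exact mul_le_mul hcd e4 (Finset.sum_nonneg fun _ _ => sq_nonneg _) (by positivity)
    calc (cc α β * (B / lam) / (n : ℝ) ^ 2) * ∑ x ∈ T, |φ x|
        ≤ (cc α β * (B / lam) / (n : ℝ) ^ 2) *
          (Real.sqrt (3 * C1 * C2) * (n : ℝ) ^ 2 * lam * Real.sqrt lam * Real.sqrt Q) :=
          mul_le_mul_of_nonneg_left (e2.trans e5) (by positivity)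
      _ = cc α β * B * Real.sqrt (3 * C1 * C2) * Real.sqrt lam * Real.sqrt Q := by
          field_simp
  · -- the discretisation part
    refine hd2.trans ?_
    have e2 := sum_abs_le (SS z₀ ρ n) φ
    have e3 := card_SS (z₀ := z₀) hρn
    have e4 : ∑ x ∈ SS z₀ ρ n, φ x ^ 2 ≤ C3 * Q * (n : ℝ) ^ 2 := by
      rwa [div_le_iff₀ hn2] at hpoi
    have e5 : Real.sqrt ((SS z₀ ρ n).card) * Real.sqrt (∑ x ∈ SS z₀ ρ n, φ x ^ 2) ≤
        27 * ρ * Real.sqrt C3 * (n : ℝ) ^ 2 * Real.sqrt Q := by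
      rw [← Real.sqrt_mul (Nat.cast_nonneg _)]
      have e6 : 27 * ρ * Real.sqrt C3 * (n : ℝ) ^ 2 * Real.sqrt Q =
          Real.sqrt ((729 * (ρ * n) ^ 2) * (C3 * Q * (n : ℝ) ^ 2)) := by
        rw [show (729 * (ρ * n) ^ 2) * (C3 * Q * (n : ℝ) ^ 2) =
          1 * ((27 * ρ * (n : ℝ) ^ 2) ^ 2 * (C3 * Q)) by ring]
        rw [sqrt_aux _ _ _ _ zero_le_one (by positivity) hC3.le, Real.sqrt_one]
        ring
      rw [e6]
      refine Real.sqrt_le_sqrt ?_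
      exact mul_le_mul e3 e4 (Finset.sum_nonneg fun _ _ => sq_nonneg _) (by positivity)
    have e7 : 0 ≤ eps n / (n : ℝ) ^ 2 := div_nonneg hd.1 hn2.le
    calc eps n / (n : ℝ) ^ 2 * ∑ x ∈ SS z₀ ρ n, |φ x|
        ≤ eps n / (n : ℝ) ^ 2 * (27 * ρ * Real.sqrt C3 * (n : ℝ) ^ 2 * Real.sqrt Q) :=
          mul_le_mul_of_nonneg_left (e2.trans e5) e7
      _ = eps n * (27 * ρ * Real.sqrt C3) * Real.sqrt Q := by field_simp
      _ ≤ (lam / (27 * ρ * Real.sqrt C3)) * (27 * ρ * Real.sqrt C3) * Real.sqrt Q := by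
          refine mul_le_mul_of_nonneg_right ?_ (Real.sqrt_nonneg _)
          exact mul_le_mul_of_nonneg_right he (by positivity)
      _ = lam * Real.sqrt Q := by
          have : Real.sqrt C3 ≠ 0 := (Real.sqrt_pos.2 hC3).ne'
          field_simp

/-- The Dirichlet integral of a function supported in the ring. -/
theorem Dir_eq {z₀ : P} {ρ : ℝ} (hρ : 0 < ρ) {a : ℕ} (ha : a = 2 ∨ a = 4) {H : P → ℝ}
    (hs : ∀ z ∈ tsupport H, a * ρ < lenP (z - z₀) ∧ lenP (z - z₀) < (a + 1) * ρ) {s : ℝ}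
    (hs5 : 5 * ρ ≤ s) :
    ∫ z in rct (z₀.1 - s) (z₀.1 + s) (z₀.2 - s) (z₀.2 + s), gsq H z = Dir H := by
  unfold Dir
  refine setIntegral_eq_integral_of_forall_compl_eq_zero fun z hz => ?_
  have hzs : z ∉ tsupport H := by
    intro h
    have h1 := (hs z h).2
    have ha4 : (a : ℝ) ≤ 4 := by rcases ha with rfl | rfl <;> norm_num
    have h2 : lenP (z - z₀) ≤ s := by nlinarith
    refine hz ?_
    have h3 := abs_le.1 ((abs_fst_le_lenP (z - z₀)).trans h2)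
    have h4 := abs_le.1 ((abs_snd_le_lenP (z - z₀)).trans h2)
    rw [Prod.fst_sub] at h3
    rw [Prod.snd_sub] at h4
    unfold rct
    rw [Set.mem_prod, Set.mem_Icc, Set.mem_Icc]
    refine ⟨⟨?_, ?_⟩, ?_, ?_⟩ <;> linarith
  unfold gsq
  rw [fderiv_of_notMem_tsupport ℝ hzs]
  simp

theorem Dir_le {z₀ : P} {ρ : ℝ} (hρ : 0 < ρ) {a : ℕ} (ha : a = 2 ∨ a = 4) {H : P → ℝ}
    (hs : ∀ z ∈ tsupport H, a * ρ < lenP (z - z₀) ∧ lenP (z - z₀) < (a + 1) * ρ) {C : ℝ}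
    (hC : ∀ z, gsq H z ≤ C / ρ ^ 2) : Dir H ≤ 100 * C := by
  rw [← Dir_eq hρ ha hs (le_refl (5 * ρ))]
  have hvol : volume.real (rct (z₀.1 - 5 * ρ) (z₀.1 + 5 * ρ) (z₀.2 - 5 * ρ) (z₀.2 + 5 * ρ)) =
      100 * ρ ^ 2 := by
    unfold rct
    rw [measureReal_def, Measure.volume_eq_prod, Measure.prod_prod, Real.volume_Icc,
      Real.volume_Icc, ENNReal.toReal_mul, ENNReal.toReal_ofReal (by linarith),
      ENNReal.toReal_ofReal (by linarith)]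
    ring
  have h1 := norm_setIntegral_le_of_norm_le_const (μ := volume) (f := gsq H) (C := C / ρ ^ 2)
    (s := rct (z₀.1 - 5 * ρ) (z₀.1 + 5 * ρ) (z₀.2 - 5 * ρ) (z₀.2 + 5 * ρ))
    (by
      unfold rct
      exact (isCompact_Icc.prod isCompact_Icc).measure_lt_top) (fun z _ => by
      have h0 : 0 ≤ gsq H z := by unfold gsq; positivity
      rw [Real.norm_of_nonneg h0]
      exact hC z)
  rw [hvol, Real.norm_eq_abs] at h1
  refine (le_abs_self _).trans (h1.trans (le_of_eq ?_))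
  field_simp

/-- A horizontal lattice path. -/
theorem chain_row {s : ℝ} (hs : 1 ≤ s) (K : Finset V) (x : V) (J : ℕ)
    (hK : ∀ j : ℕ, j ≤ J → (x.1 + j, x.2) ∈ K) : chainIn s K x (x.1 + J, x.2) := by
  induction J with
  | zero =>
    have : ((x.1 + ((0 : ℕ) : ℤ), x.2) : V) = x := by ext <;> simp
    rw [this]
    exact Relation.ReflTransGen.refl
  | succ J ih =>
    refine Relation.ReflTransGen.tail (ih fun j hj => hK j (by omega)) ⟨hK J (by omega),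
      hK (J + 1) le_rfl, ?_⟩
    have : len (((x.1 + (J : ℤ), x.2) : V) - ((x.1 + ((J + 1 : ℕ) : ℤ), x.2) : V)) = 1 := by
      unfold len
      simp
    rw [this]
    exact hs

end Pool.Agent.LR.B5
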