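import Pool.Agent.LR.B5.ProfCalc
import Pool.Agent.LR.B3.GamD2

/-!
# LR-B5-Profiles: 6.4 and 7.5, the statement `profiles` of the interface
-/

set_option autoImplicit false

open Filter Topology MeasureTheory

namespace Pool.Agent.LR.B5

open Pool.Agent.LR.B3 (C11 qf_smp)

theorem cc_lin (α β : ℝ) : cc α β = β * cc α 1 := by
  have h : ∑' v : V, Jc α β v * len v ^ 2 = β * ∑' v : V, Jc α 1 v * len v ^ 2 := by
    rw [← tsum_mul_left]
    refine tsum_congr fun v => ?_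
    rw [Jc_linear_beta]
    ring
  unfold cc
  rw [h]
  ring

/-- The energy of the profile in the pinned model. -/
theorem tendsto_MP_smp {α β : ℝ} (hα : 4 < α) (hβ : 0 < β) {z₀ : P} {ρ δ : ℝ} (hρ : 0 < ρ)
    (hδ : 0 < δ) {a : ℕ} (ha : a = 2 ∨ a = 4) {H : P → ℝ}
    (hH : ContDiff ℝ ((⊤ : ℕ∞) : WithTop ℕ∞) H) (hc : HasCompactSupport H)
    (hs : ∀ z ∈ tsupport H, a * ρ < lenP (z - z₀) ∧ lenP (z - z₀) < (a + 1) * ρ) (M : ℝ) :
    Tendsto (fun n => MP α β z₀ ρ M δ n (smp H n) (smp H n)) atTop (𝓝 (cc α β * Dir H)) := by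
  obtain ⟨B, h0, -, -⟩ := exists_C11_3 hH hc
  have h1 := qf_smp hα hβ.le (z₀.1 - 13 * ρ) (z₀.1 + 13 * ρ) (z₀.2 - 13 * ρ) (z₀.2 + 13 * ρ) h0
  rw [Dir_eq hρ ha hs (by linarith : 5 * ρ ≤ 13 * ρ)] at h1
  refine h1.congr fun n => ?_
  rw [MP_smp hρ hδ ha hs M (smp H n)]
  rfl

theorem ev_chain_exists (z₀ : P) {ρ : ℝ} (hρ : 0 < ρ) {a : ℕ} (ha : a = 2 ∨ a = 4) :
    ∀ᶠ n : ℕ in atTop, ∃ x y, lenP (sc n x - z₀) ≤ a * ρ ∧ (a + 1) * ρ ≤ lenP (sc n y - z₀) ∧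
      chainIn ((n : ℝ) ^ (1 / 2 : ℝ)) (SS z₀ ρ n) x y := by
  filter_upwards [ev_large hρ (δ := 1) one_pos] with n hn
  obtain ⟨hn0, -, hρn⟩ := hn
  have hn' : (0 : ℝ) < n := by exact_mod_cast hn0
  have hn1 : (1 : ℝ) ≤ n := by exact_mod_cast hn0
  have ha2 : (2 : ℝ) ≤ a := by rcases ha with rfl | rfl <;> norm_num
  have ha4 : (a : ℝ) ≤ 4 := by rcases ha with rfl | rfl <;> norm_num
  have hin : 1 / (n : ℝ) ≤ ρ / 20 := by
    rw [div_le_iff₀ hn']; linarith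
  set x : V := (⌊(n : ℝ) * z₀.1⌋, ⌊(n : ℝ) * z₀.2⌋) with hx
  have key : ∀ t : ℝ, |((⌊(n : ℝ) * t⌋ : ℤ) : ℝ) / n - t| ≤ 1 / n := by
    intro t
    have h1 := Int.floor_le ((n : ℝ) * t)
    have h2 := Int.lt_floor_add_one ((n : ℝ) * t)
    have e : ((⌊(n : ℝ) * t⌋ : ℤ) : ℝ) / n - t = (((⌊(n : ℝ) * t⌋ : ℤ) : ℝ) - n * t) / n := by
      field_simp
    rw [e, abs_div, abs_of_pos hn']
    refine div_le_div_of_nonneg_right ?_ hn'.le
    rw [abs_le]
    constructor <;> linarith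
  have k1 := key z₀.1
  have k2 := key z₀.2
  set J := ⌈6 * ρ * n⌉₊ with hJ
  have hJ1 : 6 * ρ * n ≤ J := Nat.le_ceil _
  have hJ2 : (J : ℝ) < 6 * ρ * n + 1 := Nat.ceil_lt_add_one (by positivity)
  have hcoord : ∀ j : ℕ, sc n (x.1 + j, x.2) =
      (((⌊(n : ℝ) * z₀.1⌋ : ℤ) : ℝ) / n + j / n, ((⌊(n : ℝ) * z₀.2⌋ : ℤ) : ℝ) / n) := by
    intro j
    unfold sc
    rw [hx]
    ext
    · dsimp only; push_cast; ring
    · rfl
  refine ⟨x, (x.1 + J, x.2), ?_, ?_, chain_row (Real.one_le_rpow hn1 (by norm_num)) _ x J ?_⟩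
  · refine (lenP_le_of_abs (s := 1 / n) ?_ ?_).trans ?_
    · rw [Prod.fst_sub]; exact k1
    · rw [Prod.snd_sub]; exact k2
    · nlinarith
  · rw [hcoord]
    refine le_trans ?_ ((le_abs_self _).trans (abs_fst_le_lenP _))
    rw [Prod.fst_sub]
    dsimp only
    have h1 : 6 * ρ ≤ (J : ℝ) / n := by rw [le_div_iff₀ hn']; exact hJ1
    have h2 := (abs_le.1 k1).1
    nlinarith
  · intro j hj
    refine mem_SS_of_len hn0 ?_
    rw [hcoord]
    have hjJ : (j : ℝ) / n ≤ 6 * ρ + ρ / 20 := by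
      have : (j : ℝ) ≤ J := by exact_mod_cast hj
      rw [div_le_iff₀ hn']
      rw [div_le_iff₀ hn'] at hin
      linarith
    have hj0 : 0 ≤ (j : ℝ) / n := by positivity
    have h1 := abs_le.1 k1
    have h2 := abs_le.1 k2
    refine (lenP_le_of_abs (s := 7 * ρ) ?_ ?_).trans (by linarith)
    · rw [Prod.fst_sub]
      dsimp only
      rw [abs_le]
      constructor <;> linarith [h1.1, h1.2]
    · rw [Prod.snd_sub]
      dsimp only
      rw [abs_le]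
      constructor <;> linarith [h2.1, h2.2]

/-- 6.4 and 7.5: charges and profiles for the ring `a` (`a = 2` or `4`), amplitude one. The
constants `C₁`, `c₂` do not depend on `β, ρ, z₀`. -/
theorem profiles {α : ℝ} (hα : 4 < α) : ∃ C₁ > 0, ∃ c₂ > 0, ∀ β > 0, ∀ (z₀ : P) (ρ : ℝ), 0 < ρ →
    ∀ a : ℕ, (a = 2 ∨ a = 4) → ∃ F : P → ℝ, Continuous F ∧ HasCompactSupport F ∧
    (∀ z, 0 ≤ F z) ∧ (∀ z, F z ≠ 0 → (a + 1 / 4) * ρ < lenP (z - z₀) ∧ lenP (z - z₀) < (a + 3 / 4) * ρ) ∧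
    ∀ η > 0, ∃ M₀ ≥ 1, ∀ M ≥ M₀, ∃ δ₀ > 0, ∀ δ : ℝ, 0 < δ → δ ≤ δ₀ →
    ∃ H : P → ℝ, ContDiff ℝ 2 H ∧ HasCompactSupport H ∧ (∀ z, 0 ≤ H z) ∧
      (∀ z ∈ tsupport H, a * ρ < lenP (z - z₀) ∧ lenP (z - z₀) < (a + 1) * ρ) ∧
      cc α β * Dir H ≤ C₁ * β ∧ c₂ * β ≤ cc α β * Dir H ∧
      |(∫ z, F z * H z) - cc α β * Dir H| ≤ η ∧
      (∀ᶠ n : ℕ in atTop, ∀ φ : V → ℝ,
        |pr (SS z₀ ρ n) (chg F n) φ - MP α β z₀ ρ M δ n (smp H n) φ| ≤
          η * Real.sqrt (MP α β z₀ ρ M δ n φ φ)) ∧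
      (∀ t : ℝ, t < 1 → ∀ᶠ n : ℕ in atTop, ∀ K : Finset V,
        (∃ x y, lenP (sc n x - z₀) ≤ a * ρ ∧ (a + 1) * ρ ≤ lenP (sc n y - z₀) ∧
          chainIn ((n : ℝ) ^ t) K x y) →
        ∀ φ : V → ℝ, (∀ x ∈ K, φ x = smp H n x) → c₂ * β ≤ MP α β z₀ ρ M δ n φ φ) := by
  obtain ⟨tau, htau, C, hC, hprof⟩ := ring_profile
  have hc1 : 0 < cc α 1 := cc_pos hα one_pos
  refine ⟨cc α 1 * (100 * C), by positivity, tau ^ 2 / 2209, by positivity, ?_⟩
  intro β hβ z₀ ρ hρ a ha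
  obtain ⟨m, ⟨hm1, hm2⟩, hpr⟩ := hprof a ha
  obtain ⟨F, hF1, hF2, hF3, hF4, hlam⟩ := hpr z₀ ρ hρ
  have hcc := cc_pos hα hβ
  have hC1β : 0 < cc α 1 * (100 * C) * β := by positivity
  refine ⟨fun z => cc α β * F z, continuous_const.mul hF1.continuous, hF2.mul_left, fun z =>
    mul_nonneg hcc.le (hF3 z), fun z hz => hF4 z (right_ne_zero_of_mul hz), ?_⟩
  intro η hη
  obtain ⟨K, hK, hres⟩ := residual (α := α) hα hβ z₀ hρ (C / ρ ^ 2) (by positivity)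
  -- tolerance for the residual
  set D := Real.sqrt (cc α 1 * (100 * C) * β) + 1 with hD
  have hD1 : 1 ≤ D := by rw [hD]; linarith [Real.sqrt_nonneg (cc α 1 * (100 * C) * β)]
  set η' := η / D with hη'
  have hη'0 : 0 < η' := by positivity
  have hη'η : η' ≤ η := div_le_self hη.le hD1
  -- choice of lam
  set s := min (1 / 10) (η' / (K + 1)) with hs
  have hs0 : 0 < s := lt_min (by norm_num) (by positivity)
  have hs1 : s ≤ 1 / 10 := min_le_left _ _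
  set lam := s ^ 2 with hlamd
  have hlam0 : 0 < lam := by positivity
  have hlam1 : lam ≤ 1 / 100 := by rw [hlamd]; nlinarith
  have hsqrt : Real.sqrt lam = s := by rw [hlamd]; exact Real.sqrt_sq hs0.le
  have htot : K * Real.sqrt lam + lam ≤ η' := by
    rw [hsqrt]
    have h1 : s * (K + 1) ≤ η' := by
      have := min_le_right (1 / 10) (η' / (K + 1))
      rw [← hs, le_div_iff₀ (by positivity)] at this
      exact this
    have h2 : lam ≤ s := by rw [hlamd]; nlinarith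
    nlinarith
  obtain ⟨H, hH1, hH2, hH3, hH4, hH5, hH6, hH7, hH8⟩ := hlam lam hlam0 hlam1
  refine ⟨max 1 (max (1 / lam ^ 2) (β / ρ ^ 2)), le_max_left _ _, ?_⟩
  intro M hM
  have hM1 : 1 ≤ M := (le_max_left _ _).trans hM
  have hM2 : 1 / lam ^ 2 ≤ M := (le_max_left _ _).trans ((le_max_right _ _).trans hM)
  have hM3 : β / ρ ^ 2 ≤ M := (le_max_right _ _).trans ((le_max_right _ _).trans hM)
  refine ⟨min lam (lam * ρ), lt_min hlam0 (by positivity), ?_⟩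
  intro δ hδ hδ0
  have hδ1 : δ ≤ lam := hδ0.trans (min_le_left _ _)
  have hδ2 : δ ≤ lam * ρ := hδ0.trans (min_le_right _ _)
  have hδρ : δ ≤ ρ / 8 := by nlinarith
  have hM0 : 0 < M := by linarith
  have two : (2 : WithTop ℕ∞) ≤ ((⊤ : ℕ∞) : WithTop ℕ∞) :=
    WithTop.coe_le_coe.2 (le_top : (2 : ℕ∞) ≤ ⊤)
  have hgap := hres lam M δ hlam0 hlam1 hM2 hδ hδ2 hδ1 a ha F H hH1 hH2 hH4 (fun z => by
      have h1 := hH7 z
      rw [abs_of_nonneg h1.1]
      refine h1.2.trans (le_of_eq ?_)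
      field_simp) hH8
  have hQlim := tendsto_MP_smp hα hβ hρ hδ ha hH1 hH2 hH4 M
  have hDle : cc α β * Dir H ≤ cc α 1 * (100 * C) * β := by
    rw [cc_lin α β]
    have h1 := Dir_le hρ ha hH4 hH6
    have h2 : 0 < β * cc α 1 := by positivity
    have := mul_le_mul_of_nonneg_left h1 h2.le
    linarith
  have hcross : ∀ t : ℝ, t < 1 → ∀ᶠ n : ℕ in atTop, ∀ K : Finset V,
        (∃ x y, lenP (sc n x - z₀) ≤ a * ρ ∧ (a + 1) * ρ ≤ lenP (sc n y - z₀) ∧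
          chainIn ((n : ℝ) ^ t) K x y) →
        ∀ φ : V → ℝ, (∀ x ∈ K, φ x = smp H n x) → tau ^ 2 / 2209 * β ≤ MP α β z₀ ρ M δ n φ φ := by
    intro t ht
    filter_upwards [cross_energy (α := α) hβ z₀ hρ ha hm1 hm2 htau H hH5 hM0 hM3 hδ hδρ ht]
      with n hn K hK φ hφ
    obtain ⟨x, y, hx, hy, hch⟩ := hK
    exact hn K x y hx hy hch φ hφ
  refine ⟨H, hH1.of_le two, hH2, hH3, hH4, hDle, ?_, ?_, ?_, hcross⟩
  · -- lower bound of the energy
    refine ge_of_tendsto hQlim ?_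
    filter_upwards [hcross (1 / 2) (by norm_num), ev_chain_exists z₀ hρ ha] with n h1 h2
    exact h1 (SS z₀ ρ n) h2 (smp H n) fun _ _ => rfl
  · -- the pairing
    have hpair : Tendsto (fun n => pr (SS z₀ ρ n) (chg (fun z => cc α β * F z) n) (smp H n)) atTop
        (𝓝 (∫ z, (fun z => cc α β * F z) z * H z)) := by
      refine chg_smp (continuous_const.mul hF1.continuous) hF2.mul_left hH1.continuous
        (fun n => SS z₀ ρ n) ?_
      filter_upwards [eventually_gt_atTop 0] with n hn x hx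
      have : smp H n x = 0 := by
        by_contra hne
        have h1 := (hH4 _ (subset_tsupport H hne)).2
        have ha4 : (a : ℝ) ≤ 4 := by rcases ha with rfl | rfl <;> norm_num
        exact hx (mem_SS_of_len hn (by nlinarith))
      rw [this, mul_zero]
    have hl := (hpair.sub hQlim).abs
    have hr := (hQlim.sqrt).const_mul η'
    have h1 : |(∫ z, (fun z => cc α β * F z) z * H z) - cc α β * Dir H| ≤
        η' * Real.sqrt (cc α β * Dir H) := by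
      refine le_of_tendsto_of_tendsto hl hr ?_
      filter_upwards [hgap] with n hn
      exact (hn (smp H n)).trans (mul_le_mul_of_nonneg_right htot (Real.sqrt_nonneg _))
    refine h1.trans ?_
    have h2 : Real.sqrt (cc α β * Dir H) ≤ D := by
      have := Real.sqrt_le_sqrt hDle
      rw [hD]
      linarith
    calc η' * Real.sqrt (cc α β * Dir H) ≤ η' * D := mul_le_mul_of_nonneg_left h2 hη'0.le
      _ = η := by rw [hη']; field_simp
  · filter_upwards [hgap] with n hn φ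
    exact (hn φ).trans (mul_le_mul_of_nonneg_right (htot.trans hη'η) (Real.sqrt_nonneg _))

end Pool.Agent.LR.B5
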